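import Pool.Agent.P.MP_fb2360_al.Gal
import Pool.Agent.P.MP_fb2360_al.Comb

namespace Pool.Agent.P.MP_fb2360_al.T

open Pool.Agent.P.MP_fb2360_al

lemma ext_equiv {K : Type*} [Field K] [Algebra K ℂ] (σ : K ≃+* K) :
    ∃ s : RingAut ℂ, ∀ x : K, s (algebraMap K ℂ x) = algebraMap K ℂ (σ x) := by
  obtain ⟨T, hT⟩ := exists_isTranscendenceBasis K ℂ
  have := IsAlgClosed.isAlgClosure_of_transcendence_basis _ hT
  set e := hT.1.aevalEquiv.toRingEquiv with he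
  set τ := e.symm.trans ((MvPolynomial.mapEquiv T σ).trans e) with hτ
  refine ⟨IsAlgClosure.equivOfEquiv ℂ ℂ τ, fun x => ?_⟩
  have h1 : ∀ y : K, e (MvPolynomial.C y) = algebraMap K _ y := fun y =>
    hT.1.aevalEquiv.commutes y
  have h2 := IsAlgClosure.equivOfEquiv_algebraMap ℂ ℂ τ (algebraMap K _ x)
  rw [← IsScalarTower.algebraMap_apply] at h2
  refine h2.trans ?_
  simp only [hτ, ← h1, RingEquiv.trans_apply, RingEquiv.symm_apply_apply,
    MvPolynomial.mapEquiv_apply, MvPolynomial.map_C]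
  rw [h1, ← IsScalarTower.algebraMap_apply]
  rfl

/-- automorphisms fixing the `m`-th roots of unity -/
def Fix (m : ℕ) : Subgroup (RingAut ℂ) where
  carrier := {s | ∀ z : ℂ, z ^ m = 1 → s z = z}
  one_mem' := fun _ _ => rfl
  mul_mem' := fun {s t} hs ht z hz => by
    show s (t z) = z
    rw [ht z hz, hs z hz]
  inv_mem' := fun {s} hs z hz => by
    show s.symm z = z
    rw [RingEquiv.symm_apply_eq, hs z hz]

/-- automorphisms fixing the values of a function -/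
def St {X : Type*} (χ : X → ℂ) : Subgroup (RingAut ℂ) where
  carrier := {s | ∀ x, s (χ x) = χ x}
  one_mem' := fun _ => rfl
  mul_mem' := fun {s t} hs ht x => by
    show s (t (χ x)) = χ x
    rw [ht x, hs x]
  inv_mem' := fun {s} hs x => by
    show s.symm (χ x) = χ x
    rw [RingEquiv.symm_apply_eq, hs x]

lemma mem_Fix {m : ℕ} {s : RingAut ℂ} : s ∈ Fix m ↔ ∀ z : ℂ, z ^ m = 1 → s z = z := Iff.rfl

lemma mem_St {X : Type*} {χ : X → ℂ} {s : RingAut ℂ} : s ∈ St χ ↔ ∀ x, s (χ x) = χ x := Iff.rfl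

/-- the cyclotomic character -/
noncomputable def cm (n : ℕ) [NeZero n] : RingAut ℂ →* (ZMod n)ˣ :=
  modularCyclotomicCharacter ℂ (zt_prim (NeZero.pos n)).card_rootsOfUnity

lemma cm_spec (n : ℕ) [NeZero n] (s : RingAut ℂ) {z : ℂ} (hz : z ^ n = 1) :
    s z = z ^ ex (cm n s) := by
  have hz0 : z ≠ 0 := by
    rintro rfl
    simp [NeZero.ne n] at hz
  have := modularCyclotomicCharacter.spec ℂ (zt_prim (NeZero.pos n)).card_rootsOfUnity s
    (t := Units.mk0 z hz0) (by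
      rw [mem_rootsOfUnity]
      exact Units.ext (by simpa using hz))
  exact this

lemma ex_inj {n : ℕ} [NeZero n] {κ κ' : (ZMod n)ˣ} (h : zt n ^ ex κ = zt n ^ ex κ') : κ = κ' := by
  have hn := NeZero.pos n
  have h1 := (zt_prim hn).pow_inj (ZMod.val_lt _) (ZMod.val_lt _) h
  exact Units.ext (ZMod.val_injective n h1)

lemma cm_surj (n : ℕ) [NeZero n] : Function.Surjective (cm n) := by
  have := cyc_isCyc n
  have := IsCyclotomicExtension.numberField {n} ℚ (cyc n)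
  intro κ
  obtain ⟨σ, rfl⟩ := (IsCyclotomicExtension.Rat.galEquivZMod n (cyc n)).surjective κ
  obtain ⟨s, hs⟩ := ext_equiv σ.toRingEquiv
  refine ⟨s, ex_inj ?_⟩
  have hz := (zt_prim (NeZero.pos n)).pow_eq_one
  rw [← cm_spec n s hz]
  have h1 := IsCyclotomicExtension.Rat.galEquivZMod_apply_of_pow_eq n (cyc n) σ
    (x := ⟨zt n, zt_mem n⟩) (Subtype.ext hz)
  exact (hs ⟨zt n, zt_mem n⟩).trans (congrArg Subtype.val h1)

lemma exists_aut {m k : ℕ} (hm : 0 < m) (hk : k.Coprime m) :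
    ∃ s : RingAut ℂ, ∀ z : ℂ, z ^ m = 1 → s z = z ^ k := by
  have : NeZero m := ⟨hm.ne'⟩
  obtain ⟨s, hs⟩ := cm_surj m (ZMod.unitOfCoprime k hk)
  refine ⟨s, fun z hz => ?_⟩
  rw [cm_spec m s hz, hs]
  refine pow_eq_pow_of_modEq ?_ hz
  unfold ex
  rw [ZMod.coe_unitOfCoprime, ZMod.val_natCast]
  exact Nat.mod_modEq _ _

lemma Fix_eq_comap {n m : ℕ} [NeZero n] (h : m ∣ n) : Fix m = (Kmod n m).comap (cm n) := by
  have hm := Nat.pos_of_dvd_of_pos h (NeZero.pos n)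
  have hpow : ∀ z : ℂ, z ^ m = 1 → z ^ n = 1 := fun z hz => by
    obtain ⟨k, rfl⟩ := h
    rw [pow_mul, hz, one_pow]
  ext s
  refine ⟨fun hs _ => ?_, fun hs z hz => ?_⟩
  · have h1 := hs _ (zt_prim hm).pow_eq_one
    rw [cm_spec n s (hpow _ (zt_prim hm).pow_eq_one)] at h1
    rw [(zt_prim hm).eq_orderOf]
    exact ((zt_prim hm).isOfFinOrder hm.ne').pow_eq_pow_iff_modEq.mp (by rw [h1, pow_one])
  · rw [cm_spec n s (hpow z hz), pow_eq_pow_of_modEq (hs h) hz, pow_one]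

lemma Fix_eq_ker (n : ℕ) [NeZero n] : Fix n = (cm n).ker := by
  ext s
  refine ⟨fun hs => ?_, fun hs z hz => ?_⟩
  · have hz := (zt_prim (NeZero.pos n)).pow_eq_one
    refine ex_inj ?_
    rw [← cm_spec n s hz, hs _ hz, pow_ex_one hz]
  · rw [cm_spec n s hz, (MonoidHom.mem_ker).mp hs, pow_ex_one hz]

lemma Fix_anti {m m' : ℕ} (h : m ∣ m') : Fix m' ≤ Fix m := fun s hs z hz => hs z (by
  obtain ⟨k, rfl⟩ := h
  rw [pow_mul, hz, one_pow])

lemma Fix_mul {m m' : ℕ} (hm : 0 < m) (hm' : 0 < m') (h : m.Coprime m') :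
    Fix m ⊓ Fix m' ≤ Fix (m * m') := by
  rintro s ⟨h1, h2⟩
  have : NeZero (m * m') := ⟨(Nat.mul_pos hm hm').ne'⟩
  rw [Fix_eq_comap (dvd_refl (m * m'))]
  rw [Fix_eq_comap (Dvd.intro m' rfl : m ∣ m * m')] at h1
  rw [Fix_eq_comap (Dvd.intro_left m rfl : m' ∣ m * m')] at h2
  exact fun _ => (Nat.modEq_and_modEq_iff_modEq_mul h).mp
    ⟨h1 (Dvd.intro m' rfl), h2 (Dvd.intro_left m rfl)⟩

lemma crt {m m' : ℕ} (hm : 0 < m) (hm' : 0 < m') (h : m.Coprime m') (t : RingAut ℂ) :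
    ∃ s : RingAut ℂ, t⁻¹ * s ∈ Fix m ∧ s ∈ Fix m' := by
  have : NeZero m := ⟨hm.ne'⟩
  obtain ⟨k, hk1, hk2⟩ := Nat.chineseRemainder h (ex (cm m t)) 1
  have hkn : k.Coprime (m * m') := by
    refine Nat.Coprime.mul_right ?_ ?_
    · rw [Nat.Coprime, hk1.gcd_eq]
      exact ex_coprime _
    · rw [Nat.Coprime, hk2.gcd_eq]
      exact Nat.gcd_one_left _
  obtain ⟨s, hs⟩ := exists_aut (Nat.mul_pos hm hm') hkn
  refine ⟨s, fun z hz => ?_, fun z hz => ?_⟩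
  · show t.symm (s z) = z
    rw [RingEquiv.symm_apply_eq, hs z (by rw [pow_mul, hz, one_pow]), cm_spec m t hz]
    exact pow_eq_pow_of_modEq hk1 hz
  · rw [hs z (by rw [pow_mul', hz, one_pow]), pow_eq_pow_of_modEq hk2 hz, pow_one]

lemma comm_mem {m : ℕ} (hm : 0 < m) (s t : RingAut ℂ) : (s * t)⁻¹ * (t * s) ∈ Fix m := by
  have : NeZero m := ⟨hm.ne'⟩
  rw [Fix_eq_ker, MonoidHom.mem_ker, map_mul, map_inv, map_mul, map_mul, mul_comm (cm m s),
    inv_mul_cancel]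

/-- the degree of `ℚ_m` over the fixed field of `H` -/
noncomputable def DD (H : Subgroup (RingAut ℂ)) (m : ℕ) : ℕ := (Fix m).relIndex H

lemma DD_eq (H : Subgroup (RingAut ℂ)) (m : ℕ) [NeZero m] : DD H m = Nat.card (H.map (cm m)) := by
  rw [DD, Fix_eq_ker, Subgroup.relIndex_ker]

lemma DD_ne (H : Subgroup (RingAut ℂ)) {m : ℕ} (hm : 0 < m) : DD H m ≠ 0 := by
  have : NeZero m := ⟨hm.ne'⟩
  rw [DD_eq]
  exact Nat.card_pos.ne'

lemma DD_le_of {H H' : Subgroup (RingAut ℂ)} {m : ℕ} (hm : 0 < m)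
    (h : ∀ s ∈ H, ∃ t ∈ H', t⁻¹ * s ∈ Fix m) : DD H m ≤ DD H' m := by
  have : NeZero m := ⟨hm.ne'⟩
  rw [DD_eq, DD_eq]
  refine Subgroup.card_le_of_le ?_
  rintro _ ⟨s, hs, rfl⟩
  obtain ⟨t, ht, hts⟩ := h s hs
  refine ⟨t, ht, ?_⟩
  rw [Fix_eq_ker, MonoidHom.mem_ker, map_mul, map_inv, inv_mul_eq_one] at hts
  exact hts

lemma DD_mono {H H' : Subgroup (RingAut ℂ)} {m : ℕ} (hm : 0 < m) (h : H ≤ H') :
    DD H m ≤ DD H' m :=
  DD_le_of hm fun s hs => ⟨s, h hs, by rw [inv_mul_cancel]; exact one_mem _⟩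

lemma DD_dvd (H : Subgroup (RingAut ℂ)) {m m' : ℕ} (hm : 0 < m') (h : m ∣ m') :
    DD H m ≤ DD H m' :=
  Subgroup.relIndex_le_of_le_left (Fix_anti h) (DD_ne H hm)

lemma DD_le_mul (H K : Subgroup (RingAut ℂ)) {m : ℕ} (hm : 0 < m) (hK : K.relIndex H ≠ 0) :
    DD H m ≤ DD (K ⊓ H) m * K.relIndex H := by
  have h1 := Subgroup.relIndex_inf_mul_relIndex (Fix m) K H
  have h2 : (Fix m ⊓ K).relIndex H ≠ 0 := by
    rw [← h1]
    exact mul_ne_zero (DD_ne _ hm) hK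
  exact (Subgroup.relIndex_le_of_le_left inf_le_left h2).trans h1.ge

lemma DD_mul (H : Subgroup (RingAut ℂ)) {m m' : ℕ} (hm : 0 < m) (hm' : 0 < m')
    (h : m.Coprime m') : DD H (m * m') = DD (Fix m ⊓ H) m' * DD H m := by
  have h1 := Subgroup.relIndex_inf_mul_relIndex (Fix m') (Fix m) H
  have h2 : Fix m' ⊓ Fix m = Fix (m * m') :=
    le_antisymm (by rw [inf_comm]; exact Fix_mul hm hm' h)
      (le_inf (Fix_anti (Dvd.intro_left m rfl)) (Fix_anti (Dvd.intro m' rfl)))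
  rw [h2] at h1
  exact h1.symm

/-- `q` divides the conductor -/
def Cond (H : Subgroup (RingAut ℂ)) (q : ℕ) : Prop :=
  ∀ M, 0 < M → ¬ q ∣ M → ¬ Fix M ≤ H

lemma Cond.mono {H H' : Subgroup (RingAut ℂ)} {q : ℕ} (h : Cond H q) (hle : H' ≤ H) :
    Cond H' q := fun M h1 h2 h3 => h M h1 h2 (h3.trans hle)

end Pool.Agent.P.MP_fb2360_al.T
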