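import Mathlib

namespace Pool.Agent.P.MP_fb2360_al.T

/-- `PSolv p R`: `R` is the top of a chain `1 = N₀ ≤ N₁ ≤ ⋯ ≤ N_k = R` of normal subgroups of `G`
in which every index `[N_{i+1} : N_i]` is a power of `p` or is prime to `p`; that is, `R` is a
normal `p`-solvable subgroup of `G`. -/
inductive PSolv {G : Type} [Group G] (p : ℕ) : Subgroup G → Prop
  | bot : PSolv p ⊥
  | step (N N' : Subgroup G) : PSolv p N → N'.Normal → N ≤ N' →
      ((∃ e : ℕ, N.relIndex N' = p ^ e) ∨ ¬ p ∣ N.relIndex N') → PSolv p N'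

/-- `p` is tame for `G`: modulo some normal `p`-solvable subgroup `R`, the Sylow `p`-subgroups are
cyclic or intersect pairwise trivially. -/
def Tame (G : Type) [Group G] (p : ℕ) : Prop :=
  ∃ (R : Subgroup G) (_ : R.Normal), PSolv p R ∧
    ((∀ P : Sylow p (G ⧸ R), IsCyclic P) ∨
      ∀ P Q : Sylow p (G ⧸ R), P ≠ Q → (P : Subgroup (G ⧸ R)) ⊓ Q = ⊥)

end Pool.Agent.P.MP_fb2360_al.T
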