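import Pool.Agent.P.MP_fb2360_al.T.Inert

namespace Pool.Agent.P.MP_fb2360_al.T

open Pool.Agent.P.MP_fb2360_al Matrix Submodule

variable {n d : ℕ} {G : Type} [Group G]

/-- multiplicative on a subgroup -/
structure HomOn (N : Subgroup G) (a : G → Mat d) : Prop where
  one : a 1 = 1
  mul : ∀ x ∈ N, ∀ y ∈ N, a (x * y) = a x * a y

namespace HomOn

variable {N : Subgroup G} {a : G → Mat d} (h : HomOn N a)
include h

/-- the associated homomorphism -/
def toHom : N →* Mat d where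
  toFun x := a x
  map_one' := h.one
  map_mul' x y := h.mul x x.2 y y.2

lemma range_toHom : Set.range h.toHom = a '' N := by
  ext Y
  exact ⟨fun ⟨x, hx⟩ => ⟨x, x.2, hx⟩, fun ⟨x, hx, hx'⟩ => ⟨⟨x, hx⟩, hx'⟩⟩

lemma mono {Q : Subgroup G} (hQ : Q ≤ N) : HomOn Q a :=
  ⟨h.one, fun x hx y hy => h.mul x (hQ hx) y (hQ hy)⟩

lemma pow {x : G} (hx : x ∈ N) (k : ℕ) : a (x ^ k) = a x ^ k := map_pow h.toHom ⟨x, hx⟩ k

lemma inv_mul {x : G} (hx : x ∈ N) : a x⁻¹ * a x = 1 := by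
  rw [← h.mul _ (inv_mem hx) _ hx, inv_mul_cancel, h.one]

lemma mul_inv {x : G} (hx : x ∈ N) : a x * a x⁻¹ = 1 := by
  rw [← h.mul _ hx _ (inv_mem hx), mul_inv_cancel, h.one]

lemma isUnit {x : G} (hx : x ∈ N) : IsUnit (a x) := ⟨⟨_, _, h.mul_inv hx, h.inv_mul hx⟩, rfl⟩

lemma img_mul : ∀ u ∈ a '' N, ∀ v ∈ a '' N, u * v ∈ a '' N := by
  rintro _ ⟨x, hx, rfl⟩ _ ⟨y, hy, rfl⟩
  exact ⟨x * y, mul_mem hx hy, h.mul _ hx _ hy⟩

lemma irr (hd : 0 < d) (hs : span ℂ (a '' N) = ⊤) : Irr h.toHom :=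
  ⟨hd, by rw [range_toHom, hs]⟩

end HomOn

lemma homOn_rho (ρ : G →* Mat n) (N : Subgroup G) : HomOn N ρ :=
  ⟨map_one ρ, fun x _ y _ => map_mul ρ x y⟩

lemma smul_inj {A : Mat d} (hd : 0 < d) (hA : IsUnit A) {c c' : ℂ} (h : c • A = c' • A) :
    c = c' := by
  have : Nonempty (Fin d) := ⟨⟨0, hd⟩⟩
  exact smul_left_injective ℂ hA.ne_zero h

/-- `A` induces conjugation by `g` -/
def Nm (N : Subgroup G) (a : G → Mat d) (g : G) (A : Mat d) : Prop :=
  ∀ x ∈ N, a (g * x * g⁻¹) * A = A * a x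

lemma Nm.uniq {N : Subgroup G} {a : G → Mat d} (hs : span ℂ (a '' N) = ⊤) {g : G} {A A' : Mat d}
    (h : Nm N a g A) (h' : Nm N a g A') (hA : IsUnit A) : ∃ c : ℂ, A' = c • A := by
  obtain ⟨u, rfl⟩ := hA
  obtain ⟨c, hc⟩ := scalar_of_comm hs (Y := ↑u⁻¹ * A') (by
    rintro _ ⟨x, hx, rfl⟩
    rw [mul_assoc, ← h' x hx, ← mul_assoc, ← mul_assoc]
    congr 1
    rw [Units.mul_inv_eq_iff_eq_mul, mul_assoc, h x hx, Units.inv_mul_cancel_left])
  exact ⟨c, by rw [← mul_one (u : Mat d), ← mul_smul_comm, ← hc, Units.mul_inv_cancel_left]⟩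

lemma Nm.mul {N : Subgroup G} [hN : N.Normal] {a : G → Mat d} {g h : G} {A B : Mat d}
    (hA : Nm N a g A) (hB : Nm N a h B) : Nm N a (g * h) (A * B) := fun x hx => by
  have : g * h * x * (g * h)⁻¹ = g * (h * x * h⁻¹) * g⁻¹ := by group
  rw [this, ← mul_assoc, hA _ (hN.conj_mem x hx h), mul_assoc, hB x hx, mul_assoc]

lemma Nm.smul {N : Subgroup G} {a : G → Mat d} {g : G} {A : Mat d}
    (hA : Nm N a g A) (c : ℂ) : Nm N a g (c • A) := fun x hx => by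
  rw [mul_smul_comm, smul_mul_assoc, hA x hx]

lemma HomOn.nm {N K : Subgroup G} [hN : N.Normal] {a a' : G → Mat d} (h : HomOn K a')
    (hNK : N ≤ K) (h' : ∀ x ∈ N, a' x = a x) {g : G} (hg : g ∈ K) : Nm N a g (a' g) :=
  fun x hx => by
    rw [← h' _ (hN.conj_mem x hx g), ← h' x hx, ← h.mul _ (hNK (hN.conj_mem x hx g)) _ hg,
      ← h.mul _ hg _ (hNK hx), inv_mul_cancel_right]

lemma exists_det_one (hd : 0 < d) {A : Mat d} (hA : IsUnit A) : ∃ t : ℂ, (t • A).det = 1 := by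
  obtain ⟨t, ht⟩ := IsAlgClosed.exists_pow_nat_eq (A.det)⁻¹ hd
  refine ⟨t, ?_⟩
  rw [det_smul, Fintype.card_fin, ht,
    inv_mul_cancel₀ ((Matrix.isUnit_iff_isUnit_det A).mp hA).ne_zero]

theorem ext_exists [Finite G] {N K : Subgroup G} [hN : N.Normal] {a : G → Mat d} (hd : 0 < d)
    (ha : HomOn N a) (hs : span ℂ (a '' N) = ⊤) {M : ℕ} (hM : 0 < M)
    (hdet : ∀ x ∈ N, (a x).det ^ M = 1) (hc : (N.relIndex K).Coprime (d * M))
    (hA : ∀ g, ∃ A, IsUnit A ∧ Nm N a g A) :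
    ∃ a' : G → Mat d, HomOn K a' ∧ (∀ x ∈ N, a' x = a x) ∧ ∀ g, (a' g).det ^ M = 1 := by
  classical
  have hB₀ : ∀ g, ∃ A : Mat d, A.det = 1 ∧ Nm N a g A := fun g => by
    obtain ⟨A, h1, h2⟩ := hA g
    obtain ⟨t, ht⟩ := exists_det_one hd h1
    exact ⟨_, ht, h2.smul t⟩
  choose B₀ h1 h2 using hB₀
  let σ : G → G := fun g => (g : G ⧸ N).out
  have hσ : ∀ g, g * (σ g)⁻¹ ∈ N := fun g =>
    hN.mem_comm (QuotientGroup.eq.mp (QuotientGroup.out_eq' (g : G ⧸ N)))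
  let B : G → Mat d := fun g => a (g * (σ g)⁻¹) * B₀ (σ g)
  have hn : ∀ g, Nm N a g (B g) := fun g => by
    have := (ha.nm le_rfl (fun _ _ => rfl) (hσ g)).mul (h2 (σ g))
    rwa [inv_mul_cancel_right] at this
  have hdB : ∀ g, (B g).det ^ M = 1 := fun g => by rw [det_mul, h1, mul_one, hdet _ (hσ g)]
  have hu : ∀ g, IsUnit (B g) := fun g => by
    rw [Matrix.isUnit_iff_isUnit_det]
    exact IsUnit.of_pow_eq_one (hdB g) hM.ne'
  have hl : ∀ x ∈ N, ∀ g, B (x * g) = a x * B g := fun x hx g => by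
    have : σ (x * g) = σ g := by
      simp only [σ, QuotientGroup.mk_mul, (QuotientGroup.eq_one_iff x).mpr hx, one_mul]
    simp only [B, this]
    rw [mul_assoc x, ha.mul _ hx _ (hσ g), mul_assoc]
  have hr : ∀ x ∈ N, ∀ g, B (g * x) = B g * a x := fun x hx g => by
    rw [← hn g x hx, ← hl _ (hN.conj_mem x hx g), inv_mul_cancel_right]
  have hγ : ∀ g h, ∃ c : ℂ, B g * B h = c • B (g * h) := fun g h =>
    (hn (g * h)).uniq hs ((hn g).mul (hn h)) (hu _)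
  choose γ hγ using hγ
  have he : ∀ g h, γ g h ^ (d * M) = 1 := fun g h => by
    have := congrArg (fun Y => Y.det ^ M) (hγ g h)
    simp only [det_mul, det_smul, mul_pow, hdB, Fintype.card_fin, mul_one] at this
    rw [pow_mul, ← this]
  have hγr : ∀ x ∈ N, ∀ g h, γ g (h * x) = γ g h := fun x hx g h => by
    refine smul_inj hd (hu (g * (h * x))) ?_
    rw [← hγ, hr x hx, ← mul_assoc, hγ, ← mul_assoc, hr x hx, smul_mul_assoc]
  have hco : ∀ g h l, γ g h * γ (g * h) l = γ h l * γ g (h * l) := fun g h l => by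
    refine smul_inj hd (hu (g * h * l)) ?_
    rw [mul_smul, ← hγ, ← smul_mul_assoc, ← hγ, mul_assoc, hγ h l, mul_smul_comm, hγ, mul_smul,
      mul_assoc]
  let Kb := K.map (QuotientGroup.mk' N)
  have := Fintype.ofFinite Kb
  have hKb : Fintype.card Kb = N.relIndex K := by
    rw [← Nat.card_eq_fintype_card, ← Subgroup.relIndex_ker, QuotientGroup.ker_mk']
  let δ : G → ℂ := fun g => ∏ q : Kb, γ g (q : G ⧸ N).out
  have hδ : ∀ g, ∀ h ∈ K, γ g h ^ N.relIndex K * δ (g * h) = δ g * δ h := fun g h hh => by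
    have h3 : ∏ q : Kb, γ g (h * (q : G ⧸ N).out) = δ g := by
      simp only [δ]
      rw [← Equiv.prod_comp (Equiv.mulLeft (⟨h, h, hh, rfl⟩ : Kb))
        fun q : Kb => γ g (q : G ⧸ N).out]
      refine Finset.prod_congr rfl fun q _ => ?_
      obtain ⟨x, hx⟩ := QuotientGroup.mk_out_eq_mul N (h * (q : G ⧸ N).out)
      rw [← hγr x x.2, ← hx]
      simp
    rw [← hKb, ← Finset.card_univ, ← Finset.prod_const, ← h3, ← Finset.prod_mul_distrib,
      ← Finset.prod_mul_distrib]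
    exact Finset.prod_congr rfl fun q _ => by rw [hco, mul_comm]
  have he0 : 0 < d * M := Nat.mul_pos hd hM
  obtain ⟨k, -, hk⟩ := Nat.exists_mul_mod_eq_of_coprime 1 hc he0.ne'
  have hu' : ∀ z : ℂ, z ^ (d * M) = 1 → (z ^ N.relIndex K) ^ (k * (d * M - 1)) * z = 1 := by
    intro z hz
    rw [← pow_mul, ← mul_assoc, pow_mul, pow_eq_pow_of_modEq hk hz, pow_one, ← pow_succ,
      Nat.sub_add_cancel he0, hz]
  have hx1 : ∀ x ∈ N, δ x ^ (k * (d * M - 1)) • B x = a x := by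
    obtain ⟨μ, hμ⟩ := Nm.uniq (g := 1) (A := 1) hs (fun x _ => by simp) (hn 1) isUnit_one
    intro x hx
    have h3 : B x = μ • a x := by rw [← mul_one x, hl x hx, hμ, mul_smul_comm, mul_one, mul_one]
    have h4 : ∀ h, γ x h = μ := fun h => smul_inj hd (hu (x * h)) (by
      rw [← hγ, h3, hl x hx, smul_mul_assoc])
    have h5 : δ x = μ ^ N.relIndex K := by
      simp only [δ, h4, Finset.prod_const, Finset.card_univ, hKb]
    rw [h3, h5, smul_smul, hu' μ (h4 1 ▸ he x 1), one_smul]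
  refine ⟨fun g => δ g ^ (k * (d * M - 1)) • B g, ⟨?_, fun g _ h hh => ?_⟩, hx1, fun g => ?_⟩
  · rw [hx1 1 (one_mem _), ha.one]
  · rw [smul_mul_smul_comm, hγ, smul_smul, ← mul_pow, ← hδ g h hh, mul_pow, mul_right_comm,
      hu' _ (he g h), one_mul]
  · have h3 : δ g ^ (d * M) = 1 := by
      simp only [δ, ← Finset.prod_pow, he, Finset.prod_const_one]
    rw [det_smul, mul_pow, hdB, mul_one, Fintype.card_fin, ← pow_mul, ← pow_mul, mul_comm, pow_mul,
      h3, one_pow]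

/-- uniqueness of the normalised extension -/
lemma Nm.eq {N : Subgroup G} {a : G → Mat d} (hd : 0 < d) (hs : span ℂ (a '' N) = ⊤) {g : G}
    {A A' : Mat d} (h : Nm N a g A) (h' : Nm N a g A') (hA : IsUnit A) {m M : ℕ}
    (hc : m.Coprime (d * M)) (h1 : A ^ m = A' ^ m) (h2 : A.det ^ M = 1) (h3 : A'.det ^ M = 1) :
    A' = A := by
  obtain ⟨c, rfl⟩ := h.uniq hs h' hA
  rw [smul_pow] at h1
  have h4 : c ^ m = 1 := smul_inj hd (hA.pow m) (by rw [← h1, one_smul])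
  rw [det_smul, mul_pow, h2, mul_one, Fintype.card_fin, ← pow_mul] at h3
  rw [(pow_eq_one_iff_of_coprime hc).mp ⟨h4, h3⟩, one_smul]

/-- Galois transport -/
lemma gal_conj [Finite G] {N : Subgroup G} [hN : N.Normal] {a : G → Mat d} (hd : 0 < d)
    (ha : HomOn N a) (hs : span ℂ (a '' N) = ⊤) {s : RingAut ℂ}
    (h : ∀ x ∈ N, s (a x).trace = (a x).trace) :
    ∃ Φ : Mat d →* Mat d, (∀ x ∈ N, Φ (a x) = a x) ∧ (∀ Y, (Φ Y).trace = s Y.trace) ∧
      (∀ Y, (Φ Y).det = s Y.det) ∧ ∀ g A, Nm N a g A → Nm N a g (Φ A) := by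
  obtain ⟨S, hS⟩ := conj_of_trace (f' := mapRep s ha.toHom) (ha.irr hd hs) fun x => by
    rw [ch_mapRep]
    exact h x x.2
  let Φ : Mat d →* Mat d :=
    { toFun := fun Y => S⁻¹.val * Y.map s * S.val
      map_one' := by rw [Matrix.map_one _ (map_zero s) (map_one s), mul_one, Units.inv_mul]
      map_mul' := fun Y Z => by
        rw [Matrix.map_mul]
        simp only [mul_assoc, Units.mul_inv_cancel_left] }
  have h1 : ∀ x ∈ N, Φ (a x) = a x := fun x hx => by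
    show S⁻¹.val * (a x).map s * S.val = a x
    rw [mul_assoc]
    exact (congrArg _ (hS ⟨x, hx⟩)).trans (Units.inv_mul_cancel_left _ _)
  refine ⟨Φ, h1, fun Y => ?_, fun Y => ?_, fun g A hA x hx => ?_⟩
  · show (S⁻¹.val * Y.map s * S.val).trace = _
    rw [trace_mul_comm, ← mul_assoc, Units.mul_inv, one_mul, trace_map_aut]
  · show (S⁻¹.val * Y.map s * S.val).det = _
    rw [det_mul, mul_comm, ← det_mul, ← mul_assoc, Units.mul_inv, one_mul]
    exact (RingHom.map_det (s : ℂ →+* ℂ) Y).symm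
  · rw [← h1 _ (hN.conj_mem x hx g), ← map_mul, hA x hx, map_mul, h1 x hx]

end Pool.Agent.P.MP_fb2360_al.T
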