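import Pool.Agent.P.MP_fb2360_al.T.Side

namespace Pool.Agent.P.MP_fb2360_al.T

open Pool.Agent.P.MP_fb2360_al Matrix Submodule

variable {n : ℕ} {G : Type} [Group G]

/-- factorisation of the restriction to `N` -/
def Fac (ρ : G →* Mat n) (N : Subgroup G) (M M' : ℕ) : Prop :=
  ∃ (d d' : ℕ) (φ : Mat d →ₐ[ℂ] Mat n) (ψ : Mat d' →ₐ[ℂ] Mat n) (a : G → Mat d) (b : G → Mat d'),
    Side ρ N M M' φ a ∧ Side ρ N M' M ψ b ∧ (∀ X Y, φ X * ψ Y = ψ Y * φ X) ∧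
      ∀ x ∈ N, ρ x = φ (a x) * ψ (b x)

lemma Fac.symm {ρ : G →* Mat n} {N : Subgroup G} {M M' : ℕ} (h : Fac ρ N M M') :
    Fac ρ N M' M := by
  obtain ⟨d, d', φ, ψ, a, b, h1, h2, h3, h4⟩ := h
  exact ⟨d', d, ψ, φ, b, a, h2, h1, fun X Y => (h3 Y X).symm, fun x hx => (h4 x hx).trans (h3 _ _)⟩

/-- scalars -/
noncomputable def phi1 (n : ℕ) : Mat 1 →ₐ[ℂ] Mat n :=
  AlgHom.ofLinearMap ((LinearMap.toSpanSingleton ℂ _ 1).comp (Matrix.entryLinearMap ℂ ℂ 0 0))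
    (by simp) (by intro X Y; simp [Matrix.mul_apply, smul_smul, mul_comm])

lemma phi1_apply (X : Mat 1) : phi1 n X = X 0 0 • 1 := rfl

lemma side_bot (ρ : G →* Mat n) (M M' : ℕ) : Side ρ ⊥ M M' (phi1 n) fun _ => 1 where
  pos := one_pos
  hom := ⟨rfl, fun _ _ _ _ => (mul_one _).symm⟩
  mem := fun X => smul_mem _ _ (subset_span ⟨1, one_mem _, map_one ρ⟩)
  inv := fun g x _ => by simp
  deg := one_dvd _
  spn := fun Q _ _ => eq_top_iff.mpr fun X _ => by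
    have : X = X 0 0 • (1 : Mat 1) := by
      ext i j
      simp [Subsingleton.elim i 0, Subsingleton.elim j 0]
    rw [this]
    exact smul_mem _ _ (subset_span ⟨1, one_mem _, rfl⟩)
  det := fun _ _ => by simp
  gal := fun s _ _ _ => by simp
  stab := fun s _ _ _ => by simp

lemma fac_bot (ρ : G →* Mat n) (M M' : ℕ) : Fac ρ ⊥ M M' :=
  ⟨1, 1, phi1 n, phi1 n, _, _, side_bot ρ M M', side_bot ρ M' M,
    fun X Y => by simp [phi1_apply, smul_smul, mul_comm], fun x hx => by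
      rw [Subgroup.mem_bot.mp hx]
      simp⟩

lemma phi_inj {d : ℕ} (hn : 0 < n) (φ : Mat d →ₐ[ℂ] Mat n) : Function.Injective φ := by
  rw [injective_iff_map_eq_zero]
  intro Y hY
  refine nondeg_all fun Z => ?_
  have := trace_phi' φ (Y * Z)
  rw [map_mul, hY, zero_mul, trace_zero, mul_zero] at this
  exact (mul_eq_zero.mp this.symm).resolve_right (by exact_mod_cast hn.ne')

lemma mem_span_img {d : ℕ} (φ : Mat d →ₐ[ℂ] Mat n) {S : Set (Mat d)} (hS : span ℂ S = ⊤)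
    (X : Mat d) : φ X ∈ span ℂ (φ '' S) := by
  have := Submodule.mem_map_of_mem (f := φ.toLinearMap) (hS ▸ mem_top : X ∈ span ℂ S)
  rwa [Submodule.map_span] at this

lemma nondeg_img [Finite G] (ρ : G →* Mat n) (N : Subgroup G) :
    ∀ X ∈ span ℂ (ρ '' N), (∀ Y ∈ ρ '' N, (X * Y).trace = 0) → X = 0 := by
  rw [← (homOn_rho ρ N).range_toHom]
  exact fun X hX h => nondeg_rep _ hX h

lemma cof_stab [Finite G] {d d' : ℕ} {ρ : G →* Mat n} {N : Subgroup G} {M M' : ℕ}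
    {φ : Mat d →ₐ[ℂ] Mat n} {ψ : Mat d' →ₐ[ℂ] Mat n} {a : G → Mat d} {b : G → Mat d'}
    (h1 : Side ρ N M M' φ a) (h2 : Side ρ N M' M ψ b) (h3 : ∀ X Y, φ X * ψ Y = ψ Y * φ X)
    (h4 : ∀ x ∈ N, ρ x = φ (a x) * ψ (b x)) {s : RingAut ℂ} {A : Mat d} {g : G}
    (hA : ∀ x ∈ N, s (A * a x).trace = (A * a x).trace)
    (hs : ∀ x ∈ N, s (ch ρ x) = ch ρ x) (hg : ∀ x ∈ N, s (ch ρ (x * g)) = ch ρ (x * g)) :
    s (φ A * ρ g).trace = (φ A * ρ g).trace := by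
  refine semi (nondeg_img ρ N) s ?_ (h1.mem _) ?_ ?_
  · rintro _ ⟨x, hx, rfl⟩ _ ⟨y, hy, rfl⟩
    rw [← map_mul]
    exact hs _ (mul_mem hx hy)
  · rintro _ ⟨x, hx, rfl⟩
    rw [h4 x hx, ← mul_assoc, ← map_mul]
    refine fix_of_mul (v := 1) h1.pos ((trace_phi φ (fun X => h3 X _) _).trans (by
      rw [Nat.cast_one, mul_one])) ?_
    rw [map_mul, hA x hx, fix_of_mul h2.pos (trace_phi' ψ (b x)) (h2.stab s hs x hx)]
  · rintro _ ⟨x, hx, rfl⟩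
    rw [← map_mul]
    exact hg x hx

theorem Fac.step [Finite G] {ρ : G →* Mat n} {N K L : Subgroup G} [hN : N.Normal] [hK : K.Normal]
    {M M' : ℕ} (h : Fac ρ N M M') (hn : 0 < n) (hM : 0 < M) (hM' : 0 < M') (hc : M.Coprime M')
    (hG : ∀ g : G, g ^ (M * M') = 1) (hNK : N ≤ K) (hr : N.relIndex K ∣ M') (hh : Homog ρ K)
    (hL : L ≤ K) (hL1 : Nat.card L ∣ M') (hL2 : L.relIndex K ∣ M) : Fac ρ K M M' := by
  classical
  obtain ⟨d, d', φ, ψ, a, b, h1, h2, h3, h4⟩ := h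
  obtain ⟨a', e⟩ := h1.ex hn hM hc hNK hr
  have hb := e.cof_hom h1
  have hmono : span ℂ (ρ '' N) ≤ span ℂ (ρ '' K) := span_mono (Set.image_mono hNK)
  have hmem : span ℂ (cof ρ φ a' '' K) ≤ span ℂ (ρ '' K) := by
    rw [span_le]
    rintro _ ⟨g, hg, rfl⟩
    exact span_mul_mem (img_mul ρ K) (hmono (h1.mem _)) (subset_span ⟨g, hg, rfl⟩)
  have hcomm : ∀ Y ∈ span ℂ (cof ρ φ a' '' K), ∀ X, φ X * Y = Y * φ X := fun Y hY X =>
    comm_span (by rintro _ ⟨g, hg, rfl⟩; exact e.comm h1 hg X) hY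
  obtain ⟨d₂, τ, ψ', h5, h6, h7⟩ := homog hn hb.toHom (by
    rw [hb.range_toHom]
    refine fun f hf hf1 hf2 => hh f (hmem hf) hf1 fun g hg => ?_
    rw [e.fac (ρ := ρ) (φ := φ) hg, ← mul_assoc, ← hcomm f hf, mul_assoc, mul_assoc]
    exact congrArg _ (hf2 ⟨g, hg⟩))
  rw [hb.range_toHom] at h7
  let b' : G → Mat d₂ := fun g => if hg : g ∈ K then τ ⟨g, hg⟩ else 1
  have hb1 : ∀ g (hg : g ∈ K), b' g = τ ⟨g, hg⟩ := fun g hg => dif_pos hg
  have hb2 : ∀ g ∈ K, ψ' (b' g) = cof ρ φ a' g := fun g hg => by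
    rw [hb1 g hg]
    exact (h6 ⟨g, hg⟩).symm
  have hb3 : HomOn K b' := ⟨by rw [hb1 1 (one_mem _)]; exact map_one τ, fun x hx y hy => by
    rw [hb1 _ hx, hb1 _ hy, hb1 _ (mul_mem hx hy), ← map_mul]
    rfl⟩
  have hspn : ∀ Q ≤ K, Q.relIndex K ∣ M → span ℂ (b' '' Q) = ⊤ := by
    intro Q hQ hQ'
    have h8 := h2.spn (Q ⊓ N) inf_le_right ((relIndex_dvd_of_normal hNK hQ).trans hQ')
    have h9 : span ℂ (cof ρ φ a' '' K) ≤ span ℂ (cof ρ φ a' '' Q) := by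
      rw [span_le]
      rintro _ ⟨g, hg, rfl⟩
      obtain ⟨x, hx, y, hy, rfl⟩ := exists_mul_of_coprime (L := Q)
        ((hc.symm.coprime_dvd_left hr).coprime_dvd_right hQ') hg
      rw [hb.mul _ (hNK hx) _ (hQ hy), e.cof_eq h4 hx]
      refine span_mul_mem (hb.mono hQ).img_mul (span_mono ?_ (mem_span_img ψ h8 _))
        (subset_span ⟨y, hy, rfl⟩)
      rintro _ ⟨_, ⟨z, hz, rfl⟩, rfl⟩
      exact ⟨z, hz.1, e.cof_eq h4 hz.2⟩
    refine eq_top_iff.mpr fun Y _ => ?_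
    have h10 : span ℂ (cof ρ φ a' '' Q) ≤ (span ℂ (b' '' Q)).map ψ'.toLinearMap := by
      rw [span_le]
      rintro _ ⟨g, hg, rfl⟩
      exact ⟨b' g, subset_span ⟨g, hg, rfl⟩, hb2 g (hQ hg)⟩
    obtain ⟨Z, hZ, hZ'⟩ := h10 (h9 (h7 Y))
    exact phi_inj hn ψ' hZ' ▸ hZ
  have hn' : (n : ℂ) ≠ 0 := by exact_mod_cast hn.ne'
  refine ⟨d, d₂, φ, ψ', a', b', ⟨h1.pos, e.hom, fun X => hmono (h1.mem X),
    fun g x hx => e.inv h1 hn hc hr g hx, h1.deg, fun Q hQ hQ' => ?_, fun x _ => e.det x,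
    fun s hs g hg => e.gal h1 hc hr (h1.gal s hs) hg,
    fun s hs g hg => e.gal h1 hc hr (h1.stab s fun x hx => hs x (hNK hx)) hg⟩,
    ⟨h5.1, hb3, fun X => hmem (h7 X), fun g x hx => ?_, ?_, hspn, fun g hg => ?_,
    fun s hs g hg => ?_, fun s hs g hg => ?_⟩, fun X Y => hcomm _ (h7 Y) X, fun g hg => ?_⟩
  · refine eq_top_iff.mpr ((h1.spn (Q ⊓ N) inf_le_right
      ((relIndex_dvd_of_normal hNK hQ).trans hQ')).ge.trans (span_mono ?_))
    rintro _ ⟨z, hz, rfl⟩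
    exact ⟨z, hz.1, e.eq z hz.2⟩
  · rw [hb2 x hx, hb2 _ (hK.conj_mem x hx g), cof, cof, ← mul_assoc,
      e.inv h1 hn hc hr g (inv_mem hx), mul_assoc (φ _), mul_assoc (φ _), ← map_mul, ← map_mul,
      inv_mul_cancel_right, show (g * x * g⁻¹)⁻¹ = g * x⁻¹ * g⁻¹ by group]
  · exact (deg_dvd ((hb3.mono hL).irr h5.1 (hspn L hL hL2))).trans hL1
  · have h8 : ∀ x ∈ N, (b' x).det ^ (d' * M') = 1 := fun x hx => by
      have := det_cmp (Nat.mul_pos hM hM') (A := b' x) (B := b x)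
        (by rw [← hb3.pow (hNK hx), hG, hb3.one]) (by rw [← h2.hom.pow hx, hG, h2.hom.one])
        (u := d') (v := d₂) fun j => by
          have h9 := trace_phi' ψ' (b' x ^ j)
          have h10 := trace_phi' ψ (b x ^ j)
          rw [map_pow, hb2 x (hNK hx), e.cof_eq h4 hx, ← map_pow] at h9
          apply mul_right_cancel₀ hn'
          linear_combination (d₂ : ℂ) * h10 - d' * h9
      rw [pow_mul, this, ← pow_mul, mul_comm, pow_mul, h2.det x hx, one_pow]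
    have h9 := h8 _ (pow_mem_of_relIndex hr hg)
    rw [hb3.pow hg, det_pow] at h9
    refine (pow_eq_one_iff_of_coprime ((hc.coprime_dvd_right h2.deg).mul_right hc)).mp ⟨?_, h9⟩
    rw [← pow_mul, mul_comm, ← det_pow, ← hb3.pow hg, hG, hb3.one, det_one]
  · have h8 := trace_phi' ψ' (b' g)
    rw [hb2 g hg] at h8
    exact fix_of_mul (v := d₂) hn (by rw [mul_comm, ← h8, mul_comm])
      (e.cof_gal h1 h2 h4 hn hM' hc hr hL hL1 hL2 hs hg)
  · have h8 := trace_phi' ψ' (b' g)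
    rw [hb2 g hg] at h8
    refine fix_of_mul (v := d₂) (z := (cof ρ φ a' g).trace) hn (by rw [mul_comm, ← h8, mul_comm])
      (cof_stab h1 h2 h3 h4 (fun x hx => ?_) (fun x hx => hs x (hNK hx))
        fun x hx => hs _ (mul_mem (hNK hx) hg))
    rw [← e.eq x hx, ← e.hom.mul _ (inv_mem hg) _ (hNK hx)]
    exact e.gal h1 hc hr (h1.stab s fun x hx => hs x (hNK hx)) (mul_mem (inv_mem hg) (hNK hx))
  · rw [hb2 g hg]
    exact e.fac hg

end Pool.Agent.P.MP_fb2360_al.T
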