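import Pool.Agent.P.MP_fb2360_al.T.Defs

namespace Pool.Agent.P.MP_fb2360_al.T

open Subgroup

variable {G G' : Type} [Group G] [Group G'] {p : ℕ}

lemma PSolv.normal {N : Subgroup G} (h : PSolv p N) : N.Normal := by
  induction h with
  | bot => infer_instance
  | step _ _ _ h _ _ _ => exact h

lemma relIndex_dvd_right (N : Subgroup G) [N.Normal] {K K' : Subgroup G} (h : K ≤ K') :
    N.relIndex K ∣ N.relIndex K' := by
  rw [← QuotientGroup.ker_mk' N, relIndex_ker, relIndex_ker]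
  exact card_dvd_of_le (map_mono h)

lemma PSolv.comap [Finite G'] (hp : p.Prime) (f : G' →* G) {r : ℕ} (hr : r.Prime)
    (hf : IsPGroup r f.ker) {N : Subgroup G} (h : PSolv p N) : PSolv p (N.comap f) := by
  induction h with
  | bot =>
    have := Fact.mk hr
    obtain ⟨e, he⟩ := IsPGroup.iff_card.mp hf
    refine PSolv.step ⊥ _ PSolv.bot inferInstance bot_le ?_
    rw [relIndex_bot_left, MonoidHom.comap_bot, he]
    by_cases h : r = p
    · exact Or.inl ⟨e, by rw [h]⟩
    · exact Or.inr fun h' => h ((Nat.prime_dvd_prime_iff_eq hp hr).mp (hp.dvd_of_dvd_pow h')).symm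
  | step N N' hN h1 h2 h3 ih =>
    have := hN.normal
    have h4 : (N.comap f).relIndex (N'.comap f) ∣ N.relIndex N' := by
      rw [relIndex_comap]
      exact relIndex_dvd_right N (map_comap_le f N')
    refine PSolv.step _ _ ih inferInstance (comap_mono h2) (h3.imp ?_ fun h h' => h (h'.trans h4))
    rintro ⟨e, he⟩
    obtain ⟨k, -, hk⟩ := (Nat.dvd_prime_pow hp).mp (he ▸ h4)
    exact ⟨k, hk⟩

/-- cyclic or trivial intersection Sylow subgroups -/
def CT (X : Type) [Group X] (p : ℕ) : Prop :=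
  (∀ P : Sylow p X, IsCyclic P) ∨ ∀ P Q : Sylow p X, P ≠ Q → (P : Subgroup X) ⊓ Q = ⊥

lemma CT.of_injective (h : CT G p) (f : G' →* G) (hf : Function.Injective f) : CT G' p := by
  refine h.imp (fun h P => ?_) fun h P Q hPQ => ?_
  · obtain ⟨Q, hQ⟩ := P.exists_comap_eq_of_injective hf
    have := h Q
    have h1 : (P : Subgroup G').map f ≤ Q := hQ ▸ map_comap_le f _
    have := Subgroup.isCyclic_of_le h1
    exact isCyclic_of_surjective _ (Subgroup.equivMapOfInjective P f hf).symm.surjective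
  · obtain ⟨P', hP⟩ := P.exists_comap_eq_of_injective hf
    obtain ⟨Q', hQ⟩ := Q.exists_comap_eq_of_injective hf
    rw [← hP, ← hQ, ← comap_inf, h P' Q' fun h0 => hPQ (Sylow.ext (by rw [← hP, ← hQ, h0])),
      MonoidHom.comap_bot, (MonoidHom.ker_eq_bot_iff f).mpr hf]

lemma Tame.comap [Finite G'] (hp : p.Prime) (f : G' →* G) {r : ℕ} (hr : r.Prime)
    (hf : IsPGroup r f.ker) (h : Tame G p) : Tame G' p := by
  obtain ⟨R, _, h1, h2⟩ := h
  refine ⟨R.comap f, inferInstance, h1.comap hp f hr hf,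
    CT.of_injective h2 (QuotientGroup.map _ R f le_rfl) ?_⟩
  rw [← MonoidHom.ker_eq_bot_iff, QuotientGroup.ker_map, Subgroup.map_eq_bot_iff, QuotientGroup.ker_mk']

lemma sz_step [Finite G] {N N' K : Subgroup G} [N.Normal] [N'.Normal] (h1 : N ≤ N') (h2 : N' ≤ K)
    (hc : (N.relIndex N').Coprime (N'.relIndex K)) :
    ∃ K₁ : Subgroup G, N ≤ K₁ ∧ K₁ ≤ K ∧ N.relIndex K₁ = N'.relIndex K ∧
      K₁.relIndex K = N.relIndex N' := by
  let π := QuotientGroup.mk' N
  have hπ : π.ker = N := QuotientGroup.ker_mk' N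
  have : (N'.map π).Normal := Normal.map inferInstance _ (QuotientGroup.mk'_surjective N)
  let A := (N'.map π).subgroupOf (K.map π)
  have hA : Nat.card A = N.relIndex N' := by
    rw [Nat.card_congr (subgroupOfEquivOfLe (map_mono h2)).toEquiv, ← relIndex_ker, hπ]
  have hA' : A.index = N'.relIndex K := by
    show (N'.map π).relIndex (K.map π) = _
    rw [relIndex_map_map, hπ, sup_of_le_left h1, sup_of_le_left (h1.trans h2)]
  obtain ⟨H, hH⟩ := exists_right_complement'_of_coprime (N := A) (by rwa [hA, hA'])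
  have hK : (K.map π).comap π = K := by rw [comap_map_eq, hπ, sup_of_le_left (h1.trans h2)]
  refine ⟨(H.map (K.map π).subtype).comap π, QuotientGroup.le_comap_mk' N _, ?_, ?_, ?_⟩
  · exact (comap_mono (map_subtype_le H)).trans hK.le
  · have := relIndex_ker ((H.map (K.map π).subtype).comap π) π
    rw [hπ] at this
    rw [this, map_comap_eq_self_of_surjective (QuotientGroup.mk'_surjective N),
      card_map_of_injective (subtype_injective _), ← hA', hH.symm.index_eq_card]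
  · rw [relIndex_comap, ← hA, ← hH.index_eq_card, relIndex, subgroupOf,
      comap_map_eq_self_of_injective (subtype_injective _)]

lemma hall [Finite G] (hp : p.Prime) {N : Subgroup G} (h : PSolv p N) :
    ∀ K, N ≤ K → ¬ p ∣ N.relIndex K →
      ∃ L ≤ K, ¬ p ∣ Nat.card L ∧ ∃ e, L.relIndex K = p ^ e := by
  induction h with
  | bot => exact fun K _ h => ⟨K, le_rfl, by rwa [relIndex_bot_left] at h, 0, by simp⟩
  | step N N' hN h1 h2 h3 ih =>
    intro K h4 h5
    have := hN.normal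
    rcases h3 with ⟨e, he⟩ | h3
    · obtain ⟨K₁, h6, h7, h8, h9⟩ := sz_step h2 h4 (by
        rw [he]
        exact ((Nat.Prime.coprime_iff_not_dvd hp).mpr h5).pow_left e)
      obtain ⟨L, h10, h11, k, hk⟩ := ih K₁ h6 (h8 ▸ h5)
      exact ⟨L, h10.trans h7, h11, k + e, by
        rw [← relIndex_mul_relIndex L K₁ K h10 h7, hk, h9, he, pow_add]⟩
    · refine ih K (h2.trans h4) fun h => ?_
      rw [← relIndex_mul_relIndex N N' K h2 h4] at h
      exact (hp.dvd_mul.mp h).elim h3 h5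

/-- strongly embedded subgroup -/
def SE (p : ℕ) (M : Subgroup G) : Prop :=
  ∀ g : G, p ∣ orderOf g → ∃ x₀, ∀ x, x⁻¹ * g * x ∈ M ↔ x₀⁻¹ * x ∈ M

lemma SE.of [Finite G] {M : Subgroup G}
    (h : ∀ u : G, orderOf u = p → ∃ x₀, ∀ x, x⁻¹ * u * x ∈ M ↔ x₀⁻¹ * x ∈ M) : SE p M := by
  intro g hg
  obtain ⟨x₀, hx⟩ := h (g ^ (orderOf g / p)) (orderOf_pow_orderOf_div (orderOf_pos g).ne' hg)
  have h1 : ∀ x, x⁻¹ * g ^ (orderOf g / p) * x = (x⁻¹ * g * x) ^ (orderOf g / p) := fun x => by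
    simpa using (conj_pow (a := x⁻¹) (b := g) (i := orderOf g / p)).symm
  have h2 : x₀⁻¹ * (g * x₀) ∈ M := by
    rw [← hx]
    have := (hx x₀).mpr (by simp)
    convert this using 1
    group
  refine ⟨x₀, fun x => ⟨fun h => (hx x).mp (h1 x ▸ pow_mem h _), fun h => ?_⟩⟩
  have := mul_mem (mul_mem (inv_mem h) h2) h
  convert this using 1
  group

lemma se_ti [Finite G] [Fact p.Prime] (h : ∀ P Q : Sylow p G, P ≠ Q → (P : Subgroup G) ⊓ Q = ⊥)
    (P : Sylow p G) : SE p (normalizer (P : Set G)) := by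
  refine SE.of fun u hu => ?_
  have hu' : IsPGroup p (zpowers u) := IsPGroup.iff_card.mpr ⟨1, by rw [Nat.card_zpowers, hu, pow_one]⟩
  obtain ⟨Q, hQ⟩ := hu'.exists_le_sylow
  obtain ⟨x₀, rfl⟩ := MulAction.exists_smul_eq G P Q
  have h1 : ∀ x, x⁻¹ * u * x ∈ normalizer (P : Set G) ↔ zpowers u ≤ (x • P : Sylow p G) := by
    intro x
    rw [← hu'.sylow_mem_fixedPoints_iff, sylow_mem_fixedPoints_iff, zpowers_le,
      ← Sylow.smul_eq_iff_mem_normalizer, ← Sylow.smul_eq_iff_mem_normalizer, mul_smul, mul_smul,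
      inv_smul_eq_iff]
  refine ⟨x₀, fun x => ?_⟩
  rw [h1, ← Sylow.smul_eq_iff_mem_normalizer, mul_smul, inv_smul_eq_iff]
  refine ⟨fun h2 => ?_, fun h2 => h2 ▸ hQ⟩
  by_contra h3
  have h4 := le_inf h2 hQ
  rw [h _ _ h3, zpowers_le, mem_bot] at h4
  rw [h4, orderOf_one] at hu
  exact (Fact.out : p.Prime).one_lt.ne hu

lemma mem_of_cyclic [Finite G] [Fact p.Prime] (h : ∀ P : Sylow p G, IsCyclic P) {H : Subgroup G}
    (hH : IsPGroup p H) {a b : G} (ha : a ∈ H) (hb : b ∈ H) (ha' : orderOf a = p)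
    (hb' : orderOf b = p) : a ∈ zpowers b := by
  classical
  obtain ⟨Q, hQ⟩ := hH.exists_le_sylow
  have := h Q
  have := Fintype.ofFinite Q
  have h1 := IsCyclic.card_pow_eq_one_le (α := Q) (Fact.out : p.Prime).pos
  set y : Q := ⟨b, hQ hb⟩
  have hy : orderOf y = p := (Subgroup.orderOf_coe y).symm.trans hb'
  have h2 : (Finset.univ.filter fun c : Q => c ∈ zpowers y) =
      Finset.univ.filter fun c : Q => c ^ p = 1 := by
    refine Finset.eq_of_subset_of_card_le (fun c hc => ?_) (h1.trans (le_of_eq ?_))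
    · refine Finset.mem_filter.mpr ⟨Finset.mem_univ _, ?_⟩
      exact orderOf_dvd_iff_pow_eq_one.mp ((orderOf_dvd_of_mem_zpowers
        (Finset.mem_filter.mp hc).2).trans hy.dvd)
    · rw [← Fintype.card_subtype, ← Nat.card_eq_fintype_card, Nat.card_zpowers, hy]
  have h3 : (⟨a, hQ ha⟩ : Q) ∈ Finset.univ.filter fun c : Q => c ∈ zpowers y := by
    rw [h2]
    exact Finset.mem_filter.mpr ⟨Finset.mem_univ _, Subtype.ext (orderOf_dvd_iff_pow_eq_one.mp ha'.dvd)⟩
  obtain ⟨i, hi⟩ := (Finset.mem_filter.mp h3).2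
  exact ⟨i, congrArg Subtype.val hi⟩

lemma se_cyc [Finite G] [Fact p.Prime] (h : ∀ P : Sylow p G, IsCyclic P) {z : G}
    (hz : orderOf z = p) : SE p (normalizer (zpowers z : Set G)) := by
  have hp : ∀ u : G, orderOf u = p → IsPGroup p (zpowers u) := fun u hu =>
    IsPGroup.iff_card.mpr ⟨1, by rw [Nat.card_zpowers, hu, pow_one]⟩
  have hc : ∀ u x : G, orderOf (x⁻¹ * u * x) = orderOf u := fun u x => by
    simpa using MulAut.conj x⁻¹ |>.orderOf_eq u
  refine SE.of fun u hu => ?_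
  obtain ⟨P, hP⟩ := (hp z hz).exists_le_sylow
  obtain ⟨Q, hQ⟩ := (hp u hu).exists_le_sylow
  obtain ⟨x₀, rfl⟩ := MulAction.exists_smul_eq G P Q
  have h0 : x₀⁻¹ * u * x₀ ∈ zpowers z := by
    refine mem_of_cyclic h P.2 ?_ (hP (mem_zpowers z)) ((hc u x₀).trans hu) hz
    have := hQ (mem_zpowers u)
    rw [Sylow.coe_subgroup_smul, mem_pointwise_smul_iff_inv_smul_mem] at this
    simpa using this
  refine ⟨x₀, fun x => ⟨fun h1 => ?_, fun h1 => ?_⟩⟩
  · have h2 : x⁻¹ * u * x ∈ zpowers z :=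
      mem_of_cyclic h ((hp _ ((hc u x).trans hu)).to_sup_of_normal_right' (hp z hz)
        (zpowers_le.mpr h1)) (mem_sup_left (mem_zpowers _)) (mem_sup_right (mem_zpowers _))
        ((hc u x).trans hu) hz
    have h3 : z ∈ zpowers (x⁻¹ * u * x) :=
      mem_of_cyclic h (hp z hz) (mem_zpowers z) h2 hz ((hc u x).trans hu)
    refine mem_normalizer_fintype fun w hw => ?_
    obtain ⟨i, rfl⟩ := zpowers_le.mpr h3 hw
    have h4 : x₀⁻¹ * x * (x⁻¹ * u * x) ^ i * (x₀⁻¹ * x)⁻¹ = (x₀⁻¹ * u * x₀) ^ i := by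
      rw [← conj_zpow]
      congr 1
      group
    simp only [h4]
    exact zpow_mem h0 i
  · refine le_normalizer ?_
    have h4 : x⁻¹ * u * x = (x₀⁻¹ * x)⁻¹ * (x₀⁻¹ * u * x₀) * (x₀⁻¹ * x) := by group
    rw [h4]
    exact (mem_set_normalizer_iff''.mp h1 _).mp h0

theorem tame_cases [Finite G] (hp : p.Prime) (h : Tame G p) :
    ∃ R : Subgroup G, PSolv p R ∧ (R = ⊤ ∨ ∃ M : Subgroup G, M ≠ ⊤ ∧
      ∀ g, (∀ m, ¬ p ∣ m → g ^ m ∉ R) → ∃ x₀, ∀ x, x⁻¹ * g * x ∈ M ↔ x₀⁻¹ * x ∈ M) := by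
  have := Fact.mk hp
  obtain ⟨R, hR, h1, h2⟩ := h
  have key : ∀ (R : Subgroup G) [R.Normal] (M : Subgroup (G ⧸ R)), M ≠ ⊤ → SE p M →
      ∃ M : Subgroup G, M ≠ ⊤ ∧
      ∀ g, (∀ m, ¬ p ∣ m → g ^ m ∉ R) → ∃ x₀, ∀ x, x⁻¹ * g * x ∈ M ↔ x₀⁻¹ * x ∈ M := by
    intro R _ M hM hM'
    refine ⟨M.comap (QuotientGroup.mk' R), fun h => hM ?_, fun g hg => ?_⟩
    · rw [← map_comap_eq_self_of_surjective (QuotientGroup.mk'_surjective R) M, h,
        map_top_of_surjective _ (QuotientGroup.mk'_surjective R)]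
    · obtain ⟨x₀, hx⟩ := hM' g (by
        by_contra h0
        refine hg _ h0 ?_
        rw [← QuotientGroup.eq_one_iff, QuotientGroup.mk_pow, pow_orderOf_eq_one])
      obtain ⟨x₀, rfl⟩ := QuotientGroup.mk_surjective x₀
      exact ⟨x₀, fun x => hx x⟩
  have up : ∀ (R : Subgroup G) [R.Normal] (Z : Subgroup (G ⧸ R)) [Z.Normal], PSolv p R →
      IsPGroup p Z → PSolv p (Z.comap (QuotientGroup.mk' R)) ∧
        R.relIndex (Z.comap (QuotientGroup.mk' R)) = Nat.card Z := by
    intro R _ Z _ h1 h2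
    have h3 : R.relIndex (Z.comap (QuotientGroup.mk' R)) = Nat.card Z := by
      have := relIndex_ker (Z.comap (QuotientGroup.mk' R)) (QuotientGroup.mk' R)
      rwa [QuotientGroup.ker_mk',
        map_comap_eq_self_of_surjective (QuotientGroup.mk'_surjective R)] at this
    refine ⟨PSolv.step R _ h1 inferInstance (QuotientGroup.le_comap_mk' R Z) (Or.inl ?_), h3⟩
    rw [h3]
    exact IsPGroup.iff_card.mp h2
  rcases h2 with h2 | h2
  · induction hn : R.index using Nat.strong_induction_on generalizing R with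
    | _ n ih =>
      by_cases h3 : p ∣ Nat.card (G ⧸ R)
      · obtain ⟨z, hz⟩ := exists_prime_orderOf_dvd_card' p h3
        by_cases h4 : normalizer (zpowers z : Set (G ⧸ R)) = ⊤
        · have := normalizer_eq_top_iff.mp h4
          obtain ⟨h5, h6⟩ := up R (zpowers z) h1
            (IsPGroup.iff_card.mpr ⟨1, by rw [Nat.card_zpowers, hz, pow_one]⟩)
          have h7 := QuotientGroup.le_comap_mk' R (zpowers z)
          refine ih _ ?_ _ inferInstance h5 (fun P => ?_) rfl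
          · rw [← hn, ← relIndex_mul_index h7, h6, Nat.card_zpowers, hz]
            exact lt_mul_of_one_lt_left (Nat.pos_of_ne_zero index_ne_zero_of_finite) hp.one_lt
          · have hs := QuotientGroup.map_surjective_of_surjective R
              ((zpowers z).comap (QuotientGroup.mk' R)) (MonoidHom.id G)
              QuotientGroup.mk_surjective h7
            obtain ⟨Q, rfl⟩ := Sylow.mapSurjective_surjective hs p P
            have := h2 Q
            exact isCyclic_of_surjective _ ((QuotientGroup.map R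
              ((zpowers z).comap (QuotientGroup.mk' R)) (MonoidHom.id G) h7).subgroupMap_surjective Q)
        · exact ⟨R, h1, Or.inr (key R _ h4 (se_cyc h2 hz))⟩
      · exact ⟨⊤, PSolv.step R ⊤ h1 inferInstance le_top (Or.inr (by rwa [relIndex_top_right])),
          Or.inl rfl⟩
  · obtain ⟨P⟩ : Nonempty (Sylow p (G ⧸ R)) := inferInstance
    by_cases h4 : normalizer (P : Set (G ⧸ R)) = ⊤
    · have : (P : Subgroup (G ⧸ R)).Normal := normalizer_eq_top_iff.mp h4
      refine ⟨⊤, PSolv.step _ ⊤ (up R P h1 P.2).1 inferInstance le_top (Or.inr ?_), Or.inl rfl⟩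
      rw [relIndex_top_right, index_comap_of_surjective _ (QuotientGroup.mk'_surjective R)]
      exact P.not_dvd_index
    · exact ⟨R, h1, Or.inr (key R _ h4 (se_ti h2 P))⟩

end Pool.Agent.P.MP_fb2360_al.T
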