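import Pool.Agent.P.MP_fb2360_al.T.Main

namespace Pool.Agent.P.MP_fb2360_al.T

open Pool.Agent.P.MP_fb2360_al Matrix Submodule

lemma exists_top {H : Subgroup (RingAut ℂ)} {p a N : ℕ} (hp : p.Prime) (hN : 0 < N)
    (h : Fix N ≤ H) (ha : Cond H (p ^ a)) : ∃ e, a ≤ e ∧ Cond H (p ^ e) ∧ ¬ Cond H (p ^ (e + 1)) := by
  classical
  have hex : ∃ e, ¬ Cond H (p ^ (a + e + 1)) := ⟨N, fun h' => h' N hN (fun h0 => by
    have h1 := Nat.le_of_dvd hN h0
    have h2 := Nat.lt_pow_self (n := a + N + 1) hp.one_lt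
    omega) h⟩
  refine ⟨a + Nat.find hex, Nat.le_add_right _ _, ?_, Nat.find_spec hex⟩
  rcases Nat.eq_zero_or_pos (Nat.find hex) with h0 | h0
  · rwa [h0]
  · have := Nat.find_min hex (Nat.sub_lt h0 one_pos)
    rwa [not_not, show a + (Nat.find hex - 1) + 1 = a + Nat.find hex by omega] at this

lemma dvd_split {p e M : ℕ} (hp : p.Prime) (hM : 0 < M) (h : ¬ p ^ (e + 1) ∣ M) :
    ∃ M', 0 < M' ∧ ¬ p ∣ M' ∧ M ∣ p ^ e * M' := by
  refine ⟨ordCompl[p] M, Nat.ordCompl_pos p hM.ne', Nat.not_dvd_ordCompl hp hM.ne', ?_⟩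
  conv_lhs => rw [← Nat.ordProj_mul_ordCompl_eq_self M p]
  refine Nat.mul_dvd_mul_right (pow_dvd_pow p ?_) _
  have := mt (hp.pow_dvd_iff_le_factorization hM.ne').mpr h
  omega

lemma cond_left {H' : Subgroup (RingAut ℂ)} {p e k : ℕ} (hp : p.Prime) (he : 0 < e)
    (h : Fix (p ^ k) ≤ H') {j : RingAut ℂ} (hj : j ∈ Fix (p ^ (e - 1))) (hj' : j ∉ H') :
    Cond H' (p ^ e) := by
  intro M hM hM' h1
  obtain ⟨M', h2, h3, h4⟩ := dvd_split (e := e - 1) hp hM (by rwa [Nat.sub_add_cancel he])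
  have hc : ∀ i, (p ^ i).Coprime M' := fun i =>
    ((Nat.Prime.coprime_iff_not_dvd hp).mpr h3).pow_left i
  obtain ⟨s, h5, h6⟩ := crt (pow_pos hp.pos (k + (e - 1))) h2 (hc _) j
  have h7 : s ∈ Fix (p ^ (e - 1)) := by
    have := mul_mem hj (Fix_anti (pow_dvd_pow p (Nat.le_add_left _ k)) h5)
    rwa [mul_inv_cancel_left] at this
  have h8 := h1 (Fix_anti h4 (Fix_mul (pow_pos hp.pos _) h2 (hc _) ⟨h7, h6⟩))
  have h9 := mul_mem h8 (inv_mem (h (Fix_anti (pow_dvd_pow p (Nat.le_add_right k _)) h5)))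
  rw [_root_.mul_inv_rev, inv_inv, mul_inv_cancel_left] at h9
  exact hj' h9

lemma DD_right {H H' : Subgroup (RingAut ℂ)} {p e k m : ℕ} (hp : p.Prime) (hm : 0 < m)
    (hm' : ¬ p ∣ m) (h : ¬ Cond H (p ^ (e + 1))) (h' : ∀ s ∈ Fix (p ^ k), s ∈ H → s ∈ H') :
    DD (Fix (p ^ e) ⊓ H) m ≤ DD H' m := by
  unfold Cond at h
  push Not at h
  obtain ⟨M, hM, hM', h1⟩ := h
  obtain ⟨M', h2, h3, h4⟩ := dvd_split hp hM hM'
  have hc : ∀ i, (p ^ i).Coprime (M' * m) := fun i =>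
    ((Nat.Prime.coprime_iff_not_dvd hp).mpr fun h => (hp.dvd_mul.mp h).elim h3 hm').pow_left i
  refine DD_le_of hm fun t ht => ?_
  obtain ⟨s, h5, h6⟩ := crt (pow_pos hp.pos (k + e)) (Nat.mul_pos h2 hm) (hc _) t
  have h7 : s ∈ Fix (p ^ e) := by
    have := mul_mem ht.1 (Fix_anti (pow_dvd_pow p (Nat.le_add_left _ k)) h5)
    rwa [mul_inv_cancel_left] at this
  have h8 := h1 (Fix_anti (h4.trans (Nat.mul_dvd_mul_left _ (Dvd.intro m rfl)))
    (Fix_mul (pow_pos hp.pos _) (Nat.mul_pos h2 hm) (hc _) ⟨h7, h6⟩))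
  refine ⟨(t⁻¹ * s)⁻¹, h' _ (inv_mem (Fix_anti (pow_dvd_pow p (Nat.le_add_right k _)) h5))
    (inv_mem (mul_mem (inv_mem ht.2) h8)), ?_⟩
  have h9 := mul_mem (Fix_anti (Dvd.intro_left M' rfl) h6) (comm_mem hm t (t⁻¹ * s))
  rw [mul_inv_cancel_left, mul_inv_cancel_left] at h9
  rwa [inv_inv]

theorem ind (W : Finset ℕ) (hW : W.card ≤ 6) (c : ℕ) : ∀ π : Finset ℕ, π.card = c →
    ∀ (m : ℕ) (G : Type) [Group G] [Finite G], Nat.card G = m → ∀ (n : ℕ) (ρ : G →* Mat n),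
      Irr ρ → ∀ a : ℕ → ℕ, (∀ p ∈ π, p.Prime ∧ 0 < a p ∧ Cond (St (ch ρ)) (p ^ a p)) →
      (∀ p ∈ π, p ∉ W → Tame G p) → DD (St (ch ρ)) (∏ p ∈ π, p ^ a p) ≤ n := by
  classical
  induction c using Nat.strong_induction_on with
  | _ c ih1 =>
  intro π hπ m
  induction m using Nat.strong_induction_on with
  | _ m ih2 =>
  intro G _ _ hG n ρ hρ a ha ht
  by_cases hπW : π ⊆ W
  · exact base hρ π a ha ((Finset.card_le_card hπW).trans hW)
  obtain ⟨p, hp, hpW⟩ := Finset.not_subset.mp hπW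
  obtain ⟨hp1, hp2, hp3⟩ := ha p hp
  have hpos : ∀ S ⊆ π, 0 < ∏ q ∈ S, q ^ a q := fun S hS =>
    Finset.prod_pos fun q hq => pow_pos (ha q (hS hq)).1.pos _
  have hred : Red ρ → DD (St (ch ρ)) (∏ p ∈ π, p ^ a p) ≤ n := by
    rintro ⟨M, hM, d, τ, h1, h2, h3, h4⟩
    have h5 := ih2 (Nat.card M) (hG ▸ (Subgroup.card_le_card_group M).lt_of_ne fun h =>
      hM (Subgroup.eq_top_of_card_eq M h)) M rfl d τ h1 a
      (fun q hq => ⟨(ha q hq).1, (ha q hq).2.1, (ha q hq).2.2.mono h2⟩) fun q hq hq' =>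
        (ht q hq hq').comap (ha q hq).1 M.subtype (ha q hq).1
          (IsPGroup.ker_isPGroup_of_injective M.subtype_injective)
    refine (DD_le_mul _ (St (ch τ)) (hpos π le_rfl) h3).trans (le_trans ?_ h4)
    rw [mul_comm]
    exact Nat.mul_le_mul_left _ ((DD_mono (hpos π le_rfl) inf_le_left).trans h5)
  by_cases hh : ∀ N : Subgroup G, N.Normal → Homog ρ N
  swap
  · push Not at hh
    obtain ⟨N, h1, h2⟩ := hh
    exact hred (inertia hρ N h2)
  obtain ⟨R, hR, hR'⟩ := tame_cases hp1 (ht p hp hpW)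
  have := hR.normal
  obtain ⟨k, M, hM, hkM⟩ :=
    Nat.exists_eq_pow_mul_and_not_dvd (Nat.card_pos (α := G)).ne' p hp1.ne_one
  have hM0 : 0 < M := Nat.pos_of_ne_zero fun h => hM (h ▸ dvd_zero p)
  obtain ⟨d, d', φ, ψ, A, B, h1, h2, h3, h4⟩ := fac_chain hρ.1 hp1 hM hkM hh hR
  obtain ⟨e, he1, he2, he3⟩ := exists_top hp1 Nat.card_pos (fix_le_St ρ) hp3
  obtain ⟨j, hj, hj'⟩ := SetLike.not_le_iff_exists.mp (he2 (p ^ (e - 1) * M)
    (Nat.mul_pos (pow_pos hp1.pos _) hM0) fun h0 => by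
      have h5 := (((Nat.Prime.coprime_iff_not_dvd hp1).mpr hM).pow_left _).dvd_of_dvd_mul_right h0
      have h6 := (Nat.pow_dvd_pow_iff_le_right hp1.one_lt).mp h5
      omega)
  by_cases hjA : ∀ x ∈ R, j (A x).trace = (A x).trace
  · have hv : ∀ g m, ¬ p ∣ m → g ^ m ∈ R → j (ch ρ g) = ch ρ g := fun g m hm hg =>
      vanish hρ.1 hp1 hM hkM hR h1 h2 h4 (Fix_anti (Dvd.intro_left _ rfl) hj) hjA hm hg
    rcases hR' with rfl | ⟨K, hK, hK'⟩
    · exact absurd (fun g => hv g 1 hp1.not_dvd_one (Subgroup.mem_top _)) hj'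
    · exact hred (isom hρ hj' K hK fun g hg => hK' g fun m hm hm' => hg (hv g m hm hm'))
  obtain ⟨G', _, _, f, hf, r, τ, hτ, hn, hs⟩ := split hp1 hρ h1 h2 h3 h4 hM hkM
  rw [← pow_add] at hs
  have hsub := Finset.erase_subset p π
  have h5 := ih1 (π.erase p).card (hπ ▸ Finset.card_erase_lt_of_mem hp) _ rfl _ G' rfl r τ hτ a
    (fun q hq => ⟨(ha q (hsub hq)).1, (ha q (hsub hq)).2.1, fun M' hM' h5 h6 =>
      (ha q (hsub hq)).2.2 (p ^ (k + k) * M') (Nat.mul_pos (pow_pos hp1.pos _) hM')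
        (fun h7 => h5 ((Nat.Coprime.pow _ _ ((Nat.coprime_primes (ha q (hsub hq)).1 hp1).mpr
          (Finset.ne_of_mem_erase hq))).dvd_of_dvd_mul_left h7))
        fun s h7 => (hs s (Fix_anti (Dvd.intro _ rfl) h7)).mpr
          (h6 (Fix_anti (Dvd.intro_left _ rfl) h7))⟩)
    fun q hq hq' => (ht q (hsub hq) hq').comap (ha q (hsub hq)).1 f hp1 hf
  have h6 := base (h1.hom.irr h1.pos h1.top) {p} (fun _ => e) (fun q hq => by
    rw [Finset.mem_singleton.mp hq]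
    exact ⟨hp1, by omega, cond_left (k := k) hp1 (by omega)
      (fun s hs x => h1.gal s hs x x.2) (Fix_anti (Dvd.intro _ rfl) hj)
      fun h => hjA fun x hx => h ⟨x, hx⟩⟩) (by simp)
  rw [Finset.prod_singleton] at h6
  have h7 : ¬ p ∣ ∏ q ∈ π.erase p, q ^ a q := fun h => by
    obtain ⟨q, hq, h⟩ := (hp1.prime.dvd_finset_prod_iff _).mp h
    exact Finset.ne_of_mem_erase hq ((Nat.prime_dvd_prime_iff_eq hp1 (ha q (hsub hq)).1).mp
      (hp1.dvd_of_dvd_pow h)).symm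
  rw [← Finset.mul_prod_erase π _ hp]
  refine (DD_dvd _ (Nat.mul_pos (pow_pos hp1.pos e) (hpos _ hsub))
    (Nat.mul_dvd_mul_right (pow_dvd_pow p he1) _)).trans ?_
  rw [DD_mul _ (pow_pos hp1.pos e) (hpos _ hsub)
    (((Nat.Prime.coprime_iff_not_dvd hp1).mpr h7).pow_left e)]
  refine le_trans ?_ (hn.trans (mul_comm d r)).ge
  exact Nat.mul_le_mul ((DD_right hp1 (hpos _ hsub) h7 he3 fun s h h' => (hs s h).mp h').trans h5)
    ((DD_mono (H := St (ch ρ)) (H' := St (ch h1.hom.toHom)) (pow_pos hp1.pos e)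
      fun s h x => h1.stab s (fun y _ => h y) x x.2).trans h6)

theorem core {G : Type} [Group G] [Finite G] {n : ℕ} {ρ : G →* Mat n} (hρ : Irr ρ)
    (F : IntermediateField ℚ ℂ) (hF : F = IntermediateField.adjoin ℚ (Set.range (ch ρ)))
    (W : Finset ℕ) (hW : W.card ≤ 6)
    (h : ∀ p, p.Prime → p ∣ fieldCond F → p ∉ W → Tame G p) :
    F.relfinrank (cyc (fieldCond F)) ≤ n := by
  classical
  have hG0 : 0 < Nat.card G := Nat.card_pos
  have hFG : F ≤ cyc (Nat.card G) := by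
    rw [hF, IntermediateField.adjoin_le_iff]
    rintro _ ⟨g, rfl⟩
    obtain ⟨m, hm⟩ := trace_pow_idem hG0 (rho_pow ρ (fun _ => pow_card_eq_one') g) (one_mul 1)
      (Commute.one_left _)
    have h1 := hm 1
    rw [pow_one, mul_one] at h1
    simp only [ch, h1, SetLike.mem_coe]
    exact sum_mem fun z hz => mul_mem (pow_mem (mem_cyc hG0 ((mem_rts hG0).mp hz)) _)
      (_root_.natCast_mem _ _)
  obtain ⟨hc0, hFc⟩ : 0 < fieldCond F ∧ F ≤ cyc (fieldCond F) :=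
    Nat.sInf_mem (s := {n | 0 < n ∧ F ≤ cyc n}) ⟨_, hG0, hFG⟩
  have hmin : ∀ m, 0 < m → m < fieldCond F → ¬ F ≤ cyc m := fun m h0 h1 h2 =>
    Nat.notMem_of_lt_sInf h1 ⟨h0, h2⟩
  generalize fieldCond F = c at hc0 hFc hmin h ⊢
  have hSt : ∀ s : RingAut ℂ, s ∈ St (ch ρ) ↔ ∀ x ∈ F, s x = x := by
    intro s
    refine ⟨fun h x hx => ?_, fun h g => h _ (hF ▸ IntermediateField.subset_adjoin _ _ ⟨g, rfl⟩)⟩
    rw [hF] at hx
    induction hx using IntermediateField.adjoin_induction with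
    | mem x hx =>
      obtain ⟨g, rfl⟩ := hx
      exact h g
    | algebraMap x => simp
    | add x y _ _ h1 h2 => rw [map_add, h1, h2]
    | inv x _ h1 => rw [map_inv₀, h1]
    | mul x y _ _ h1 h2 => rw [map_mul, h1, h2]
  have hsec : ∀ (N : ℕ) [NeZero N], ∃ s : (ZMod N)ˣ → RingAut ℂ, (∀ κ, cm N (s κ) = κ) ∧
      ∀ κ, ∀ z : ℂ, z ^ N = 1 → (s κ : ℂ →+* ℂ) z = z ^ ex κ := by
    intro N _
    choose s hs using cm_surj N
    exact ⟨s, hs, fun κ z hz => (cm_spec N _ hz).trans (by rw [hs])⟩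
  have h1 := ind W hW _ c.primeFactors rfl _ G rfl n ρ hρ c.factorization (fun p hp => by
    have hp1 := Nat.prime_of_mem_primeFactors hp
    have hp2 := Nat.dvd_of_mem_primeFactors hp
    refine ⟨hp1, hp1.factorization_pos_of_dvd hc0.ne' hp2, fun M hM hM' h0 => ?_⟩
    have : NeZero (c * M) := ⟨(Nat.mul_pos hc0 hM).ne'⟩
    obtain ⟨s, hs1, hs2⟩ := hsec (c * M)
    obtain ⟨κ, hκ, x, hx, hx'⟩ := exists_inert (fun κ => (s κ : ℂ →+* ℂ)) hs2 (Dvd.intro M rfl) F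
      hFc hp1 hp2
      (hmin _ (Nat.div_pos (Nat.le_of_dvd hc0 hp2) hp1.pos) (Nat.div_lt_self hc0 hp1.one_lt))
    refine hx' ((hSt _).mp (h0 ?_) x hx)
    rw [Fix_eq_comap (Dvd.intro_left c rfl : M ∣ c * M), Subgroup.mem_comap, hs1]
    exact fun hq => hκ M hq hM')
    fun p hp => h p (Nat.prime_of_mem_primeFactors hp) (Nat.dvd_of_mem_primeFactors hp)
  have h2 : ∏ p ∈ c.primeFactors, p ^ c.factorization p = c :=
    Nat.prod_factorization_pow_eq_self hc0.ne'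
  rw [h2] at h1
  have : NeZero c := ⟨hc0.ne'⟩
  obtain ⟨s, hs1, hs2⟩ := hsec c
  refine (relfinrank_le (fun κ => (s κ : ℂ →+* ℂ)) hs2 dvd_rfl F hFc ((St (ch ρ)).map (cm c))
    fun κ hκ => ⟨s κ, (hSt _).mpr hκ, hs1 κ⟩).trans (le_trans (le_of_eq ?_) h1)
  rw [DD, Fix_eq_comap (dvd_refl c), Subgroup.relIndex_comap]

lemma irr_of_norm {X : Type} [Group X] [Fintype X] {n : ℕ} (f : X →* Mat n)
    (h : ip (ch f) (ch f) = Fintype.card X) : Irr f := by
  obtain ⟨r, d, τ, h1, h2, h3⟩ := wed X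
  obtain ⟨φ, h4, -, h5, h6⟩ := h3 n f
  choose m hm hm0 using fun i => trace_block (h1 i).1 (φ i) (h4 i)
  have h7 : ∀ x, ch f x = ∑ i, m i * ch (τ i) x := fun x => by
    simp only [ch, h5 x, trace_sum, hm]
  have h8 := ip_comb (fun i => ch (τ i)) (fun i j => by
    split_ifs with h
    · subst h
      exact orth_one (h1 i)
    · exact h2 i j h) (fun i => m i) (fun i => m i) id (α := ch f) (β := ch f)
    (by simpa using h7) (by simpa using h7)
  have hc : (Fintype.card X : ℂ) ≠ 0 := by exact_mod_cast Fintype.card_ne_zero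
  rw [h, left_eq_mul₀ hc] at h8
  have h9 : ∑ k, m k * m k = 1 := by exact_mod_cast h8
  obtain ⟨i, -, hi⟩ := Finset.exists_ne_zero_of_sum_ne_zero (h9 ▸ one_ne_zero : ∑ k, m k * m k ≠ 0)
  have h10 := Finset.add_sum_erase Finset.univ (fun k => m k * m k) (Finset.mem_univ i)
  rw [h9] at h10
  have h11 : m i = 1 := Nat.eq_one_of_mul_eq_one_right (show m i * m i = 1 by omega)
  have h12 : ∑ k ∈ Finset.univ.erase i, m k * m k = 0 := by omega
  have h13 := h7 1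
  rw [Finset.sum_eq_single i (fun j _ hj => by
    rw [mul_self_eq_zero.mp (Finset.sum_eq_zero_iff.mp h12 j (by simp [hj])), Nat.cast_zero,
      zero_mul]) (by simp), h11, ch_one, ch_one, Nat.cast_one, one_mul] at h13
  have h14 : n = d i := by exact_mod_cast h13
  subst h14
  refine ⟨(h1 i).1, eq_top_iff.mpr fun Y _ => ?_⟩
  have h15 : Function.Injective (φ i) := by
    rw [injective_iff_map_eq_zero]
    refine fun Z hZ => nondeg_all fun Z' => ?_
    have := hm i (Z * Z')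
    rw [h4, hZ, zero_mul, trace_zero, h11, Nat.cast_one, one_mul] at this
    exact this.symm
  obtain ⟨Z, rfl⟩ := LinearMap.injective_iff_surjective.mp h15 Y
  exact h6 i Z

theorem final (G : Type) [Group G] [Finite G] (V : Type) [AddCommGroup V] [Module ℂ V]
    [FiniteDimensional ℂ V] (ρ : Representation ℂ G V) [ρ.IsIrreducible]
    (F : IntermediateField ℚ ℂ) (hF : F = IntermediateField.adjoin ℚ (Set.range ρ.character))
    (W : Finset ℕ) (hW : W.card ≤ 6)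
    (h : ∀ p, p.Prime → p ∣ fieldCond F → p ∉ W → Tame G p) :
    F.relfinrank (cyc (fieldCond F)) ≤ Module.finrank ℂ V := by
  have := Fintype.ofFinite G
  let b := Module.finBasis ℂ V
  let M : G →* Mat (Module.finrank ℂ V) :=
    (LinearMap.toMatrixAlgEquiv b).toRingEquiv.toMonoidHom.comp ρ
  have hM : ch M = ρ.character := funext fun g =>
    (LinearMap.trace_eq_matrix_trace ℂ b (ρ g)).symm
  have hc : (Nat.card G : ℂ) ≠ 0 := by exact_mod_cast Nat.card_pos.ne'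
  let _ := invertibleOfNonzero hc
  have h1 := Representation.char_orthonormal ρ ρ
  rw [if_pos ⟨Representation.Equiv.refl ρ⟩, inv_mul_eq_one₀ hc, Nat.card_eq_fintype_card] at h1
  exact core (irr_of_norm M (by simp only [ip, hM, h1, mul_comm])) F (by rw [hM, hF]) W hW h

end Pool.Agent.P.MP_fb2360_al.T
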