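import Pool.Agent.P.MP_fb2360_al.T.Red

namespace Pool.Agent.P.MP_fb2360_al.T

open Pool.Agent.P.MP_fb2360_al Matrix Submodule

variable {n : ℕ} {G : Type} [Group G]

lemma span_mul_mem {A : Type*} [Ring A] [Algebra ℂ A] {S : Set A}
    (hS : ∀ a ∈ S, ∀ b ∈ S, a * b ∈ S) {a b : A} (ha : a ∈ span ℂ S) (hb : b ∈ span ℂ S) :
    a * b ∈ span ℂ S := by
  have := Submodule.mul_mem_mul ha hb
  rw [Submodule.span_mul_span] at this
  refine span_mono ?_ this
  rintro _ ⟨x, hx, y, hy, rfl⟩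
  exact hS x hx y hy

lemma comm_span {A : Type*} [Ring A] [Algebra ℂ A] {S : Set A} {e : A}
    (h : ∀ a ∈ S, e * a = a * e) {a : A} (ha : a ∈ span ℂ S) : e * a = a * e := by
  induction ha using span_induction with
  | mem a ha => exact h a ha
  | zero => simp
  | add _ _ _ _ h1 h2 => rw [mul_add, add_mul, h1, h2]
  | smul c _ _ h1 => rw [mul_smul_comm, smul_mul_assoc, h1]

lemma img_mul (ρ : G →* Mat n) (N : Subgroup G) :
    ∀ a ∈ ρ '' N, ∀ b ∈ ρ '' N, a * b ∈ ρ '' N := by
  rintro _ ⟨x, hx, rfl⟩ _ ⟨y, hy, rfl⟩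
  exact ⟨x * y, mul_mem hx hy, map_mul _ _ _⟩

/-- the restriction to `N` is homogeneous -/
def Homog (ρ : G →* Mat n) (N : Subgroup G) : Prop :=
  ∀ e ∈ span ℂ (ρ '' N), e * e = e → (∀ x ∈ N, e * ρ x = ρ x * e) → e = 0 ∨ e = 1

/-- reduction to a proper subgroup -/
def Red (ρ : G →* Mat n) : Prop :=
  ∃ M : Subgroup G, M ≠ ⊤ ∧ ∃ (d : ℕ) (τ : M →* Mat d), Irr τ ∧ St (ch τ) ≤ St (ch ρ) ∧
    (St (ch τ)).relIndex (St (ch ρ)) ≠ 0 ∧ (St (ch τ)).relIndex (St (ch ρ)) * d ≤ n

lemma min_idem (ρ : G →* Mat n) (N : Subgroup G) [hN : N.Normal] (h : ¬ Homog ρ N) :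
    ∃ e : Mat n, e * e = e ∧ e ≠ 0 ∧ e ≠ 1 ∧
      ∀ g, ρ g * e = e * ρ g ∨ e * ρ g * e = 0 := by
  classical
  let C : Mat n → Prop := fun e =>
    e ∈ span ℂ (ρ '' N) ∧ e * e = e ∧ (∀ x ∈ N, e * ρ x = ρ x * e) ∧ e ≠ 0
  unfold Homog at h
  push Not at h
  obtain ⟨e₀, h1, h2, h3, h4, h5⟩ := h
  have hex : ∃ r : ℕ, ∃ e, C e ∧ e.trace = r := by
    obtain ⟨m, hm, -⟩ := trace_idem e₀ h2
    exact ⟨m, e₀, ⟨h1, h2, h3, h4⟩, hm⟩
  have hcomm : ∀ e f, C e → C f → e * f = f * e := fun e f he hf =>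
    comm_span (by rintro _ ⟨x, hx, rfl⟩; exact he.2.2.1 x hx) hf.1
  have hmin : ∀ e f, C e → C f → e.trace = Nat.find hex → e * f = 0 ∨ e * f = e := by
    intro e f he hf ht
    by_cases h0 : e * f = 0
    · exact Or.inl h0
    right
    have hi : e * f * (e * f) = e * f := by
      rw [mul_assoc, ← mul_assoc f, ← hcomm e f he hf, mul_assoc, hf.2.1, ← mul_assoc, he.2.1]
    have hC : C (e * f) := ⟨span_mul_mem (img_mul ρ N) he.1 hf.1, hi, fun x hx => by
      rw [mul_assoc, hf.2.2.1 x hx, ← mul_assoc, he.2.2.1 x hx, mul_assoc], h0⟩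
    obtain ⟨m, hm, -⟩ := trace_idem _ hi
    obtain ⟨k, hk, hk0⟩ := trace_idem (e - e * f) (by
      rw [sub_mul, mul_sub, mul_sub, he.2.1, ← mul_assoc e e f, he.2.1, hi, mul_assoc,
        ← hcomm e f he hf, ← mul_assoc, he.2.1, sub_self, sub_zero])
    have h6 := Nat.find_min' hex ⟨_, hC, hm⟩
    rw [trace_sub, ht, hm] at hk
    have h7 : Nat.find hex = m + k := by exact_mod_cast (sub_eq_iff_eq_add'.mp hk)
    exact (sub_eq_zero.mp (hk0 (by omega))).symm
  obtain ⟨e, he, ht⟩ := Nat.find_spec hex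
  refine ⟨e, he.2.1, he.2.2.2, fun h => ?_, fun g => ?_⟩
  · have := hmin e e₀ he ⟨h1, h2, h3, h4⟩ ht
    rw [h, one_mul] at this
    exact this.elim h4 h5
  · have hg : ρ g⁻¹ * ρ g = 1 := by rw [← map_mul, inv_mul_cancel, map_one]
    have hg' : ρ g * ρ g⁻¹ = 1 := by rw [← map_mul, mul_inv_cancel, map_one]
    have hf : C (ρ g * e * ρ g⁻¹) := by
      refine ⟨?_, ?_, fun x hx => ?_, fun h0 => he.2.2.2 ?_⟩
      · have : ∀ a ∈ span ℂ (ρ '' N), ρ g * a * ρ g⁻¹ ∈ span ℂ (ρ '' N) := by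
          intro a ha
          induction ha using span_induction with
          | mem a ha =>
            obtain ⟨x, hx, rfl⟩ := ha
            exact subset_span ⟨_, hN.conj_mem x hx g, by rw [map_mul, map_mul]⟩
          | zero => simp
          | add _ _ _ _ h1 h2 => rw [mul_add, add_mul]; exact add_mem h1 h2
          | smul c _ _ h1 => rw [mul_smul_comm, smul_mul_assoc]; exact smul_mem _ _ h1
        exact this e he.1
      · simp only [mul_assoc]
        rw [← mul_assoc (ρ g⁻¹), hg, one_mul, ← mul_assoc e, he.2.1]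
      · have h6 := he.2.2.1 _ (hN.conj_mem x hx g⁻¹)
        rw [inv_inv, map_mul, map_mul] at h6
        calc ρ g * e * ρ g⁻¹ * ρ x = ρ g * (e * (ρ g⁻¹ * ρ x * ρ g)) * ρ g⁻¹ := by
              simp only [mul_assoc, hg', mul_one]
          _ = ρ x * (ρ g * e * ρ g⁻¹) := by
              rw [h6]
              simp only [← mul_assoc, hg', one_mul]
      · calc e = ρ g⁻¹ * (ρ g * e * ρ g⁻¹) * ρ g := by
              simp only [← mul_assoc, hg, one_mul]
              rw [mul_assoc, hg, mul_one]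
          _ = 0 := by rw [h0, mul_zero, zero_mul]
    have ht' : (ρ g * e * ρ g⁻¹).trace = Nat.find hex := by
      rw [trace_mul_comm, ← mul_assoc, hg, one_mul, ht]
    rcases hmin e _ he hf ht with h6 | h6
    · right
      calc e * ρ g * e = e * (ρ g * e * ρ g⁻¹) * ρ g := by simp only [mul_assoc, hg, mul_one]
        _ = 0 := by rw [h6, zero_mul]
    · left
      rcases hmin _ e hf he ht' with h7 | h7
      · exact absurd (by rw [← h6, hcomm _ _ he hf, h7]) he.2.2.2
      · rw [← hcomm _ _ he hf, h6] at h7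
        conv_rhs => rw [h7]
        rw [mul_assoc, hg, mul_one]

theorem inertia [Finite G] {ρ : G →* Mat n} (hρ : Irr ρ) (N : Subgroup G) [N.Normal]
    (h : ¬ Homog ρ N) : Red ρ := by
  classical
  have := Fintype.ofFinite G
  obtain ⟨e, h1, h2, h3, h4⟩ := min_idem ρ N h
  let M : Subgroup G :=
    { carrier := {g | ρ g * e = e * ρ g}
      one_mem' := by simp
      mul_mem' := fun {a b} ha hb => by
        show ρ (a * b) * e = e * ρ (a * b)
        rw [map_mul, mul_assoc, hb, ← mul_assoc, ha, mul_assoc]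
      inv_mem' := fun {a} ha => by
        show ρ a⁻¹ * e = e * ρ a⁻¹
        have hg : ρ a⁻¹ * ρ a = 1 := by rw [← map_mul, inv_mul_cancel, map_one]
        have hg' : ρ a * ρ a⁻¹ = 1 := by rw [← map_mul, mul_inv_cancel, map_one]
        calc ρ a⁻¹ * e = ρ a⁻¹ * (e * ρ a) * ρ a⁻¹ := by simp only [mul_assoc, hg', mul_one]
          _ = e * ρ a⁻¹ := by rw [← ha, ← mul_assoc, hg, one_mul] }
  have hM : ∀ g, g ∈ M ↔ ρ g * e = e * ρ g := fun _ => Iff.rfl
  obtain ⟨d, U, W, hWU, hUW⟩ := compress h1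
  have heU : e * U = U := by rw [← hUW, Matrix.mul_assoc, hWU, Matrix.mul_one]
  have hWe : W * e = W := by rw [← hUW, ← Matrix.mul_assoc, hWU, Matrix.one_mul]
  let τ : M →* Mat d :=
    { toFun := fun t => W * ρ t * U
      map_one' := by simp [hWU]
      map_mul' := fun a b => by
        calc W * ρ (a * b : M) * U = W * ρ a * (ρ b * e) * U := by
              simp only [Subgroup.coe_mul, map_mul, Matrix.mul_assoc, heU]
          _ = _ := by
              rw [(hM _).mp b.2, ← hUW]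
              simp only [Matrix.mul_assoc] }
  have hτ : ∀ t, τ t = W * ρ t * U := fun _ => rfl
  have hch : ∀ t, ch τ t = (ρ t * e).trace := fun t => by
    rw [ch, hτ, Matrix.mul_assoc, trace_mul_comm, Matrix.mul_assoc, hUW]
  have hd : e.trace = d := by rw [← hUW, trace_mul_comm, hWU, trace_one, Fintype.card_fin]
  have hd0 : 0 < d := Nat.pos_of_ne_zero fun h0 => h2 (by
    subst h0
    rw [← hUW]
    ext i j
    simp [Matrix.mul_apply])
  have hirr : Irr τ := by
    refine ⟨hd0, eq_top_iff.mpr fun Y _ => ?_⟩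
    have : ∀ Z ∈ span ℂ (Set.range ρ), W * Z * U ∈ span ℂ (Set.range τ) := by
      intro Z hZ
      induction hZ using span_induction with
      | mem Z hZ =>
        obtain ⟨g, rfl⟩ := hZ
        rcases h4 g with h5 | h5
        · exact subset_span ⟨⟨g, h5⟩, rfl⟩
        · have : W * ρ g * U = W * (e * ρ g * e) * U := by
            simp only [Matrix.mul_assoc, heU]
            rw [← Matrix.mul_assoc W e, hWe]
          rw [this, h5, Matrix.mul_zero, Matrix.zero_mul]
          exact zero_mem _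
      | zero => simp
      | add _ _ _ _ h1 h2 => rw [Matrix.mul_add, Matrix.add_mul]; exact add_mem h1 h2
      | smul c _ _ h1 => rw [Matrix.mul_smul, Matrix.smul_mul]; exact smul_mem _ _ h1
    have h5 := this (U * Y * W) (hρ.2 ▸ mem_top)
    simp only [Matrix.mul_assoc, hWU, Matrix.mul_one] at h5
    rwa [← Matrix.mul_assoc, hWU, Matrix.one_mul] at h5
  have hle : St (ch τ) ≤ St (ch ρ) := by
    intro s hs g
    have h5 : ∀ y, s (ρ y * e).trace = (ρ y * e).trace := fun y => by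
      rcases h4 y with h5 | h5
      · rw [← hch ⟨y, h5⟩]
        exact hs _
      · rw [← h1, ← mul_assoc, trace_mul_comm, ← mul_assoc, h5, trace_zero, map_zero]
    have h6 := congrArg (fun Z => (ρ g * Z).trace) (avg_scalar hρ e)
    simp only [mul_smul_comm, trace_smul, Finset.mul_sum, trace_sum, mul_one, smul_eq_mul, hd] at h6
    have h7 : ∀ x, (ρ g * (ρ x * e * ρ x⁻¹)).trace = (ρ (x⁻¹ * g * x) * e).trace := fun x => by
      rw [← mul_assoc, trace_mul_comm, map_mul, map_mul]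
      simp only [mul_assoc]
    simp only [h7] at h6
    have h8 := congrArg s h6
    simp only [map_sum, map_mul s, map_natCast, h5] at h8
    rw [h6] at h8
    exact (mul_left_cancel₀ (mul_ne_zero (by exact_mod_cast Fintype.card_ne_zero)
      (by exact_mod_cast hd0.ne')) h8).symm
  have hip : ip (ch τ) (ch (ρ.comp M.subtype)) ≠ 0 := by
    obtain ⟨m, hm⟩ := pair_nat (fun u : M => ρ u * e) (fun u : M => ρ u * (1 - e))
      (fun u v => by
        rw [Subgroup.coe_mul, map_mul, mul_assoc (ρ u) e, ← mul_assoc e, ← (hM _).mp v.2,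
          mul_assoc (ρ v), h1, mul_assoc])
      (fun u v => by
        have h5 : (1 - e) * (ρ v * (1 - e)) = ρ v * (1 - e) := by
          rw [sub_mul, one_mul, ← mul_assoc, ← (hM _).mp v.2, mul_assoc, mul_sub e, h1, mul_one,
            sub_self, mul_zero, sub_zero]
        rw [Subgroup.coe_mul, map_mul, mul_assoc (ρ u) (1 - e), h5, mul_assoc])
    have h5 : ip (ch τ) (ch τ) = Fintype.card M := orth_one hirr
    have h6 : ip (ch τ) (ch (ρ.comp M.subtype)) = Fintype.card M + Fintype.card M * m := by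
      rw [← hm, ← h5, ip, ip, ← Finset.sum_add_distrib]
      refine Finset.sum_congr rfl fun u _ => ?_
      rw [hch, hch, ← mul_add, ← trace_add, ← mul_add, add_sub_cancel, mul_one]
      rfl
    rw [h6]
    have : 0 < Fintype.card M + Fintype.card M * m := Nat.add_pos_left Fintype.card_pos _
    exact_mod_cast this.ne'
  obtain ⟨h5, h6⟩ := orbit_le _ hirr hip (H := St (ch ρ)) fun s hs x => hs x
  refine ⟨M, fun hT => ?_, d, τ, hirr, hle, h5, h6⟩
  obtain ⟨c, hc⟩ := scalar_of_comm hρ.2 (Y := e) (by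
    rintro _ ⟨g, rfl⟩
    exact (hM g).mp (hT ▸ Subgroup.mem_top g))
  have h7 := h1
  rw [hc, smul_mul_assoc, one_mul, smul_smul] at h7
  have h8 := congrFun (congrFun h7 ⟨0, hρ.1⟩) ⟨0, hρ.1⟩
  simp only [Matrix.smul_apply, one_apply_eq, smul_eq_mul, mul_one] at h8
  rcases mul_eq_zero.mp (show c * (c - 1) = 0 by rw [mul_sub, h8, mul_one, sub_self]) with h | h
  · exact h2 (by rw [hc, h, zero_smul])
  · exact h3 (by rw [hc, sub_eq_zero.mp h, one_smul])

end Pool.Agent.P.MP_fb2360_al.T
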