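import Pool.Agent.P.MP_fb2360_al.T.Inert

namespace Pool.Agent.P.MP_fb2360_al.T

open Pool.Agent.P.MP_fb2360_al Matrix Submodule

variable {n : ℕ} {G : Type} [Group G]

lemma sum_restrict [Fintype G] (M : Subgroup G) [Fintype M] (F : G → ℂ)
    (hF : ∀ x g, F (x * g * x⁻¹) = F g)
    (h : ∀ g, F g ≠ 0 → ∃ x₀, ∀ x, x⁻¹ * g * x ∈ M ↔ x₀⁻¹ * x ∈ M) :
    Fintype.card M * ∑ g, F g = Fintype.card G * ∑ u : M, F u := by
  classical
  have h1 : ∀ x : G, ∑ g, (if x⁻¹ * g * x ∈ M then F g else 0) = ∑ u : M, F u := by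
    intro x
    rw [← Equiv.sum_comp (MulAut.conj x).toEquiv]
    simp only [MulEquiv.toEquiv_eq_coe, EquivLike.coe_coe, MulAut.conj_apply, hF]
    have : ∀ g, x⁻¹ * (x * g * x⁻¹) * x = g := fun g => by group
    simp only [this]
    rw [← Finset.sum_filter]
    exact Finset.sum_subtype _ (by simp) F
  have h2 : ∀ g : G, ∑ x, (if x⁻¹ * g * x ∈ M then F g else 0) = Fintype.card M * F g := by
    intro g
    by_cases h0 : F g = 0
    · simp [h0]
    obtain ⟨x₀, hx⟩ := h g h0
    simp only [hx]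
    rw [← Equiv.sum_comp (Equiv.mulLeft x₀)]
    simp only [Equiv.coe_mulLeft, inv_mul_cancel_left]
    rw [← Finset.sum_filter, Finset.sum_const, nsmul_eq_mul, Fintype.card_subtype]
  rw [Finset.mul_sum, ← Finset.sum_congr rfl fun g _ => h2 g, Finset.sum_comm]
  simp only [h1, Finset.sum_const, Finset.card_univ, nsmul_eq_mul]

lemma fix_le_St [Finite G] (ρ : G →* Mat n) : Fix (Nat.card G) ≤ St (ch ρ) := fun _ hs g =>
  fix_trace Nat.card_pos (by rw [← map_pow, pow_card_eq_one', map_one]) hs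

lemma ch_comm [Finite G] (ρ : G →* Mat n) (s t : RingAut ℂ) (g : G) :
    s (t (ch ρ g)) = t (s (ch ρ g)) := by
  have h1 : (s * t).symm ((t * s) (ch ρ g)) = ch ρ g :=
    fix_le_St ρ (comm_mem Nat.card_pos s t) g
  rw [RingEquiv.symm_apply_eq] at h1
  exact h1.symm

lemma vec_two {r : ℕ} (c : Fin r → ℤ) (e : Fin r → ℕ) (he : ∀ i, 0 < e i)
    (h1 : ∑ k, c k * c k = 2) (h2 : ∑ k, c k * e k = 0) :
    ∃ a, 0 < c a ∧ ∀ π : Fin r → Fin r, Function.Injective π → π a = a →
      0 < ∑ k, c (π k) * c k := by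
  have h3 : ∃ a, 0 < c a := by
    by_contra h
    push Not at h
    have := (Finset.sum_eq_zero_iff_of_nonpos fun k _ =>
      mul_nonpos_of_nonpos_of_nonneg (h k) (Int.natCast_nonneg _)).mp h2
    rw [Finset.sum_eq_zero fun k _ => ?_] at h1
    · exact absurd h1 (by norm_num)
    · have h4 : c k = 0 := (mul_eq_zero.mp (this k (Finset.mem_univ _))).resolve_right
        (by exact_mod_cast (he k).ne')
      rw [h4, mul_zero]
  obtain ⟨a, ha⟩ := h3
  have h4 : ∀ b, b ≠ a → c b ≤ 0 := by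
    intro b hb
    by_contra hb'
    push Not at hb'
    have h5 := Finset.add_sum_erase Finset.univ (fun k => c k * c k) (Finset.mem_univ a)
    have h6 := Finset.add_sum_erase (Finset.univ.erase a) (fun k => c k * c k)
      (a := b) (by simp [hb])
    have h7 : 0 ≤ ∑ k ∈ (Finset.univ.erase a).erase b, c k * c k :=
      Finset.sum_nonneg fun k _ => mul_self_nonneg _
    have h8 : ∑ k ∈ (Finset.univ.erase a).erase b, c k * c k = 0 := by
      nlinarith
    have h9 := (Finset.sum_eq_zero_iff_of_nonneg fun k _ => mul_self_nonneg (c k)).mp h8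
    have h10 : ∀ k, 0 ≤ c k := fun k => by
      by_cases hk : k = a
      · exact hk ▸ ha.le
      by_cases hk' : k = b
      · exact hk' ▸ hb'.le
      exact (mul_self_eq_zero.mp (h9 k (by simp [hk, hk']))).ge
    have h11 := (Finset.sum_eq_zero_iff_of_nonneg fun k _ =>
      mul_nonneg (h10 k) (Int.natCast_nonneg _)).mp h2 a (Finset.mem_univ _)
    exact (mul_pos ha (by exact_mod_cast he a)).ne' h11
  refine ⟨a, ha, fun π hπ hπa => ?_⟩
  rw [← Finset.add_sum_erase Finset.univ _ (Finset.mem_univ a), hπa]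
  refine add_pos_of_pos_of_nonneg (mul_pos ha ha) (Finset.sum_nonneg fun k hk => ?_)
  have hk' := Finset.ne_of_mem_erase hk
  exact mul_nonneg_of_nonpos_of_nonpos (h4 _ fun h => hk' (hπ (h.trans hπa.symm))) (h4 k hk')

theorem isom [Finite G] {ρ : G →* Mat n} (hρ : Irr ρ) {j : RingAut ℂ} (hj : j ∉ St (ch ρ))
    (M : Subgroup G) (hM : M ≠ ⊤)
    (h : ∀ g, j (ch ρ g) ≠ ch ρ g → ∃ x₀, ∀ x, x⁻¹ * g * x ∈ M ↔ x₀⁻¹ * x ∈ M) : Red ρ := by
  classical
  have := Fintype.ofFinite G
  have hG : (Fintype.card G : ℂ) ≠ 0 := by exact_mod_cast Fintype.card_ne_zero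
  have hMc : (Fintype.card M : ℂ) ≠ 0 := by exact_mod_cast Fintype.card_ne_zero
  let η : G → ℂ := fun g => ch ρ g - j (ch ρ g)
  have hG1 : ∀ s : RingAut ℂ, ip η (fun g => s (η g)) =
      ip (ch ρ) (ch (mapRep s ρ)) - ip (ch ρ) (ch (mapRep s (mapRep j ρ))) -
        ip (ch (mapRep j ρ)) (ch (mapRep s ρ)) +
        ip (ch (mapRep j ρ)) (ch (mapRep s (mapRep j ρ))) := by
    intro s
    simp only [ip, ch_mapRep, η, map_sub, ← Finset.sum_sub_distrib, ← Finset.sum_add_distrib]
    exact Finset.sum_congr rfl fun g _ => by ring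
  have htr : ∀ s : RingAut ℂ, Fintype.card M * ip η (fun g => s (η g)) =
      Fintype.card G * ip (fun u : M => η u) (fun u => s (η u)) := by
    intro s
    refine sum_restrict M (fun g => η g⁻¹ * s (η g)) (fun x g => ?_) fun g hg => h g fun h0 => hg ?_
    · have : (x * g * x⁻¹)⁻¹ = x * g⁻¹ * x⁻¹ := by group
      simp only [η, this, ch_conj]
    · simp only [η, h0, sub_self, map_zero, mul_zero]
  obtain ⟨r, e, σ, h1, h2, h3⟩ := wedc M
  obtain ⟨m, hm⟩ := h3 _ (ρ.comp M.subtype)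
  obtain ⟨m', hm'⟩ := h3 _ (mapRep j (ρ.comp M.subtype))
  let c : Fin r → ℤ := fun i => m i - m' i
  have hc : ∀ u : M, η u = ∑ i, c i * ch (σ i) u := fun u => by
    have h4 := hm' u
    rw [ch_mapRep] at h4
    simp only [c, Int.cast_sub, Int.cast_natCast, sub_mul, Finset.sum_sub_distrib]
    rw [← hm, ← h4]
    rfl
  have hne : ch ρ ≠ ch (mapRep j ρ) := fun h0 => hj fun g => by rw [← ch_mapRep, ← h0]
  have h4 : ∑ k, c k * c k = 2 := by
    have h5 := htr 1
    have h6 : ∀ f : G →* Mat n, ch (mapRep 1 f) = ch f := fun f => funext fun g => ch_mapRep _ _ _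
    rw [hG1, h6, h6, ((ip_irr hρ hρ).resolve_right fun h => h.1 rfl).2,
      ((ip_irr (hρ.mapRep j) (hρ.mapRep j)).resolve_right fun h => h.1 rfl).2,
      ((ip_irr hρ (hρ.mapRep j)).resolve_left fun h => hne h.1).2,
      ((ip_irr (hρ.mapRep j) hρ).resolve_left fun h => hne h.1.symm).2,
      ip_comb (fun i => ch (σ i)) h2 c c id hc
        (β := fun u : M => (1 : RingAut ℂ) (η u)) hc] at h5
    have h7 : ((∑ k, c k * c k : ℤ) : ℂ) = 2 := by
      apply mul_left_cancel₀ (mul_ne_zero hG hMc)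
      simp only [id] at h5
      linear_combination -h5
    exact_mod_cast h7
  have h5 : ∑ k, c k * e k = 0 := by
    have h6 := hc 1
    simp only [η, OneMemClass.coe_one, ch_one, map_natCast, sub_self] at h6
    exact_mod_cast h6.symm
  obtain ⟨a, ha, ha'⟩ := vec_two c e (fun i => (h1 i).1) h4 h5
  have hle : St (ch (σ a)) ≤ St (ch ρ) := by
    intro s hs
    by_contra hs'
    have h6 : ∀ i, ∃ k, ch (mapRep s (σ i)) = ch (σ k) := fun i => by
      obtain ⟨m', hm'⟩ := h3 _ (mapRep s (σ i))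
      exact irr_eq (fun i => ch (σ i)) h2 ((h1 i).mapRep s) m' hm'
    choose π hπ using h6
    have hinj : ∀ i k, ch (σ i) = ch (σ k) → i = k := fun i k hik => by
      by_contra h0
      have h7 := h2 i k
      rw [if_neg h0, ← hik, (h2 i i).trans (if_pos rfl)] at h7
      exact hMc h7
    have h7 := ha' π (fun i k hik => hinj i k (funext fun u => s.injective (by
      rw [← ch_mapRep, ← ch_mapRep, hπ, hπ, hik]))) (hinj _ _ (by
        rw [← hπ]
        exact funext fun u => (ch_mapRep _ _ _).trans (hs u)))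
    have h8 := htr s
    have h9 : ch ρ ≠ ch (mapRep s ρ) := fun h0 => hs' fun g => by rw [← ch_mapRep, ← h0]
    have h10 : ch (mapRep j ρ) ≠ ch (mapRep s (mapRep j ρ)) := fun h0 => hs' fun g => by
      have := congrFun h0 g
      rw [ch_mapRep, ch_mapRep, ch_mapRep, ch_comm] at this
      exact (j.injective this).symm
    rw [hG1, ((ip_irr hρ (hρ.mapRep s)).resolve_left fun h => h9 h.1).2,
      ((ip_irr (hρ.mapRep j) ((hρ.mapRep j).mapRep s)).resolve_left fun h => h10 h.1).2,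
      ip_comb (fun i => ch (σ i)) h2 c c π hc (β := fun u : M => s (η u)) (fun u => by
        rw [hc, map_sum]
        refine Finset.sum_congr rfl fun i _ => ?_
        rw [map_mul, map_intCast, ← ch_mapRep, hπ])] at h8
    have h11 : ∀ {f f' : G →* Mat n}, Irr f → Irr f' → ∃ k : ℕ, ip (ch f) (ch f') = k := by
      intro f f' hf hf'
      rcases ip_irr hf hf' with h | h
      · exact ⟨_, h.2⟩
      · exact ⟨0, h.2.trans Nat.cast_zero.symm⟩
    obtain ⟨k1, hk1⟩ := h11 hρ ((hρ.mapRep j).mapRep s)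
    obtain ⟨k2, hk2⟩ := h11 (hρ.mapRep j) (hρ.mapRep s)
    rw [hk1, hk2] at h8
    have h12 : (Fintype.card M : ℤ) * (0 - k1 - k2 + 0) =
        Fintype.card G * (Fintype.card M * ∑ k, c (π k) * c k) := by exact_mod_cast h8
    have h13 : (0 : ℤ) < Fintype.card M := by exact_mod_cast Fintype.card_pos
    have h14 : (0 : ℤ) < Fintype.card G := by exact_mod_cast Fintype.card_pos
    have h15 := mul_pos h14 (mul_pos h13 h7)
    have h16 : (Fintype.card M : ℤ) * (0 - k1 - k2 + 0) ≤ 0 :=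
      mul_nonpos_of_nonneg_of_nonpos h13.le (by omega)
    omega
  have hip : ip (ch (σ a)) (ch (ρ.comp M.subtype)) ≠ 0 := by
    rw [ip_comb (fun i => ch (σ i)) h2 (Pi.single a 1) (fun i => m i) id
      (α := ch (σ a)) (β := ch (ρ.comp M.subtype)) (fun x => by
        rw [Finset.sum_eq_single a (fun j _ hj => by simp [hj]) (by simp)]
        simp) (by simpa using hm), Finset.sum_eq_single a (fun j _ hj => by simp [hj]) (by simp)]
    have : m a ≠ 0 := by
      simp only [c] at ha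
      omega
    simpa using this
  obtain ⟨h6, h7⟩ := orbit_le _ (h1 a) hip (H := St (ch ρ)) fun s hs x => hs x
  exact ⟨M, hM, _, σ a, h1 a, hle, h6, h7⟩

end Pool.Agent.P.MP_fb2360_al.T
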