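import Pool.Agent.P.MP_fb2360_al.Main

namespace Pool.Agent.P.MP_fb2360_al.T

open Pool.Agent.P.MP_fb2360_al Matrix Submodule

/-- square complex matrices -/
abbrev Mat (d : ℕ) := Matrix (Fin d) (Fin d) ℂ

variable {d n : ℕ}

lemma scalar_of_all {Y : Mat d} (h : ∀ X, X * Y = Y * X) : ∃ c : ℂ, Y = c • 1 := by
  obtain ⟨c, hc⟩ := Matrix.mem_range_scalar_iff_commute_single'.mpr
    (fun i j => (h (single i j 1) : Commute _ Y))
  exact ⟨c, by rw [← hc, Matrix.scalar_apply, Matrix.smul_one_eq_diagonal]⟩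

lemma scalar_of_comm {S : Set (Mat d)} (hS : span ℂ S = ⊤) {Y : Mat d}
    (h : ∀ X ∈ S, X * Y = Y * X) : ∃ c : ℂ, Y = c • 1 := by
  refine scalar_of_all fun X => ?_
  have := LinearMap.ext_on hS (f := LinearMap.mulRight ℂ Y) (g := LinearMap.mulLeft ℂ Y) h
  exact LinearMap.congr_fun this X

lemma trace_fun (L : Mat d →ₗ[ℂ] ℂ) (h : ∀ X Y, L (X * Y) = L (Y * X)) (i : Fin d) (X : Mat d) :
    L X = X.trace * L (single i i 1) := by
  have h1 : ∀ j k : Fin d, L (single j k 1) = if j = k then L (single i i 1) else 0 := by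
    intro j k
    have h2 := h (single j i 1) (single i k 1)
    rw [single_mul_single_same, mul_one] at h2
    rw [h2]
    split_ifs with hjk
    · rw [hjk, single_mul_single_same, mul_one]
    · rw [single_mul_single_of_ne _ _ _ _ (Ne.symm hjk), map_zero]
  conv_lhs => rw [Matrix.matrix_eq_sum_single X]
  have h3 : ∀ j k, single j k (X j k) = X j k • (single j k 1 : Mat d) := fun j k => by
    rw [smul_single, smul_eq_mul, mul_one]
  simp only [h3, map_sum, map_smul, smul_eq_mul]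
  rw [Matrix.trace, Finset.sum_mul]
  refine Finset.sum_congr rfl fun j _ => ?_
  rw [Finset.sum_eq_single j]
  · rw [h1, if_pos rfl, Matrix.diag_apply]
  · intro k _ hk
    rw [h1, if_neg (Ne.symm hk), mul_zero]
  · simp

lemma trace_phi (φ : Mat d →ₐ[ℂ] Mat n) {W : Mat n} (hW : ∀ X, φ X * W = W * φ X) (X : Mat d) :
    (d : ℂ) * (φ X * W).trace = X.trace * W.trace := by
  rcases Nat.eq_zero_or_pos d with rfl | hd
  · simp
  let L : Mat d →ₗ[ℂ] ℂ := (Matrix.traceLinearMap _ ℂ ℂ).comp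
    ((LinearMap.mulRight ℂ W).comp φ.toLinearMap)
  have hL : ∀ Y, L Y = (φ Y * W).trace := fun _ => rfl
  have h : ∀ X Y, L (X * Y) = L (Y * X) := fun X Y => by
    rw [hL, hL, map_mul, map_mul, mul_assoc, trace_mul_comm, mul_assoc, ← hW, mul_assoc]
  have h1 := trace_fun L h ⟨0, hd⟩ X
  have h2 := trace_fun L h ⟨0, hd⟩ 1
  rw [hL 1, map_one, one_mul, trace_one, Fintype.card_fin] at h2
  rw [← hL, h1, h2]
  ring

lemma trace_phi' (φ : Mat d →ₐ[ℂ] Mat n) (X : Mat d) :
    (d : ℂ) * (φ X).trace = X.trace * n := by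
  have := trace_phi φ (W := 1) (fun X => by rw [mul_one, one_mul]) X
  rwa [mul_one, trace_one, Fintype.card_fin] at this

lemma nondeg_all {X : Mat d} (h : ∀ Y, (X * Y).trace = 0) : X = 0 := by
  ext i j
  have := h (single j i 1)
  rw [trace_mul_single] at this
  simpa using this

lemma nondeg {S : Set (Mat d)} (hS : span ℂ S = ⊤) {X : Mat d}
    (h : ∀ Y ∈ S, (X * Y).trace = 0) : X = 0 := by
  refine nondeg_all fun Y => ?_
  have := LinearMap.ext_on hS (f := (Matrix.traceLinearMap _ ℂ ℂ).comp (LinearMap.mulLeft ℂ X))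
    (g := 0) h
  exact LinearMap.congr_fun this Y

/-- semilinear transfer of traces -/
lemma semi {S : Set (Mat n)} (hnd : ∀ X ∈ span ℂ S, (∀ Y ∈ S, (X * Y).trace = 0) → X = 0)
    (s : RingAut ℂ) (hS : ∀ Y ∈ S, ∀ Y' ∈ S, s (Y * Y').trace = (Y * Y').trace)
    {X W : Mat n} (hX : X ∈ span ℂ S) (hXS : ∀ Y ∈ S, s (X * Y).trace = (X * Y).trace)
    (hW : ∀ Y ∈ S, s (Y * W).trace = (Y * W).trace) : s (X * W).trace = (X * W).trace := by
  have key : ∀ X ∈ span ℂ S, ∃ X' ∈ span ℂ S, ∀ Z : Mat n,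
      (∀ Y ∈ S, s (Y * Z).trace = (Y * Z).trace) → s (X * Z).trace = (X' * Z).trace := by
    intro X hX
    induction hX using span_induction with
    | mem x hx => exact ⟨x, subset_span hx, fun Z hZ => hZ x hx⟩
    | zero => exact ⟨0, zero_mem _, fun Z _ => by simp⟩
    | add x y _ _ h1 h2 =>
      obtain ⟨x', hx', h1⟩ := h1
      obtain ⟨y', hy', h2⟩ := h2
      exact ⟨x' + y', add_mem hx' hy', fun Z hZ => by
        rw [add_mul, add_mul, trace_add, trace_add, map_add, h1 Z hZ, h2 Z hZ]⟩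
    | smul c x _ h1 =>
      obtain ⟨x', hx', h1⟩ := h1
      exact ⟨s c • x', smul_mem _ _ hx', fun Z hZ => by
        rw [smul_mul_assoc, smul_mul_assoc, trace_smul, trace_smul, smul_eq_mul, smul_eq_mul,
          map_mul, h1 Z hZ]⟩
  obtain ⟨X', hX', h⟩ := key X hX
  have : X - X' = 0 := hnd _ (sub_mem hX hX') fun Y hY => by
    rw [sub_mul, trace_sub, ← h Y fun Y' hY' => hS Y' hY' Y hY, hXS Y hY, sub_self]
  rw [h W hW, sub_eq_zero.mp this]

lemma compress {e : Mat n} (he : e * e = e) :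
    ∃ (r : ℕ) (U : Matrix (Fin n) (Fin r) ℂ) (W : Matrix (Fin r) (Fin n) ℂ),
      W * U = 1 ∧ U * W = e := by
  let p := Matrix.toLin' e
  let R := LinearMap.range p
  let b := Module.finBasis ℂ R
  let c := Pi.basisFun ℂ (Fin n)
  refine ⟨_, LinearMap.toMatrix b c R.subtype, LinearMap.toMatrix c b p.rangeRestrict, ?_, ?_⟩
  · rw [← LinearMap.toMatrix_comp, ← LinearMap.toMatrix_id (v₁ := b)]
    congr 1
    ext ⟨x, y, rfl⟩ : 1
    apply Subtype.ext
    show p (p y) = p y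
    rw [← LinearMap.comp_apply, ← Matrix.toLin'_mul, he]
  · rw [← LinearMap.toMatrix_comp]
    have : R.subtype ∘ₗ p.rangeRestrict = p := rfl
    rw [this, LinearMap.toMatrix_eq_toMatrix', LinearMap.toMatrix'_toLin']

lemma det_idem {e : Mat n} (he : e * e = e) :
    ∃ r : ℕ, e.trace = r ∧ ∀ c : ℂ, (1 + (c - 1) • e).det = c ^ r := by
  obtain ⟨r, U, W, h1, h2⟩ := compress he
  refine ⟨r, by rw [← h2, trace_mul_comm, h1, trace_one, Fintype.card_fin], fun c => ?_⟩
  rw [← h2, ← Matrix.smul_mul, det_one_add_mul_comm, Matrix.mul_smul, h1]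
  have : (1 : Mat r) + (c - 1) • 1 = c • 1 := by rw [sub_smul, one_smul, add_sub_cancel]
  rw [this, det_smul, det_one, mul_one, Fintype.card_fin]

lemma det_spec {m : ℕ} (hm : 0 < m) {A : Mat n} (hA : A ^ m = 1) :
    ∃ r : ℂ → ℕ, (∀ z ∈ rts m, (pr m A z).trace = r z) ∧ A.det = ∏ z ∈ rts m, z ^ r z := by
  classical
  have : ∀ z : ℂ, ∃ r : ℕ, z ∈ rts m → (pr m A z).trace = r ∧
      (1 + (z - 1) • pr m A z).det = z ^ r := by
    intro z
    by_cases hz : z ∈ rts m
    · obtain ⟨r, h1, h2⟩ := det_idem (e := pr m A z) (by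
        rw [pr_mul_pr hm hA ((mem_rts hm).mp hz) ((mem_rts hm).mp hz), if_pos rfl])
      exact ⟨r, fun _ => ⟨h1, h2 z⟩⟩
    · exact ⟨0, fun h => absurd h hz⟩
  choose r hr using this
  refine ⟨r, fun z hz => (hr z hz).1, ?_⟩
  have key : ∀ S ⊆ rts m, (1 + ∑ z ∈ S, (z - 1) • pr m A z).det = ∏ z ∈ S, z ^ r z := by
    intro S hS
    induction S using Finset.induction_on with
    | empty => simp
    | insert w S hw ih =>
      have hw' := hS (Finset.mem_insert_self w S)
      have hS' : S ⊆ rts m := fun z hz => hS (Finset.mem_insert_of_mem hz)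
      rw [Finset.prod_insert hw, ← ih hS', ← (hr w hw').2, ← det_mul, Finset.sum_insert hw]
      congr 1
      have : pr m A w * ∑ z ∈ S, (z - 1) • pr m A z = 0 := by
        rw [Finset.mul_sum]
        refine Finset.sum_eq_zero fun z hz => ?_
        rw [mul_smul_comm, pr_mul_pr hm hA ((mem_rts hm).mp hw') ((mem_rts hm).mp (hS' hz)),
          if_neg (fun h : w = z => hw (h ▸ hz)), smul_zero]
      rw [add_mul, one_mul, mul_add, mul_one, smul_mul_assoc, this, smul_zero, add_zero]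
      abel
  rw [← key _ le_rfl]
  congr 1
  simp only [sub_smul, one_smul, Finset.sum_sub_distrib, sum_pr hm]
  rw [add_sub_cancel]
  conv_lhs => rw [← mul_one A, ← sum_pr hm A, Finset.mul_sum]
  exact Finset.sum_congr rfl fun z hz => mul_pr hm hA ((mem_rts hm).mp hz)

lemma det_cmp {m d' : ℕ} (hm : 0 < m) {A : Mat d} {B : Mat d'} (hA : A ^ m = 1) (hB : B ^ m = 1)
    {u v : ℕ} (h : ∀ j, (u : ℂ) * (A ^ j).trace = v * (B ^ j).trace) : A.det ^ u = B.det ^ v := by
  obtain ⟨r, h1, h2⟩ := det_spec hm hA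
  obtain ⟨r', h1', h2'⟩ := det_spec hm hB
  rw [h2, h2', ← Finset.prod_pow, ← Finset.prod_pow]
  refine Finset.prod_congr rfl fun z hz => ?_
  have h3 : (u : ℂ) * r z = v * r' z := by
    rw [← h1 z hz, ← h1' z hz]
    simp only [pr, Matrix.trace_smul, Matrix.trace_sum, smul_eq_mul, Finset.mul_sum]
    refine Finset.sum_congr rfl fun j _ => ?_
    linear_combination ((m : ℂ)⁻¹ * z⁻¹ ^ j) * h j
  have h4 : u * r z = v * r' z := by exact_mod_cast h3
  rw [← pow_mul, ← pow_mul, mul_comm, h4, mul_comm]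

lemma fix_trace {m : ℕ} (hm : 0 < m) {A : Mat n} (hA : A ^ m = 1) {s : RingAut ℂ}
    (hs : ∀ z : ℂ, z ^ m = 1 → s z = z) : s A.trace = A.trace := by
  have := map_trace_idem hm hA (one_mul 1) (Commute.one_left A) (s : ℂ →+* ℂ) 1
    (fun z hz => by rw [pow_one]; exact hs z hz)
  simpa using this

end Pool.Agent.P.MP_fb2360_al.T
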