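import Pool.Agent.P.MP_fb2360_al.T.Split
import Pool.Agent.P.MP_fb2360_al.T.Isom
import Pool.Agent.P.MP_fb2360_al.Joint

namespace Pool.Agent.P.MP_fb2360_al.T

open Pool.Agent.P.MP_fb2360_al Matrix Submodule

variable {n : ℕ} {G : Type} [Group G]

lemma St_eq_comap (ρ : G →* Mat n) {N : ℕ} [NeZero N] (hG : ∀ g : G, g ^ N = 1) :
    St (ch ρ) = (stab ρ hG).comap (cm N) := by
  ext s
  refine forall_congr' fun g => ?_
  rw [← map_trace_rho ρ (NeZero.pos N) hG (s : ℂ →+* ℂ) _ fun z hz => cm_spec N s hz]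
  rfl

lemma DD_eq_relIndex (ρ : G →* Mat n) {N m : ℕ} [NeZero N] (hG : ∀ g : G, g ^ N = 1)
    (hm : m ∣ N) : DD (St (ch ρ)) m = (Kmod N m).relIndex (stab ρ hG) := by
  rw [DD, Fix_eq_comap hm, Subgroup.relIndex_comap, St_eq_comap ρ hG,
    Subgroup.map_comap_eq_self_of_surjective (cm_surj N)]

lemma prod_dvd {π : Finset ℕ} (hπ : ∀ p ∈ π, p.Prime) (a : ℕ → ℕ) {m : ℕ}
    (h : ∀ p ∈ π, p ^ a p ∣ m) : ∏ p ∈ π, p ^ a p ∣ m :=
  Finset.prod_dvd_of_isRelPrime (fun p hp q hq hpq => Nat.coprime_iff_isRelPrime.mp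
    (Nat.Coprime.pow _ _ ((Nat.coprime_primes (hπ p hp) (hπ q hq)).mpr hpq))) h

theorem base [Finite G] {ρ : G →* Mat n} (hρ : Irr ρ) (π : Finset ℕ) (a : ℕ → ℕ)
    (h : ∀ p ∈ π, p.Prime ∧ 0 < a p ∧ Cond (St (ch ρ)) (p ^ a p)) (h6 : π.card ≤ 6) :
    DD (St (ch ρ)) (∏ p ∈ π, p ^ a p) ≤ n := by
  classical
  have := Fintype.ofFinite G
  have hm : 0 < ∏ p ∈ π, p ^ a p := Finset.prod_pos fun p hp => pow_pos (h p hp).1.pos _
  obtain ⟨N, hN⟩ : ∃ N, N = 2 * Fintype.card G := ⟨_, rfl⟩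
  have hn1 : 1 < N := by
    have := Fintype.card_pos (α := G)
    omega
  have hn0 : 0 < N := by omega
  have : NeZero N := ⟨hn0.ne'⟩
  have hG : ∀ g : G, g ^ N = 1 := fun g => by rw [hN, pow_mul', pow_card_eq_one, one_pow]
  obtain ⟨s, hs⟩ := exists_s N
  have hj : ∀ p, ∃ j : (ZMod N)ˣ, p ∈ π → Inert N p (a p) (ex j) ∧
      (orderOf (j : (ZMod N)ˣ ⧸ stab ρ hG)).Prime := by
    intro p
    by_cases hp : p ∈ π
    · obtain ⟨hp1, hp2, hp3⟩ := h p hp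
      have hc : (p ^ (a p - 1)).Coprime (ordCompl[p] N) :=
        (Nat.coprime_ordCompl hp1 hn0.ne').pow_left _
      obtain ⟨t, ht, ht'⟩ := SetLike.not_le_iff_exists.mp (hp3 (p ^ (a p - 1) * ordCompl[p] N)
        (Nat.mul_pos (pow_pos hp1.pos _) (Nat.ordCompl_pos p hn0.ne')) fun h0 => by
          have h1 := ((Nat.coprime_ordCompl hp1 hn0.ne').pow_left _).dvd_of_dvd_mul_right h0
          have h2 := (Nat.pow_dvd_pow_iff_le_right hp1.one_lt).mp h1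
          omega)
      have h1 : orderOf (cm N t : (ZMod N)ˣ ⧸ stab ρ hG) ≠ 1 := fun h => ht' (by
        rw [St_eq_comap ρ hG]
        exact (QuotientGroup.eq_one_iff (cm N t)).mp (orderOf_eq_one_iff.mp h))
      refine ⟨cm N t ^ (orderOf (cm N t : (ZMod N)ˣ ⧸ stab ρ hG) /
        (orderOf (cm N t : (ZMod N)ˣ ⧸ stab ρ hG)).minFac), fun _ => ⟨fun q hq hq' => ?_, ?_⟩⟩
      · refine (Kmod N q).pow_mem ?_ _ hq
        have h2 : q ∣ p ^ (a p - 1) * ordCompl[p] N := by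
          have hq0 := (Nat.pos_of_dvd_of_pos hq hn0).ne'
          rw [← Nat.ordProj_mul_ordCompl_eq_self q p]
          refine Nat.mul_dvd_mul (pow_dvd_pow p ?_) (Nat.ordCompl_dvd_ordCompl_of_dvd hq p)
          have := mt (hp1.pow_dvd_iff_le_factorization hq0).mpr hq'
          omega
        have h3 := Fix_anti h2 ht
        rwa [Fix_eq_comap hq] at h3
      · rw [QuotientGroup.mk_pow]
        exact Joint.prime_order _ h1
    · exact ⟨1, fun h => absurd h hp⟩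
  choose j hj using hj
  obtain ⟨l, hl, ψ, hψ⟩ := cover_six π (fun p => (j p : (ZMod N)ˣ ⧸ stab ρ hG))
    (fun p hp => (hj p hp).2) h6
  obtain ⟨g, θ, h1, h2, h3⟩ := exists_eig ρ hn1 hG (orth_one hρ) s hs (stab ρ hG)
    (fun _ => Iff.rfl) hl ψ π a j fun p hp => ⟨(h p hp).1, (hj p hp).1, hψ p hp⟩
  have h4 := relIndex_le ρ hG s hs h1 h2
  rw [Fintype.card_fin, ← DD_eq_relIndex ρ hG (orderOf_dvd_of_pow_eq_one h1)] at h4
  exact (DD_dvd _ (Nat.pos_of_dvd_of_pos (orderOf_dvd_of_pow_eq_one h1) hn0)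
    (prod_dvd (fun p hp => (h p hp).1) a h3)).trans h4

lemma fac_chain [Finite G] {ρ : G →* Mat n} (hn : 0 < n) {p k M : ℕ} (hp : p.Prime)
    (hM : ¬ p ∣ M) (hG : Nat.card G = p ^ k * M) (hh : ∀ N : Subgroup G, N.Normal → Homog ρ N)
    {R : Subgroup G} (hR : PSolv p R) : Fac ρ R (p ^ k) M := by
  have := Fact.mk hp
  have hc : ∀ e, (p ^ e).Coprime M := fun e => ((Nat.Prime.coprime_iff_not_dvd hp).mpr hM).pow_left e
  have hM0 : 0 < M := Nat.pos_of_ne_zero fun h => hM (h ▸ dvd_zero p)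
  have h1 : ∀ t, t ∣ Nat.card G → ¬ p ∣ t → t ∣ M := fun t h h' =>
    (((Nat.Prime.coprime_iff_not_dvd hp).mpr h').pow_left k).symm.dvd_of_dvd_mul_left (hG ▸ h)
  have h2 : ∀ t, t ∣ Nat.card G → (∃ e, t = p ^ e) → t ∣ p ^ k := by
    rintro _ h ⟨e, rfl⟩
    exact (hc e).dvd_of_dvd_mul_right (hG ▸ h)
  have h3 : ∀ A B : Subgroup G, A.relIndex B ∣ Nat.card G := fun A B =>
    (Subgroup.relIndex_dvd_card A B).trans (Subgroup.card_subgroup_dvd_card B)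
  have h4 : ∀ g : G, g ^ (p ^ k * M) = 1 := fun g => by rw [← hG, pow_card_eq_one']
  induction hR with
  | bot => exact fac_bot ρ _ _
  | step N K hN hK h5 h6 ih =>
    have := hN.normal
    rcases h6 with h6 | h6
    · obtain ⟨P⟩ : Nonempty (Sylow p K) := inferInstance
      refine (ih.symm.step (L := (P : Subgroup K).map K.subtype) hn hM0 (pow_pos hp.pos k)
        (hc k).symm (fun g => by rw [mul_comm, h4]) h5 (h2 _ (h3 _ _) h6) (hh K hK)
        (Subgroup.map_subtype_le _) (h2 _ (Subgroup.card_subgroup_dvd_card _)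
          (IsPGroup.iff_card.mp (P.2.map _))) (h1 _ (h3 _ _) ?_)).symm
      rw [Subgroup.relIndex, Subgroup.subgroupOf,
        Subgroup.comap_map_eq_self_of_injective (Subgroup.subtype_injective _)]
      exact P.not_dvd_index
    · obtain ⟨L, h7, h8, h9⟩ := hall hp hN K h5 h6
      exact ih.step hn (pow_pos hp.pos k) hM0 (hc k) h4 h5 (h1 _ (h3 _ _) h6) (hh K hK) h7
        (h1 _ (Subgroup.card_subgroup_dvd_card _) h8) (h2 _ (h3 _ _) h9)

lemma vanish [Finite G] {ρ : G →* Mat n} (hn : 0 < n) {p k M : ℕ} (hp : p.Prime)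
    (hM : ¬ p ∣ M) (hG : Nat.card G = p ^ k * M) {R : Subgroup G} (hR : PSolv p R) {d d' : ℕ}
    {φ : Mat d →ₐ[ℂ] Mat n} {ψ : Mat d' →ₐ[ℂ] Mat n} {a : G → Mat d} {b : G → Mat d'}
    (h1 : Side ρ R (p ^ k) M φ a) (h2 : Side ρ R M (p ^ k) ψ b)
    (h4 : ∀ x ∈ R, ρ x = φ (a x) * ψ (b x)) {j : RingAut ℂ} (hj : j ∈ Fix M)
    (hj' : ∀ x ∈ R, j (a x).trace = (a x).trace) {g : G} {m : ℕ} (hm : ¬ p ∣ m)
    (hg : g ^ m ∈ R) : j (ch ρ g) = ch ρ g := by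
  have := hR.normal
  have hc : ∀ e, (p ^ e).Coprime M := fun e => ((Nat.Prime.coprime_iff_not_dvd hp).mpr hM).pow_left e
  have hM0 : 0 < M := Nat.pos_of_ne_zero fun h => hM (h ▸ dvd_zero p)
  have h5 : ∀ t, t ∣ Nat.card G → ¬ p ∣ t → t ∣ M := fun t h h' =>
    (((Nat.Prime.coprime_iff_not_dvd hp).mpr h').pow_left k).symm.dvd_of_dvd_mul_left (hG ▸ h)
  have h3 : ∀ A B : Subgroup G, A.relIndex B ∣ Nat.card G := fun A B =>
    (Subgroup.relIndex_dvd_card A B).trans (Subgroup.card_subgroup_dvd_card B)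
  let K := R ⊔ Subgroup.zpowers g
  have h6 : ¬ p ∣ R.relIndex K := fun h => hm (h.trans (by
    rw [Subgroup.relIndex_sup_left, ← QuotientGroup.ker_mk' R, Subgroup.relIndex_ker,
      MonoidHom.map_zpowers, Nat.card_zpowers, orderOf_dvd_iff_pow_eq_one, ← map_pow]
    exact (QuotientGroup.eq_one_iff _).mpr hg))
  have hr := h5 _ (h3 _ _) h6
  have hgK : g ∈ K := Subgroup.mem_sup_right (Subgroup.mem_zpowers g)
  obtain ⟨L, h7, h8, e', h9⟩ := hall hp hR K le_sup_left h6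
  obtain ⟨a', e⟩ := h1.ex hn (pow_pos hp.pos k) (hc k) (le_sup_left : R ≤ K) hr
  refine fix_of_mul (v := 1) (z := (a' g).trace * (cof ρ φ a' g).trace) h1.pos ?_ ?_
  · rw [ch, e.fac (ρ := ρ) (φ := φ) hgK, trace_phi φ (e.comm h1 hgK), Nat.cast_one, mul_one]
  · rw [map_mul, e.gal h1 (hc k) hr hj' hgK, e.cof_gal h1 h2 h4 hn hM0 (hc k) hr h7
      (h5 _ (Subgroup.card_subgroup_dvd_card _) h8)
      (h9 ▸ (hc e').dvd_of_dvd_mul_right (hG ▸ h9 ▸ h3 L K)) hj hgK]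

end Pool.Agent.P.MP_fb2360_al.T
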