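import Pool.Agent.P.MP_fb2360_al.T.Wed
import Pool.Agent.P.MP_fb2360_al.T.Aut

namespace Pool.Agent.P.MP_fb2360_al.T

open Pool.Agent.P.MP_fb2360_al Matrix Submodule

variable {n d : ℕ} {X : Type} [Group X]

/-- Galois conjugate representation -/
noncomputable def mapRep (s : RingAut ℂ) (f : X →* Mat d) : X →* Mat d :=
  (RingHom.mapMatrix (s : ℂ →+* ℂ)).toMonoidHom.comp f

lemma mapRep_apply (s : RingAut ℂ) (f : X →* Mat d) (x : X) : mapRep s f x = (f x).map s := rfl

lemma trace_map_aut (s : RingAut ℂ) (Y : Mat d) : (Y.map s).trace = s Y.trace := by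
  simp [Matrix.trace, map_sum]

lemma ch_mapRep (s : RingAut ℂ) (f : X →* Mat d) (x : X) : ch (mapRep s f) x = s (ch f x) :=
  trace_map_aut s _

lemma Irr.mapRep {f : X →* Mat d} (hf : Irr f) (s : RingAut ℂ) : Irr (mapRep s f) := by
  refine ⟨hf.1, eq_top_iff.mpr fun Y _ => ?_⟩
  have h1 : ∀ Z ∈ span ℂ (Set.range f), Z.map s ∈ span ℂ (Set.range (T.mapRep s f)) := by
    intro Z hZ
    induction hZ using span_induction with
    | mem Z hZ =>
      obtain ⟨x, rfl⟩ := hZ
      exact subset_span ⟨x, rfl⟩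
    | zero => rw [Matrix.map_zero _ (map_zero s)]; exact zero_mem _
    | add _ _ _ _ h1 h2 => rw [Matrix.map_add _ (map_add s)]; exact add_mem h1 h2
    | smul c Z _ h1 =>
      have : (c • Z).map s = s c • Z.map s := by
        ext i j
        simp
      rw [this]
      exact smul_mem _ _ h1
  have h2 := h1 (Y.map s.symm) (hf.2 ▸ mem_top)
  have h3 : (Y.map s.symm).map s = Y := by
    ext i j
    simp
  rwa [h3] at h2

/-- unnormalised inner product -/
noncomputable def ip [Fintype X] (α β : X → ℂ) : ℂ := ∑ x, α x⁻¹ * β x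

lemma ip_comb [Fintype X] {r : ℕ} (φ : Fin r → X → ℂ)
    (h : ∀ i j, ip (φ i) (φ j) = if i = j then (Fintype.card X : ℂ) else 0)
    (c c' : Fin r → ℤ) (π : Fin r → Fin r) {α β : X → ℂ} (hα : ∀ x, α x = ∑ i, c i * φ i x)
    (hβ : ∀ x, β x = ∑ i, c' i * φ (π i) x) :
    ip α β = Fintype.card X * (∑ k, c (π k) * c' k : ℤ) := by
  unfold ip at h ⊢
  simp only [hα, hβ, Finset.sum_mul, Finset.mul_sum]
  rw [Finset.sum_comm]
  push_cast
  rw [Finset.mul_sum]
  refine Finset.sum_congr rfl fun k _ => ?_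
  rw [Finset.sum_comm]
  have : ∀ i, ∑ x, c i * φ i x⁻¹ * (c' k * φ (π k) x) =
      c i * c' k * if i = π k then (Fintype.card X : ℂ) else 0 := fun i => by
    rw [← h, Finset.mul_sum]
    exact Finset.sum_congr rfl fun x _ => by ring
  simp only [this, mul_ite, mul_zero, Finset.sum_ite_eq', Finset.mem_univ, if_true]
  ring

lemma irr_eq [Fintype X] {r : ℕ} (φ : Fin r → X → ℂ)
    (h : ∀ i j, ip (φ i) (φ j) = if i = j then (Fintype.card X : ℂ) else 0) {f : X →* Mat d}
    (hf : Irr f) (m : Fin r → ℕ) (hm : ∀ x, ch f x = ∑ i, m i * φ i x) : ∃ i, ch f = φ i := by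
  have h1 := ip_comb φ h (fun i => m i) (fun i => m i) id (α := ch f) (β := ch f)
    (by simpa using hm) (by simpa using hm)
  have h2 : ip (ch f) (ch f) = Fintype.card X := orth_one hf
  have hc : (Fintype.card X : ℂ) ≠ 0 := by exact_mod_cast Fintype.card_ne_zero
  rw [h2, left_eq_mul₀ hc] at h1
  have h3 : ∑ k, m k * m k = 1 := by exact_mod_cast h1
  obtain ⟨i, -, hi⟩ := Finset.exists_ne_zero_of_sum_ne_zero (h3 ▸ one_ne_zero : ∑ k, m k * m k ≠ 0)
  have h4 := Finset.add_sum_erase Finset.univ (fun k => m k * m k) (Finset.mem_univ i)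
  rw [h3] at h4
  have h5 : m i * m i = 1 := by omega
  have h6 : ∑ k ∈ Finset.univ.erase i, m k * m k = 0 := by omega
  refine ⟨i, funext fun x => ?_⟩
  rw [hm, Finset.sum_eq_single i (fun j _ hj => ?_) (by simp), Nat.eq_one_of_mul_eq_one_right h5,
    Nat.cast_one, one_mul]
  rw [mul_self_eq_zero.mp (Finset.sum_eq_zero_iff.mp h6 j (by simp [hj])), Nat.cast_zero, zero_mul]

lemma ip_irr [Fintype X] {d' : ℕ} {f : X →* Mat d} {f' : X →* Mat d'} (hf : Irr f) (hf' : Irr f') :
    (ch f = ch f' ∧ ip (ch f) (ch f') = Fintype.card X) ∨ (ch f ≠ ch f' ∧ ip (ch f) (ch f') = 0) := by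
  by_cases h : ch f = ch f'
  · exact Or.inl ⟨h, h ▸ orth_one hf⟩
  · obtain ⟨r, e, τ, -, h2, h3⟩ := wedc X
    obtain ⟨m, hm⟩ := h3 _ f
    obtain ⟨m', hm'⟩ := h3 _ f'
    obtain ⟨i, hi⟩ := irr_eq (fun i => ch (τ i)) h2 hf m hm
    obtain ⟨j, hj⟩ := irr_eq (fun i => ch (τ i)) h2 hf' m' hm'
    refine Or.inr ⟨h, ?_⟩
    rw [hi, hj] at h ⊢
    exact (h2 i j).trans (if_neg fun hij => h (by rw [hij]))

/-- Galois conjugates of a constituent -/
lemma orbit_le [Fintype X] (f : X →* Mat n) {τ : X →* Mat d} (hτ : Irr τ)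
    (hip : ip (ch τ) (ch f) ≠ 0) {H : Subgroup (RingAut ℂ)} (hH : H ≤ St (ch f)) :
    (St (ch τ)).relIndex H ≠ 0 ∧ (St (ch τ)).relIndex H * d ≤ n := by
  classical
  obtain ⟨r, e, σ, -, h2, h3⟩ := wedc X
  obtain ⟨m, hm⟩ := h3 _ f
  have key : ∀ s : H, ∃ i, m i ≠ 0 ∧ e i = d ∧ ∀ x, (s : RingAut ℂ) (ch τ x) = ch (σ i) x := by
    intro s
    obtain ⟨m', hm'⟩ := h3 _ (mapRep s τ)
    obtain ⟨i, hi⟩ := irr_eq (fun i => ch (σ i)) h2 (hτ.mapRep s) m' hm'
    have hi' : ∀ x, (s : RingAut ℂ) (ch τ x) = ch (σ i) x := fun x => by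
      rw [← ch_mapRep, hi]
    refine ⟨i, fun h0 => hip ?_, ?_, hi'⟩
    · apply (s : RingAut ℂ).injective
      have h4 := ip_comb (fun i => ch (σ i)) h2 (Pi.single i 1) (fun i => m i) id
        (α := ch (σ i)) (β := ch f) (fun x => by
          rw [Finset.sum_eq_single i (fun j _ hj => by simp [hj]) (by simp)]
          simp) (by simpa using hm)
      rw [Finset.sum_eq_single i (fun j _ hj => by simp [hj]) (by simp), h0] at h4
      unfold ip at h4 ⊢
      simp only [map_sum, map_mul, hi', hH s.2 _, map_zero]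
      simpa using h4
    · have := hi' 1
      rw [ch_one, ch_one, map_natCast] at this
      exact_mod_cast this.symm
  choose I h4 h5 h6 using key
  set K := (St (ch τ)).subgroupOf H
  have hinj : Function.Injective fun q : H ⧸ K => I q.out := by
    intro q q' h
    rw [← QuotientGroup.out_eq' q, ← QuotientGroup.out_eq' q', QuotientGroup.eq]
    intro x
    show (q.out : RingAut ℂ).symm ((q'.out : RingAut ℂ) (ch τ x)) = ch τ x
    rw [RingEquiv.symm_apply_eq, h6, h6]
    simp only at h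
    rw [h]
  have : Finite (H ⧸ K) := Finite.of_injective _ hinj
  have := Fintype.ofFinite (H ⧸ K)
  refine ⟨Nat.card_pos.ne', ?_⟩
  have h7 := hm 1
  simp only [ch_one] at h7
  have h8 : n = ∑ i, m i * e i := by exact_mod_cast h7
  rw [h8, Subgroup.relIndex, Subgroup.index, Nat.card_eq_fintype_card, ← Finset.card_univ,
    ← Finset.card_image_of_injective _ hinj, ← smul_eq_mul, ← Finset.sum_const]
  refine le_trans (Finset.sum_le_sum fun i hi => ?_)
    (Finset.sum_le_sum_of_subset (Finset.subset_univ _))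
  obtain ⟨q, -, rfl⟩ := Finset.mem_image.mp hi
  rw [h5]
  exact Nat.le_mul_of_pos_left _ (Nat.pos_of_ne_zero (h4 _))

end Pool.Agent.P.MP_fb2360_al.T
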