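import Pool.Agent.P.MP_fb2360_al.T.Lin

namespace Pool.Agent.P.MP_fb2360_al.T

open Pool.Agent.P.MP_fb2360_al Matrix Submodule

variable {d n : ℕ} {X : Type} [Group X]

/-- irreducible matrix representation -/
def Irr (f : X →* Mat d) : Prop := 0 < d ∧ span ℂ (Set.range f) = ⊤

/-- the character -/
def ch (f : X →* Mat d) : X → ℂ := fun x => (f x).trace

lemma ch_conj (f : X →* Mat d) (x y : X) : ch f (x * y * x⁻¹) = ch f y := by
  unfold ch
  rw [map_mul, trace_mul_comm, ← map_mul, inv_mul_cancel_left]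

lemma ch_one (f : X →* Mat d) : ch f 1 = d := by
  unfold ch
  rw [map_one, trace_one, Fintype.card_fin]

lemma avg_inter [Fintype X] {d' : ℕ} (f : X →* Mat d) (f' : X →* Mat d')
    (E : Matrix (Fin d') (Fin d) ℂ) (y : X) :
    f' y * ∑ x, f' x * E * f x⁻¹ = (∑ x, f' x * E * f x⁻¹) * f y := by
  rw [Matrix.mul_sum, Matrix.sum_mul, ← Equiv.sum_comp (Equiv.mulLeft y)
    (fun x => f' x * E * f x⁻¹ * f y)]
  refine Finset.sum_congr rfl fun x _ => ?_
  simp only [Equiv.coe_mulLeft, Matrix.mul_assoc, ← map_mul, _root_.mul_inv_rev,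
    inv_mul_cancel_right]
  rw [map_mul, Matrix.mul_assoc]

lemma avg_scalar [Fintype X] {f : X →* Mat d} (hf : Irr f) (E : Mat d) :
    (d : ℂ) • ∑ x, f x * E * f x⁻¹ = ((Fintype.card X : ℂ) * E.trace) • 1 := by
  obtain ⟨c, hc⟩ := scalar_of_comm hf.2 (Y := ∑ x, f x * E * f x⁻¹) (by
    rintro _ ⟨y, rfl⟩
    exact avg_inter f f E y)
  have h1 := congrArg trace hc
  rw [trace_sum, trace_smul, trace_one, Fintype.card_fin] at h1
  have h2 : ∀ x, (f x * E * f x⁻¹).trace = E.trace := fun x => by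
    rw [trace_mul_comm, ← mul_assoc, ← map_mul, inv_mul_cancel, map_one, one_mul]
  simp only [h2, Finset.sum_const, Finset.card_univ, nsmul_eq_mul, smul_eq_mul] at h1
  rw [hc, smul_smul, h1, mul_comm]

lemma sum_entry [Fintype X] {d' : ℕ} (f : X →* Mat d) (f' : X →* Mat d') (i k : Fin d')
    (l j : Fin d) :
    (∑ x, f' x * single k l (1 : ℂ) * f x⁻¹) i j = ∑ x, f' x i k * f x⁻¹ l j := by
  rw [Matrix.sum_apply]
  refine Finset.sum_congr rfl fun x _ => ?_
  rw [Matrix.mul_apply, Finset.sum_eq_single l]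
  · simp
  · intro b _ hb
    rw [mul_single_apply_of_ne _ _ _ _ _ hb, zero_mul]
  · simp

lemma orth_mat [Fintype X] {f : X →* Mat d} (hf : Irr f) :
    (d : ℂ) • ∑ x, ch f x • f x⁻¹ = (Fintype.card X : ℂ) • 1 := by
  ext l j
  have h1 : ∀ i, (d : ℂ) * ∑ x, f x i i * f x⁻¹ l j =
      Fintype.card X * (if i = l then 1 else 0) * (if i = j then 1 else 0) := fun i => by
    have := congrFun (congrFun (avg_scalar hf (single i l 1)) i) j
    rw [Matrix.smul_apply, sum_entry, Matrix.smul_apply, Matrix.one_apply] at this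
    rw [← smul_eq_mul, this, smul_eq_mul]
    congr 2
    split_ifs with h
    · rw [h, trace_single_eq_same]
    · rw [trace_single_eq_of_ne _ _ _ h]
  have h2 := Finset.sum_congr (s₁ := Finset.univ) rfl fun i _ => h1 i
  rw [← Finset.mul_sum, Finset.sum_comm] at h2
  simp only [Matrix.smul_apply, Matrix.sum_apply, smul_eq_mul, ch, Matrix.trace, Matrix.diag_apply,
    Finset.sum_mul, Matrix.one_apply]
  rw [h2, Finset.sum_eq_single l]
  · simp
  · intro b _ hb
    simp [hb]
  · simp

lemma orth_one [Fintype X] {f : X →* Mat d} (hf : Irr f) :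
    ∑ x, (f x⁻¹).trace * (f x).trace = Fintype.card X := by
  have h1 := congrArg trace (orth_mat hf)
  have hd : (d : ℂ) ≠ 0 := by exact_mod_cast hf.1.ne'
  simp only [trace_smul, trace_sum, trace_one, Fintype.card_fin, smul_eq_mul, ch] at h1
  simp only [mul_comm (f _⁻¹).trace]
  exact mul_left_cancel₀ hd (h1.trans (mul_comm _ _))

lemma deg_dvd [Finite X] {f : X →* Mat d} (hf : Irr f) : d ∣ Nat.card X := by
  have := Fintype.ofFinite X
  have hd : (d : ℂ) ≠ 0 := by exact_mod_cast hf.1.ne'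
  have h1 : ∑ x, ch f x • f x⁻¹ = ((Fintype.card X : ℂ) / d) • (1 : Mat d) := by
    rw [div_eq_inv_mul, ← smul_smul, ← orth_mat hf, smul_smul, inv_mul_cancel₀ hd, one_smul]
  rw [Nat.card_eq_fintype_card]
  refine dvd_of_mem_lInt hf.1 ⟨(Fintype.card X : ℂ) / d, ?_, by field_simp⟩
  let O := integralClosure ℤ ℂ
  have h2 : IsIntegral O ((Fintype.card X : ℂ) / d) := by
    refine isIntegral_of_smul_mem_submodule (span O (Set.range f)) ?_
      (Submodule.fg_span (Set.finite_range f)) _ fun Y hY => ?_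
    · intro h
      have h3 : f 1 ∈ span O (Set.range f) := subset_span ⟨1, rfl⟩
      rw [h, map_one, mem_bot] at h3
      have : Nonempty (Fin d) := ⟨⟨0, hf.1⟩⟩
      exact one_ne_zero h3
    · induction hY using span_induction with
      | mem Y hY =>
        obtain ⟨y, rfl⟩ := hY
        rw [← one_mul (f y), ← smul_mul_assoc, ← h1, Finset.sum_mul]
        refine sum_mem fun x _ => ?_
        rw [smul_mul_assoc, ← map_mul]
        have h3 : IsIntegral ℤ (ch f x) := isIntegral_trace (Fintype.card_pos (α := X))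
          (by rw [← map_pow, pow_card_eq_one, map_one])
        exact smul_mem (span O (Set.range f)) (⟨ch f x, h3⟩ : O) (subset_span ⟨_, rfl⟩)
      | zero => simp
      | add _ _ _ _ h1 h2 => rw [smul_add]; exact add_mem h1 h2
      | smul c _ _ h1 => rw [smul_comm]; exact smul_mem _ _ h1
  exact isIntegral_trans _ h2

lemma conj_of_trace [Finite X] {f f' : X →* Mat d} (hf : Irr f) (h : ∀ x, ch f' x = ch f x) :
    ∃ S : (Mat d)ˣ, ∀ x, f' x * S = S * f x := by
  have := Fintype.ofFinite X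
  have h1 : ∃ E : Mat d, ∑ x, f' x * E * f x⁻¹ ≠ 0 := by
    by_contra h0
    push Not at h0
    have h2 : ∑ x, ch f x • f x⁻¹ = 0 := by
      ext l j
      have h3 : ∀ i, ∑ x, f' x i i * f x⁻¹ l j = 0 := fun i => by
        rw [← sum_entry f f' i i l j, h0, Matrix.zero_apply]
      simp only [← h]
      simp only [Matrix.smul_apply, Matrix.sum_apply, smul_eq_mul, ch, Matrix.trace,
        Matrix.diag_apply, Finset.sum_mul, Matrix.zero_apply]
      rw [Finset.sum_comm]
      exact Finset.sum_eq_zero fun i _ => h3 i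
    have h3 := orth_mat hf
    rw [h2, smul_zero] at h3
    have h4 := congrFun (congrFun h3 ⟨0, hf.1⟩) ⟨0, hf.1⟩
    simp only [Matrix.zero_apply, Matrix.smul_apply, one_apply_eq, smul_eq_mul, mul_one] at h4
    exact Fintype.card_ne_zero (α := X) (by exact_mod_cast h4.symm)
  obtain ⟨E, hE⟩ := h1
  have h2 := avg_inter f f' E
  set T := ∑ x, f' x * E * f x⁻¹
  have h3 : IsUnit T := by
    rw [Matrix.isUnit_iff_isUnit_det, isUnit_iff_ne_zero]
    intro h0
    obtain ⟨v, hv, hv0⟩ := Matrix.exists_mulVec_eq_zero_iff.mpr h0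
    have h4 : ∀ Z : Mat d, (T * Z) *ᵥ v = 0 := by
      intro Z
      have hZ : Z ∈ span ℂ (Set.range f) := hf.2 ▸ mem_top
      induction hZ using span_induction with
      | mem Y hY =>
        obtain ⟨y, rfl⟩ := hY
        rw [← h2, ← Matrix.mulVec_mulVec, hv0, Matrix.mulVec_zero]
      | zero => simp
      | add _ _ _ _ h1 h2 => rw [mul_add, Matrix.add_mulVec, h1, h2, add_zero]
      | smul c _ _ h1 => rw [mul_smul_comm, Matrix.smul_mulVec, h1, smul_zero]
    obtain ⟨k, hk⟩ := Function.ne_iff.mp hv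
    refine hE ?_
    ext i j
    have h5 := congrFun (h4 (single j k 1)) i
    rw [← Matrix.mulVec_mulVec, single_mulVec, one_mul] at h5
    simp only [Matrix.mulVec, dotProduct, Function.update_apply, Pi.zero_apply, mul_ite, mul_zero,
      Finset.sum_ite_eq', Finset.mem_univ, if_true, mul_eq_zero] at h5
    exact h5.resolve_right hk
  exact ⟨h3.unit, fun x => h2 x⟩

end Pool.Agent.P.MP_fb2360_al.T
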