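import Pool.Agent.P.MP_fb2360_al.T.Ext
import Pool.Agent.P.MP_fb2360_al.T.Grp

namespace Pool.Agent.P.MP_fb2360_al.T

open Pool.Agent.P.MP_fb2360_al Matrix Submodule

variable {n d d' : ℕ} {G : Type} [Group G]

lemma relIndex_dvd_of_normal [Finite G] {N K Q : Subgroup G} [N.Normal] (hN : N ≤ K) (hQ : Q ≤ K) :
    (Q ⊓ N).relIndex N ∣ Q.relIndex K := by
  have h1 := Subgroup.relIndex_inf_mul_relIndex Q N K
  have h2 := Subgroup.relIndex_inf_mul_relIndex N Q K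
  rw [inf_of_le_left hN] at h1
  rw [inf_of_le_left hQ, inf_comm, ← h1] at h2
  obtain ⟨t, ht⟩ := relIndex_dvd_right N hQ
  rw [ht, mul_left_comm] at h2
  rw [Subgroup.inf_relIndex_right]
  exact ⟨t, Nat.eq_of_mul_eq_mul_left (Nat.pos_of_ne_zero Subgroup.index_ne_zero_of_finite) h2⟩

lemma exists_mul_of_coprime {N K L : Subgroup G} [N.Normal]
    (hc : (N.relIndex K).Coprime (L.relIndex K)) {g : G} (hg : g ∈ K) :
    ∃ x ∈ N, ∃ y ∈ L, x * y = g := by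
  have h1 : (N ⊔ L).relIndex K = 1 := Nat.eq_one_of_dvd_coprimes hc
    (Subgroup.relIndex_dvd_of_le_left K le_sup_left)
    (Subgroup.relIndex_dvd_of_le_left K le_sup_right)
  exact Subgroup.mem_sup_of_normal_left.mp (Subgroup.relIndex_eq_one.mp h1 hg)

lemma pow_mem_of_relIndex {N K : Subgroup G} [N.Normal] {m : ℕ} (h : N.relIndex K ∣ m) {g : G}
    (hg : g ∈ K) : g ^ m ∈ N := by
  obtain ⟨t, rfl⟩ := h
  rw [pow_mul]
  exact pow_mem (Subgroup.pow_index_mem (N.subgroupOf K) ⟨g, hg⟩) t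

/-- one tensor factor of the restriction to `N` -/
structure Side (ρ : G →* Mat n) (N : Subgroup G) (M M' : ℕ) (φ : Mat d →ₐ[ℂ] Mat n)
    (a : G → Mat d) : Prop where
  pos : 0 < d
  hom : HomOn N a
  mem : ∀ X, φ X ∈ span ℂ (ρ '' N)
  inv : ∀ g, ∀ x ∈ N, ρ g * φ (a x) = φ (a (g * x * g⁻¹)) * ρ g
  deg : d ∣ M
  spn : ∀ Q ≤ N, Q.relIndex N ∣ M' → span ℂ (a '' Q) = ⊤
  det : ∀ x ∈ N, (a x).det ^ M = 1
  gal : ∀ s ∈ Fix M, ∀ x ∈ N, s (a x).trace = (a x).trace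
  stab : ∀ s : RingAut ℂ, (∀ x ∈ N, s (ch ρ x) = ch ρ x) → ∀ x ∈ N, s (a x).trace = (a x).trace

lemma fix_of_mul {s : RingAut ℂ} {u v : ℕ} (hu : 0 < u) {y z : ℂ} (h : u * y = z * v)
    (hz : s z = z) : s y = y := by
  have h1 := congrArg s h
  rw [map_mul, map_mul, map_natCast, map_natCast, hz, ← h] at h1
  exact mul_left_cancel₀ (by exact_mod_cast hu.ne') h1

namespace Side

variable {ρ : G →* Mat n} {N : Subgroup G} {M M' : ℕ} {φ : Mat d →ₐ[ℂ] Mat n} {a : G → Mat d}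
  (h : Side ρ N M M' φ a)
include h

lemma top : span ℂ (a '' N) = ⊤ := h.spn N le_rfl (by simp)

lemma nm_exists [Finite G] [hN : N.Normal] (hn : 0 < n) (g : G) :
    ∃ A, IsUnit A ∧ Nm N a g A := by
  have h1 : HomOn N fun x => a (g * x * g⁻¹) := ⟨by simp [h.hom.one], fun x hx y hy => by
    rw [← h.hom.mul _ (hN.conj_mem x hx g) _ (hN.conj_mem y hy g)]
    congr 1
    group⟩
  obtain ⟨S, hS⟩ := conj_of_trace (f' := h1.toHom) (h.hom.irr h.pos h.top) fun x => by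
    have h2 : φ (a (g * x * g⁻¹)) = ρ g * φ (a x) * ρ g⁻¹ := by
      rw [h.inv g x x.2, mul_assoc (φ _), ← map_mul, mul_inv_cancel, map_one, mul_one]
    have h3 := trace_phi' φ (a (g * x * g⁻¹))
    rw [h2, trace_mul_comm, ← mul_assoc, ← map_mul, inv_mul_cancel, map_one, one_mul,
      trace_phi'] at h3
    exact (mul_right_cancel₀ (by exact_mod_cast hn.ne') h3).symm
  exact ⟨S, S.isUnit, fun x hx => hS ⟨x, hx⟩⟩

lemma comm {g : G} {A A' : Mat d} (hA : Nm N a g A) (h1 : A * A' = 1) (X : Mat d) :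
    φ X * (φ A' * ρ g) = φ A' * ρ g * φ X := by
  refine (comm_span (S := φ '' (a '' N)) ?_ ?_).symm
  · rintro _ ⟨_, ⟨x, hx, rfl⟩, rfl⟩
    have h2 : A' * a (g * x * g⁻¹) = a x * A' := by
      rw [← mul_one (a (g * x * g⁻¹)), ← h1, ← mul_assoc (a _), hA x hx, ← mul_assoc, ← mul_assoc,
        mul_eq_one_comm.mp h1, one_mul]
    rw [mul_assoc, h.inv g x hx, ← mul_assoc, ← map_mul, h2, map_mul, mul_assoc]
  · have := Submodule.mem_map_of_mem (f := φ.toLinearMap) (h.top ▸ mem_top : X ∈ span ℂ (a '' N))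
    rwa [Submodule.map_span] at this

end Side

/-- the canonical extension of a factor -/
structure Ex (N K : Subgroup G) (M : ℕ) (a a' : G → Mat d) : Prop where
  le : N ≤ K
  hom : HomOn K a'
  eq : ∀ x ∈ N, a' x = a x
  det : ∀ g, (a' g).det ^ M = 1

section

variable {ρ : G →* Mat n} {N K : Subgroup G} {M M' : ℕ} {φ : Mat d →ₐ[ℂ] Mat n} {a a' : G → Mat d}
  {ψ : Mat d' →ₐ[ℂ] Mat n} {b : G → Mat d'}

lemma Side.ex [Finite G] [N.Normal] (h : Side ρ N M M' φ a) (hn : 0 < n) (hM : 0 < M)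
    (hc : M.Coprime M') (hK : N ≤ K) (hr : N.relIndex K ∣ M') : ∃ a', Ex N K M a a' := by
  obtain ⟨a', h1, h2, h3⟩ := ext_exists (K := K) h.pos h.hom h.top hM h.det
    (((hc.coprime_dvd_left h.deg).mul_left hc).symm.coprime_dvd_left hr) (h.nm_exists hn)
  exact ⟨a', hK, h1, h2, h3⟩

lemma Ex.nm [N.Normal] (e : Ex N K M a a') {g : G} (hg : g ∈ K) : Nm N a g (a' g) :=
  e.hom.nm e.le e.eq hg

lemma Ex.uniq [N.Normal] (e : Ex N K M a a') (h : Side ρ N M M' φ a) (hc : M.Coprime M')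
    (hr : N.relIndex K ∣ M') {g : G} (hg : g ∈ K) {A : Mat d} (hA : Nm N a g A)
    (h1 : A ^ M' = a (g ^ M')) (h2 : A.det ^ M = 1) : A = a' g :=
  (e.nm hg).eq h.pos h.top hA (e.hom.isUnit hg)
    ((hc.coprime_dvd_left h.deg).mul_left hc).symm
    (by rw [h1, ← e.hom.pow hg, e.eq _ (pow_mem_of_relIndex hr hg)]) (e.det g) h2

lemma Ex.gal [Finite G] [N.Normal] (e : Ex N K M a a') (h : Side ρ N M M' φ a)
    (hc : M.Coprime M') (hr : N.relIndex K ∣ M') {s : RingAut ℂ}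
    (hs : ∀ x ∈ N, s (a x).trace = (a x).trace) {g : G} (hg : g ∈ K) :
    s (a' g).trace = (a' g).trace := by
  obtain ⟨Φ, h1, h2, h3, h4⟩ := gal_conj h.pos h.hom h.top hs
  rw [← h2, e.uniq h hc hr hg (h4 g _ (e.nm hg))]
  · rw [← map_pow, ← e.hom.pow hg, e.eq _ (pow_mem_of_relIndex hr hg),
      h1 _ (pow_mem_of_relIndex hr hg)]
  · rw [h3, ← map_pow, e.det, map_one]

lemma Ex.inv [Finite G] [hN : N.Normal] [hK : K.Normal] (e : Ex N K M a a')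
    (h : Side ρ N M M' φ a) (hn : 0 < n) (hc : M.Coprime M') (hr : N.relIndex K ∣ M') (g : G)
    {x : G} (hx : x ∈ K) : ρ g * φ (a' x) = φ (a' (g * x * g⁻¹)) * ρ g := by
  obtain ⟨A, ⟨A, rfl⟩, hA⟩ := h.nm_exists hn g
  have hA' : Nm N a g⁻¹ A⁻¹.val := fun y hy => by
    have := hA _ (hN.conj_mem y hy g⁻¹)
    rw [show g * (g⁻¹ * y * g⁻¹⁻¹) * g⁻¹ = y by group] at this
    rw [Units.mul_inv_eq_iff_eq_mul, mul_assoc A⁻¹.val, this, Units.inv_mul_cancel_left]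
  rw [← e.uniq h hc hr (hK.conj_mem x hx g) ((hA.mul (e.nm hx)).mul hA')]
  · have := h.comm hA A.mul_inv (a' x)
    rw [map_mul, map_mul, mul_assoc, mul_assoc, this, ← mul_assoc, ← mul_assoc, ← map_mul,
      Units.mul_inv, map_one, one_mul]
  · rw [Units.conj_pow, ← e.hom.pow hx, e.eq _ (pow_mem_of_relIndex hr hx),
      ← hA _ (pow_mem_of_relIndex hr hx), Units.mul_inv_cancel_right, conj_pow]
  · rw [det_mul, mul_comm, ← det_mul, ← mul_assoc, Units.inv_mul, one_mul, e.det]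

/-- the complementary factor -/
noncomputable def cof (ρ : G →* Mat n) (φ : Mat d →ₐ[ℂ] Mat n) (a' : G → Mat d) (g : G) : Mat n :=
  φ (a' g⁻¹) * ρ g

lemma Ex.comm [N.Normal] (e : Ex N K M a a') (h : Side ρ N M M' φ a) {g : G} (hg : g ∈ K)
    (X : Mat d) : φ X * cof ρ φ a' g = cof ρ φ a' g * φ X :=
  h.comm (e.nm hg) (e.hom.mul_inv hg) X

lemma Ex.fac (e : Ex N K M a a') {g : G} (hg : g ∈ K) : ρ g = φ (a' g) * cof ρ φ a' g := by
  rw [cof, ← mul_assoc, ← map_mul, e.hom.mul_inv hg, map_one, one_mul]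

lemma Ex.cof_hom [N.Normal] (e : Ex N K M a a') (h : Side ρ N M M' φ a) :
    HomOn K (cof ρ φ a') := by
  refine ⟨by simp [cof, e.hom.one], fun x hx y hy => ?_⟩
  conv_rhs => rw [cof.eq_1 ρ φ a' y, ← mul_assoc, ← e.comm h hx, cof, ← mul_assoc, ← map_mul,
    ← e.hom.mul _ (inv_mem hy) _ (inv_mem hx), mul_assoc, ← map_mul]
  rw [cof, _root_.mul_inv_rev]

lemma Ex.cof_eq (e : Ex N K M a a') (hf : ∀ x ∈ N, ρ x = φ (a x) * ψ (b x)) {x : G}
    (hx : x ∈ N) : cof ρ φ a' x = ψ (b x) := by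
  rw [cof, hf x hx, ← mul_assoc, ← map_mul, ← e.eq x hx, e.hom.inv_mul (e.le hx), map_one, one_mul]

lemma Ex.cof_gal [Finite G] [N.Normal] (e : Ex N K M a a') (h : Side ρ N M M' φ a)
    (h' : Side ρ N M' M ψ b) (hf : ∀ x ∈ N, ρ x = φ (a x) * ψ (b x)) (hn : 0 < n) (hM' : 0 < M')
    (hc : M.Coprime M') (hr : N.relIndex K ∣ M') {L : Subgroup G} (hL : L ≤ K)
    (h1 : Nat.card L ∣ M') (h2 : L.relIndex K ∣ M) {s : RingAut ℂ} (hs : s ∈ Fix M') {g : G}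
    (hg : g ∈ K) : s (cof ρ φ a' g).trace = (cof ρ φ a' g).trace := by
  obtain ⟨x, hx, y, hy, rfl⟩ := exists_mul_of_coprime (L := L)
    ((hc.symm.coprime_dvd_left hr).coprime_dvd_right h2) hg
  have hb := e.cof_hom h
  have h3 := h'.spn (L ⊓ N) inf_le_right ((relIndex_dvd_of_normal e.le hL).trans h2)
  have h4 : ∀ z ∈ N, s (ψ (b z)).trace = (ψ (b z)).trace := fun z hz =>
    fix_of_mul h'.pos (trace_phi' ψ (b z)) (h'.gal s hs z hz)
  rw [hb.mul _ (e.le hx) _ (hL hy), e.cof_eq hf hx]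
  have h5 : ∀ X, ψ X ∈ span ℂ (ψ '' (b '' (L ⊓ N : Subgroup G))) := fun X => by
    have := Submodule.mem_map_of_mem (f := ψ.toLinearMap)
      (h3 ▸ mem_top : X ∈ span ℂ (b '' (L ⊓ N : Subgroup G)))
    rwa [Submodule.map_span] at this
  refine semi (S := ψ '' (b '' (L ⊓ N : Subgroup G))) (fun X hX hX' => ?_) s ?_ (h5 _) ?_ ?_
  · have h6 : span ℂ (ψ '' (b '' (L ⊓ N : Subgroup G))) ≤ LinearMap.range ψ.toLinearMap := by
      rw [span_le]
      rintro _ ⟨Y, -, rfl⟩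
      exact ⟨Y, rfl⟩
    obtain ⟨Y, rfl⟩ := h6 hX
    rw [nondeg h3 (X := Y) fun Z hZ => ?_, map_zero]
    have h7 := trace_phi' ψ (Y * Z)
    rw [map_mul, show (ψ Y * ψ Z).trace = 0 from hX' _ ⟨Z, hZ, rfl⟩, mul_zero] at h7
    exact (mul_eq_zero.mp h7.symm).resolve_right (by exact_mod_cast hn.ne')
  · rintro _ ⟨_, ⟨z, hz, rfl⟩, rfl⟩ _ ⟨_, ⟨w, hw, rfl⟩, rfl⟩
    rw [← map_mul, ← h'.hom.mul _ hz.2 _ hw.2]
    exact h4 _ (mul_mem hz.2 hw.2)
  · rintro _ ⟨_, ⟨z, hz, rfl⟩, rfl⟩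
    rw [← map_mul, ← h'.hom.mul _ hx _ hz.2]
    exact h4 _ (mul_mem hx hz.2)
  · rintro _ ⟨_, ⟨z, hz, rfl⟩, rfl⟩
    rw [← e.cof_eq hf hz.2, ← hb.mul _ (hL hz.1) _ (hL hy)]
    refine fix_trace hM' ?_ hs
    obtain ⟨t, rfl⟩ := h1
    have h6 : (z * y) ^ Nat.card L = 1 :=
      congrArg Subtype.val (pow_card_eq_one' (x := (⟨z * y, mul_mem hz.1 hy⟩ : L)))
    rw [← hb.pow (hL (mul_mem hz.1 hy)), pow_mul, h6, one_pow, hb.one]

end

end Pool.Agent.P.MP_fb2360_al.T
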