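import Pool.Agent.P.MP_fb2360_al.T.Fac

namespace Pool.Agent.P.MP_fb2360_al.T

open Pool.Agent.P.MP_fb2360_al Matrix Submodule

variable {n d d' : ℕ} {G : Type} [Group G]

lemma Nm.inv {N : Subgroup G} [hN : N.Normal] {a : G → Mat d} {g : G} {A : (Mat d)ˣ}
    (hA : Nm N a g A) : Nm N a g⁻¹ A⁻¹.val := fun y hy => by
  have := hA _ (hN.conj_mem y hy g⁻¹)
  rw [show g * (g⁻¹ * y * g⁻¹⁻¹) * g⁻¹ = y by group] at this
  rw [Units.mul_inv_eq_iff_eq_mul, mul_assoc A⁻¹.val, this, Units.inv_mul_cancel_left]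

lemma Nm.one (N : Subgroup G) (a : G → Mat d) : Nm N a 1 1 := fun x _ => by simp

lemma Nm.pow {N : Subgroup G} [N.Normal] {a : G → Mat d} {g : G} {A : Mat d}
    (hA : Nm N a g A) (k : ℕ) : Nm N a (g ^ k) (A ^ k) := by
  induction k with
  | zero => simpa using Nm.one N a
  | succ k ih => simpa only [pow_succ] using ih.mul hA

/-- the central extension attached to a factor -/
def Cov (N : Subgroup G) [N.Normal] (a : G → Mat d) : Subgroup (G × (Mat d)ˣ) where
  carrier := {q | q.2.val.det = 1 ∧ Nm N a q.1 q.2}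
  one_mem' := ⟨det_one, Nm.one N a⟩
  mul_mem' := fun {q q'} h h' => ⟨by
    rw [Prod.snd_mul, Units.val_mul, det_mul, h.1, h'.1, mul_one], h.2.mul h'.2⟩
  inv_mem' := fun {q} h => ⟨by
    have := congrArg det q.2.inv_mul
    rwa [det_mul, h.1, mul_one, det_one] at this, h.2.inv⟩

variable {ρ : G →* Mat n} {R : Subgroup G} [R.Normal] {M M' : ℕ} {φ : Mat d →ₐ[ℂ] Mat n}
  {a : G → Mat d} {ψ : Mat d' →ₐ[ℂ] Mat n} {b : G → Mat d'}

lemma cov_surj [Finite G] (h : Side ρ R M M' φ a) (hn : 0 < n) (g : G) :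
    ∃ q : Cov R a, q.1.1 = g := by
  obtain ⟨A, h1, h2⟩ := h.nm_exists hn g
  obtain ⟨t, ht⟩ := exists_det_one h.pos h1
  have h3 : IsUnit (t • A) := by rw [Matrix.isUnit_iff_isUnit_det, ht]; exact isUnit_one
  exact ⟨⟨(g, h3.unit), ht, h2.smul t⟩, rfl⟩

lemma cov_scalar (h : Side ρ R M M' φ a) {q q' : Cov R a} (hq : q.1.1 = q'.1.1) :
    ∃ c : ℂ, c ^ d = 1 ∧ q'.1.2.val = c • q.1.2.val := by
  obtain ⟨c, hc⟩ := Nm.uniq h.top q.2.2 (hq ▸ q'.2.2) q.1.2.isUnit
  refine ⟨c, ?_, hc⟩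
  have := q'.2.1
  rwa [hc, det_smul, q.2.1, mul_one, Fintype.card_fin] at this

lemma cov_finite [Finite G] (h : Side ρ R M M' φ a) (hn : 0 < n) : Finite (Cov R a) := by
  choose σ hσ using cov_surj h hn
  choose c h1 h2 using fun q : Cov R a => cov_scalar h (hσ q.1.1)
  refine Finite.of_injective (fun q : Cov R a =>
    (q.1.1, (⟨c q, (mem_rts h.pos).mpr (h1 q)⟩ : rts d))) fun q q' hq => ?_
  simp only [Prod.mk.injEq, Subtype.mk.injEq] at hq
  refine Subtype.ext (Prod.ext hq.1 (Units.ext ?_))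
  rw [h2 q, h2 q', hq.1, hq.2]

lemma cov_gal [Finite G] {p k : ℕ} (hp : p.Prime) (h : Side ρ R (p ^ k) M' φ a)
    (hM' : ¬ p ∣ M') (hG : Nat.card G = p ^ k * M') {s : RingAut ℂ}
    (hs : s ∈ Fix (p ^ k * p ^ k)) (q : Cov R a) {x : G} (hx : x ∈ R) :
    s (q.1.2.val * a x).trace = (q.1.2.val * a x).trace := by
  have := Fact.mk hp
  have hc : (p ^ k).Coprime M' := ((Nat.Prime.coprime_iff_not_dvd hp).mpr hM').pow_left k
  obtain ⟨Φ, h1, h2, h3, h4⟩ := gal_conj h.pos h.hom h.top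
    (h.gal s (Fix_anti (Dvd.intro _ rfl) hs))
  obtain ⟨⟨g, A⟩, hA1, hA⟩ := q
  simp only at hA1 hA ⊢
  obtain ⟨μ, hμ⟩ := hA.uniq h.top (h4 g _ hA) A.isUnit
  have h5 : μ ^ d = 1 := by
    have := h3 A
    rwa [hμ, det_smul, hA1, mul_one, map_one, Fintype.card_fin] at this
  have h6 : IsPGroup p (Subgroup.zpowers (g ^ M')) := by
    refine IsPGroup.of_card_dvd_pow (n := k) ?_
    rw [Nat.card_zpowers, orderOf_dvd_iff_pow_eq_one, ← pow_mul, mul_comm, ← hG, pow_card_eq_one']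
  obtain ⟨P, hP⟩ := h6.exists_le_sylow
  have h7 : (P : Subgroup G).index ∣ M' :=
    (((Nat.Prime.coprime_iff_not_dvd hp).mpr P.not_dvd_index).pow_left k).symm.dvd_of_dvd_mul_left
      (hG ▸ Subgroup.index_dvd_card _)
  have h8 : Nat.card P ∣ p ^ k := by
    obtain ⟨e, he⟩ := IsPGroup.iff_card.mp P.2
    have := Subgroup.card_subgroup_dvd_card (P : Subgroup G)
    rw [hG, he] at this
    rw [he]
    exact (((Nat.Prime.coprime_iff_not_dvd hp).mpr hM').pow_left e).dvd_of_dvd_mul_right this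
  have h9 := h.spn (P ⊓ R) inf_le_right ((relIndex_dvd_of_normal le_top le_top).trans
    (by rwa [Subgroup.relIndex_top_right]))
  have h10 : (μ ^ M' - 1) • A.val ^ M' = 0 := by
    refine nondeg h9 ?_
    rintro _ ⟨y, hy, rfl⟩
    have hY := ((hA.pow M').mul (h.hom.nm le_rfl (fun _ _ => rfl) hy.2)).pow (p ^ k)
    have h11 : (g ^ M' * y) ^ p ^ k = 1 := by
      obtain ⟨t, ht⟩ := h8
      have := congrArg Subtype.val (pow_card_eq_one'
        (x := (⟨g ^ M' * y, mul_mem (hP (Subgroup.mem_zpowers _)) hy.1⟩ : P)))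
      rw [ht, pow_mul]
      exact (congrArg (· ^ t) this).trans (one_pow t)
    rw [h11] at hY
    obtain ⟨c, hc'⟩ := (Nm.one R a).uniq h.top hY isUnit_one
    have h12 : c ^ d = 1 := by
      have := congrArg det hc'
      rw [det_pow, det_mul, det_pow, hA1, one_pow, one_mul, h.det y hy.2, det_smul, det_one,
        mul_one, Fintype.card_fin] at this
      exact this.symm
    have h13 : (A.val ^ M' * a y) ^ (p ^ k * p ^ k) = 1 := by
      obtain ⟨t, ht⟩ := h.deg
      rw [pow_mul, hc', smul_pow, one_pow, ht, pow_mul, h12, one_pow, one_smul]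
    have h14 := fix_trace (Nat.mul_pos (pow_pos hp.pos k) (pow_pos hp.pos k)) h13 hs
    rw [← h2, map_mul, map_pow, hμ, h1 y hy.2, smul_pow, smul_mul_assoc] at h14
    rw [sub_smul, one_smul, sub_mul, trace_sub, smul_mul_assoc, h14, sub_self]
  have h11 : μ ^ M' = 1 := smul_inj h.pos (A.isUnit.pow M') (by
    rwa [sub_smul, sub_eq_zero] at h10)
  have h12 : μ = 1 := (pow_eq_one_iff_of_coprime (hc.coprime_dvd_left h.deg)).mp ⟨h5, h11⟩
  rw [← h2, map_mul, hμ, h12, one_smul, h1 x hx]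

theorem split [Finite G] {p k : ℕ} (hp : p.Prime) (hρ : Irr ρ) (h : Side ρ R (p ^ k) M' φ a)
    (h2 : Side ρ R M' (p ^ k) ψ b) (h3 : ∀ X Y, φ X * ψ Y = ψ Y * φ X)
    (h4 : ∀ x ∈ R, ρ x = φ (a x) * ψ (b x)) (hM' : ¬ p ∣ M') (hG : Nat.card G = p ^ k * M') :
    ∃ (G' : Type) (_ : Group G') (_ : Finite G') (f : G' →* G), IsPGroup p f.ker ∧
      ∃ (r : ℕ) (τ : G' →* Mat r), Irr τ ∧ n = d * r ∧
        ∀ s ∈ Fix (p ^ k * p ^ k), (s ∈ St (ch ρ) ↔ s ∈ St (ch τ)) := by
  have hn := hρ.1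
  have hd : (d : ℂ) ≠ 0 := by exact_mod_cast h.pos.ne'
  let B : Cov R a → Mat n := fun q => φ q.1.2⁻¹.val * ρ q.1.1
  have hB1 : ∀ q X, φ X * B q = B q * φ X := fun q X => h.comm q.2.2 q.1.2.mul_inv X
  have hB2 : ∀ q q', B (q * q') = B q * B q' := fun q q' => by
    conv_rhs => rw [show B q' = φ q'.1.2⁻¹.val * ρ q'.1.1 from rfl, ← mul_assoc, ← hB1]
    simp only [B, Subgroup.coe_mul, Prod.snd_mul, Prod.fst_mul, _root_.mul_inv_rev, Units.val_mul,
      map_mul, mul_assoc]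
  have hB3 : ∀ q : Cov R a, ρ q.1.1 = φ q.1.2.val * B q := fun q => by
    simp only [B]
    rw [← mul_assoc, ← map_mul, Units.mul_inv, map_one, one_mul]
  let i : Fin d := ⟨0, h.pos⟩
  have he : φ (single i i 1) * φ (single i i 1) = φ (single i i 1) := by
    rw [← map_mul, single_mul_single_same, mul_one]
  obtain ⟨r, U, W, hWU, hUW⟩ := compress he
  set e := φ (single i i 1) with he'
  have heU : e * U = U := by rw [← hUW, Matrix.mul_assoc, hWU, Matrix.mul_one]
  have hWe : W * e = W := by rw [← hUW, ← Matrix.mul_assoc, hWU, Matrix.one_mul]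
  let τ : Cov R a →* Mat r :=
    { toFun := fun q => W * B q * U
      map_one' := by simp [B, hWU]
      map_mul' := fun q q' => by
        calc W * B (q * q') * U = W * B q * (B q' * e) * U := by
              simp only [hB2, Matrix.mul_assoc, heU]
          _ = _ := by
              rw [← hB1, ← he', ← hUW]
              simp only [Matrix.mul_assoc] }
  have hτ : ∀ q, τ q = W * B q * U := fun _ => rfl
  have hch : ∀ q, d * ch τ q = (B q).trace := fun q => by
    rw [ch, hτ, trace_mul_comm, ← Matrix.mul_assoc, hUW, he', trace_phi φ (hB1 q),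
      trace_single_eq_same, one_mul]
  have hnr : n = d * r := by
    have h5 := trace_phi' φ (single i i 1)
    rw [← he', ← hUW, trace_mul_comm, hWU, trace_one, Fintype.card_fin, trace_single_eq_same,
      one_mul] at h5
    exact_mod_cast h5.symm
  have hχ : ∀ q : Cov R a, ch ρ q.1.1 = q.1.2.val.trace * ch τ q := fun q => by
    apply mul_left_cancel₀ hd
    rw [ch, hB3, trace_phi φ (hB1 q), ← hch, mul_left_comm]
  refine ⟨Cov R a, inferInstance, cov_finite h hn, (MonoidHom.fst _ _).comp (Cov R a).subtype,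
    fun q => ⟨k, ?_⟩, r, τ, ⟨Nat.pos_of_mul_pos_left (hnr ▸ hn), eq_top_iff.mpr fun Y _ => ?_⟩,
    hnr, fun s hs => ⟨fun hs' q => ?_, fun hs' g => ?_⟩⟩
  · obtain ⟨c, h5, h6⟩ := cov_scalar h (q := 1) (q' := q.1) q.2.symm
    obtain ⟨t, ht⟩ := h.deg
    refine Subtype.ext (Subtype.ext (Prod.ext ?_ (Units.ext ?_)))
    · have h7 : q.1.1.1 = 1 := q.2
      simp [h7]
    · simp only [SubmonoidClass.coe_pow, Prod.pow_snd, Units.val_pow_eq_pow_val, h6]
      simp [smul_pow, ht, pow_mul, h5]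
  · have : ∀ Z ∈ span ℂ (Set.range ρ), W * Z * U ∈ span ℂ (Set.range τ) := by
      intro Z hZ
      induction hZ using span_induction with
      | mem Z hZ =>
        obtain ⟨g, rfl⟩ := hZ
        obtain ⟨q, rfl⟩ := cov_surj h hn g
        have h5 : e * φ q.1.2.val * e = q.1.2.val i i • e := by
          rw [he', ← map_mul, ← map_mul, single_mul_mul_single, ← map_smul, smul_single]
          simp
        have : W * ρ q.1.1 * U = q.1.2.val i i • τ q := by
          calc W * ρ q.1.1 * U = W * e * φ q.1.2.val * (B q * e) * U := by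
                simp only [hB3, hWe, Matrix.mul_assoc, heU]
            _ = W * (e * φ q.1.2.val * e) * B q * U := by
                rw [← hB1, ← he']
                simp only [Matrix.mul_assoc]
            _ = _ := by rw [h5, Matrix.mul_smul, hWe, Matrix.smul_mul, Matrix.smul_mul, hτ]
        rw [this]
        exact smul_mem _ _ (subset_span ⟨q, rfl⟩)
      | zero => simp
      | add _ _ _ _ h1 h2 => rw [Matrix.mul_add, Matrix.add_mul]; exact add_mem h1 h2
      | smul c _ _ h1 => rw [Matrix.mul_smul, Matrix.smul_mul]; exact smul_mem _ _ h1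
    have h5 := this (U * Y * W) (hρ.2 ▸ mem_top)
    simp only [Matrix.mul_assoc, hWU, Matrix.mul_one] at h5
    rwa [← Matrix.mul_assoc, hWU, Matrix.one_mul] at h5
  · exact fix_of_mul (v := 1) (z := (B q).trace) h.pos ((hch q).trans (by rw [Nat.cast_one, mul_one]))
      (cof_stab h h2 h3 h4 (fun x hx => cov_gal hp h hM' hG hs q⁻¹ hx) (fun x _ => hs' x)
        fun x _ => hs' _)
  · obtain ⟨q, rfl⟩ := cov_surj h hn g
    have h5 := cov_gal hp h hM' hG hs q (one_mem _)
    rw [h.hom.one, mul_one] at h5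
    rw [hχ, map_mul, h5, hs' q]

end Pool.Agent.P.MP_fb2360_al.T
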