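import Pool.Agent.P.MP_fb2360_al.T.Rep

namespace Pool.Agent.P.MP_fb2360_al.T

open Pool.Agent.P.MP_fb2360_al Matrix Submodule

variable {n : ℕ} {X : Type} [Group X]

lemma lift_mem {A : Type*} [Ring A] [Algebra ℂ A] (g : X →* A) (u : MonoidAlgebra ℂ X) :
    MonoidAlgebra.lift ℂ A X g u ∈ span ℂ (Set.range g) := by
  induction u using MonoidAlgebra.induction_on with
  | of x => rw [MonoidAlgebra.lift_of]; exact subset_span ⟨x, rfl⟩
  | add u v h1 h2 => rw [map_add]; exact add_mem h1 h2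
  | smul c u h => rw [map_smul]; exact smul_mem _ _ h

theorem wed (X : Type) [Group X] [Fintype X] :
    ∃ (r : ℕ) (d : Fin r → ℕ) (τ : ∀ i, X →* Mat (d i)), (∀ i, Irr (τ i)) ∧
      (∀ i j, i ≠ j → ∑ x, ch (τ i) x⁻¹ * ch (τ j) x = 0) ∧
      ∀ (n : ℕ) (f : X →* Mat n), ∃ φ : ∀ i, Mat (d i) →ₗ[ℂ] Mat n,
        (∀ i Y Y', φ i (Y * Y') = φ i Y * φ i Y') ∧ (∀ i j, i ≠ j → ∀ Y Y', φ i Y * φ j Y' = 0) ∧
        (∀ x, f x = ∑ i, φ i (τ i x)) ∧ ∀ i Y, φ i Y ∈ span ℂ (Set.range f) := by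
  have : NeZero (Nat.card X : ℂ) := ⟨by exact_mod_cast Nat.card_pos.ne'⟩
  obtain ⟨r, d, hd, ⟨e⟩⟩ :=
    IsSemisimpleRing.exists_algEquiv_pi_matrix_of_isAlgClosed ℂ (MonoidAlgebra ℂ X)
  let τ : ∀ i, X →* Mat (d i) := fun i =>
    (((Pi.evalAlgHom ℂ (fun i => Mat (d i)) i).comp e.toAlgHom).toMonoidHom).comp
      (MonoidAlgebra.of ℂ X)
  have hτ : ∀ i x, τ i x = e (MonoidAlgebra.of ℂ X x) i := fun _ _ => rfl
  have hl : ∀ i u, MonoidAlgebra.lift ℂ _ X (τ i) u = e u i := by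
    intro i u
    induction u using MonoidAlgebra.induction_on with
    | of x => rw [MonoidAlgebra.lift_of, hτ]
    | add u v h1 h2 => rw [map_add, map_add, h1, h2, Pi.add_apply]
    | smul c u h => rw [map_smul, map_smul, h, Pi.smul_apply]
  refine ⟨r, d, τ, fun i => ⟨NeZero.pos _, ?_⟩, fun i j hij => ?_, fun n f => ?_⟩
  · rw [eq_top_iff]
    intro Y _
    have := lift_mem (τ i) (e.symm (Pi.single i Y))
    rwa [hl, AlgEquiv.apply_symm_apply, Pi.single_eq_same] at this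
  · have h1 : ∀ E : Matrix (Fin (d j)) (Fin (d i)) ℂ, ∑ x, τ j x * E * τ i x⁻¹ = 0 := by
      intro E
      have h2 := avg_inter (τ i) (τ j) E
      set T := ∑ x, τ j x * E * τ i x⁻¹
      have h3 : ∀ u, e u j * T = T * e u i := by
        intro u
        induction u using MonoidAlgebra.induction_on with
        | of x => exact h2 x
        | add u v h1 h2 =>
          rw [map_add, Pi.add_apply, Pi.add_apply, Matrix.add_mul, Matrix.mul_add, h1, h2]
        | smul c u h =>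
          rw [map_smul, Pi.smul_apply, Pi.smul_apply, Matrix.smul_mul, Matrix.mul_smul, h]
      have h4 := h3 (e.symm (Pi.single j 1))
      rwa [AlgEquiv.apply_symm_apply, Pi.single_eq_same, Pi.single_eq_of_ne hij, Matrix.one_mul,
        Matrix.mul_zero] at h4
    have h2 : ∀ a b, ∑ x, τ j x a a * τ i x⁻¹ b b = 0 := fun a b => by
      rw [← sum_entry (τ i) (τ j) a a b b, h1, Matrix.zero_apply]
    simp only [ch, Matrix.trace, Matrix.diag_apply, Finset.sum_mul, Finset.mul_sum]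
    rw [Finset.sum_comm]
    refine Finset.sum_eq_zero fun a _ => ?_
    rw [Finset.sum_comm]
    refine Finset.sum_eq_zero fun b _ => ?_
    simpa only [mul_comm] using h2 a b
  · let F := (MonoidAlgebra.lift ℂ _ X f).comp e.symm.toAlgHom
    refine ⟨fun i => F.toLinearMap.comp (LinearMap.single ℂ (fun i => Mat (d i)) i),
      fun i Y Y' => ?_, fun i j hij Y Y' => ?_, fun x => ?_, fun i Y => lift_mem f _⟩
    · show F (Pi.single i (Y * Y')) = F (Pi.single i Y) * F (Pi.single i Y')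
      rw [← map_mul, ← Pi.single_mul]
    · show F (Pi.single i Y) * F (Pi.single j Y') = 0
      rw [← map_mul, ← map_zero F]
      congr 1
      ext k : 1
      by_cases hk : k = i
      · subst hk
        rw [Pi.mul_apply, Pi.single_eq_of_ne hij, mul_zero, Pi.zero_apply]
      · rw [Pi.mul_apply, Pi.single_eq_of_ne hk, zero_mul, Pi.zero_apply]
    · show f x = ∑ i, F (Pi.single i (τ i x))
      rw [← map_sum]
      simp only [hτ]
      rw [Finset.univ_sum_single]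
      show f x = MonoidAlgebra.lift ℂ _ X f (e.symm (e _))
      rw [AlgEquiv.symm_apply_apply, MonoidAlgebra.lift_of]

lemma trace_block {d : ℕ} (hd : 0 < d) (φ : Mat d →ₗ[ℂ] Mat n)
    (h : ∀ Y Y', φ (Y * Y') = φ Y * φ Y') :
    ∃ m : ℕ, (∀ Y, (φ Y).trace = m * Y.trace) ∧ (m = 0 → ∀ Y, φ Y = 0) := by
  obtain ⟨m, hm, -⟩ := trace_idem (φ (single ⟨0, hd⟩ ⟨0, hd⟩ 1)) (by
    rw [← h, single_mul_single_same, mul_one])
  have h1 : ∀ Y, (φ Y).trace = m * Y.trace := fun Y => by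
    have := trace_fun ((Matrix.traceLinearMap _ ℂ ℂ).comp φ) (fun Y Y' => by
      show (φ (Y * Y')).trace = (φ (Y' * Y)).trace
      rw [h, h, trace_mul_comm]) ⟨0, hd⟩ Y
    rw [← hm, mul_comm]
    exact this
  refine ⟨m, h1, fun h0 Y => ?_⟩
  obtain ⟨k, hk, hk0⟩ := trace_idem (φ 1) (by rw [← h, mul_one])
  rw [h1, h0, Nat.cast_zero, zero_mul] at hk
  rw [← one_mul Y, h, hk0 (by exact_mod_cast hk.symm), zero_mul]

theorem wedc (X : Type) [Group X] [Fintype X] :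
    ∃ (r : ℕ) (d : Fin r → ℕ) (τ : ∀ i, X →* Mat (d i)), (∀ i, Irr (τ i)) ∧
      (∀ i j, ∑ x, ch (τ i) x⁻¹ * ch (τ j) x = if i = j then (Fintype.card X : ℂ) else 0) ∧
      ∀ (n : ℕ) (f : X →* Mat n), ∃ m : Fin r → ℕ, ∀ x, ch f x = ∑ i, m i * ch (τ i) x := by
  obtain ⟨r, d, τ, h1, h2, h3⟩ := wed X
  refine ⟨r, d, τ, h1, fun i j => ?_, fun n f => ?_⟩
  · split_ifs with h
    · subst h
      exact orth_one (h1 i)
    · exact h2 i j h
  · obtain ⟨φ, h4, -, h5, -⟩ := h3 n f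
    choose m hm using fun i => trace_block (h1 i).1 (φ i) (h4 i)
    refine ⟨m, fun x => ?_⟩
    simp only [ch, h5 x, trace_sum, fun i => (hm i).1]

lemma nondeg_rep [Finite X] (f : X →* Mat n) {Y : Mat n} (hY : Y ∈ span ℂ (Set.range f))
    (h : ∀ Z ∈ Set.range f, (Y * Z).trace = 0) : Y = 0 := by
  have := Fintype.ofFinite X
  obtain ⟨r, d, τ, h1, -, h3⟩ := wed X
  obtain ⟨φ, h4, h5, h6, h7⟩ := h3 n f
  have h8 : ∃ y : ∀ i, Mat (d i), Y = ∑ i, φ i (y i) := by
    clear h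
    induction hY using span_induction with
    | mem Y hY =>
      obtain ⟨x, rfl⟩ := hY
      exact ⟨_, h6 x⟩
    | zero => exact ⟨0, by simp⟩
    | add _ _ _ _ h1 h2 =>
      obtain ⟨y, rfl⟩ := h1
      obtain ⟨y', rfl⟩ := h2
      exact ⟨y + y', by simp [Finset.sum_add_distrib]⟩
    | smul c _ _ h1 =>
      obtain ⟨y, rfl⟩ := h1
      exact ⟨c • y, by simp [Finset.smul_sum]⟩
  have h9 : ∀ Z ∈ span ℂ (Set.range f), (Y * Z).trace = 0 := by
    intro Z hZ
    induction hZ using span_induction with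
    | mem Z hZ => exact h Z hZ
    | zero => simp
    | add _ _ _ _ h1 h2 => rw [mul_add, trace_add, h1, h2, add_zero]
    | smul c _ _ h1 => rw [mul_smul_comm, trace_smul, h1, smul_zero]
  obtain ⟨y, rfl⟩ := h8
  refine Finset.sum_eq_zero fun i _ => ?_
  obtain ⟨m, hm, hm0⟩ := trace_block (h1 i).1 (φ i) (h4 i)
  by_cases h0 : m = 0
  · exact hm0 h0 _
  · rw [nondeg_all (X := y i) fun Z => ?_, map_zero]
    have := h9 _ (h7 i Z)
    rw [Finset.sum_mul, Finset.sum_eq_single i (fun j _ hj => h5 j i hj _ _) (by simp), ← h4,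
      hm] at this
    exact (mul_eq_zero.mp this).resolve_left (by exact_mod_cast h0)

lemma homog [Finite X] (hn : 0 < n) (f : X →* Mat n)
    (h : ∀ e ∈ span ℂ (Set.range f), e * e = e → (∀ x, e * f x = f x * e) → e = 0 ∨ e = 1) :
    ∃ (d : ℕ) (τ : X →* Mat d) (φ : Mat d →ₐ[ℂ] Mat n), Irr τ ∧ (∀ x, f x = φ (τ x)) ∧
      ∀ Y, φ Y ∈ span ℂ (Set.range f) := by
  have := Fintype.ofFinite X
  have : Nonempty (Fin n) := ⟨⟨0, hn⟩⟩
  obtain ⟨r, d, τ, h1, -, h3⟩ := wed X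
  obtain ⟨φ, h4, h5, h6, h7⟩ := h3 n f
  have hl : ∀ i x, φ i 1 * f x = φ i (τ i x) := fun i x => by
    rw [h6, Finset.mul_sum, Finset.sum_eq_single i (fun j _ hj => h5 i j hj.symm _ _) (by simp),
      ← h4, one_mul]
  have hr : ∀ i x, f x * φ i 1 = φ i (τ i x) := fun i x => by
    rw [h6, Finset.sum_mul, Finset.sum_eq_single i (fun j _ hj => h5 j i hj _ _) (by simp),
      ← h4, mul_one]
  have h8 : ∃ i, φ i 1 = 1 := by
    by_contra h0
    push Not at h0
    have h9 := h6 1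
    rw [map_one, Finset.sum_eq_zero] at h9
    · exact one_ne_zero h9
    · intro i _
      rw [map_one]
      exact (h _ (h7 i 1) (by rw [← h4, mul_one]) fun x => by rw [hl, hr]).resolve_right (h0 i)
  obtain ⟨i, hi⟩ := h8
  exact ⟨d i, τ i, AlgHom.ofLinearMap (φ i) hi (h4 i), h1 i, fun x => by
    rw [← one_mul (f x), ← hi, hl]; rfl, h7 i⟩

end Pool.Agent.P.MP_fb2360_al.T
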